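import Pool.Agent.MP_ca1109_lc.Dnf.L.Defs

/-!
# Lists of terms: the structure `Good` for spread families
-/

namespace Pool.Agent.MP_ca1109_lc.Dnf.L

open Finset

variable {n N : ℕ} {T : Fin N → Term n} {q w₀ h W M r : ℕ} {δ γ : ℝ}

theorem pJ_insert (T : Fin N → Term n) (J : Finset (Fin N)) (c : Fin N) :
    pJ T (insert c J) ≤ pJ T J * (1 / 2) ^ ((T c).S \ J.biUnion fun j => (T j).S).card := by
  classical
  by_cases hc : c ∈ J
  · rw [insert_eq_self.2 hc]
    have h1 : (T c).S \ J.biUnion (fun j => (T j).S) = ∅ :=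
      sdiff_eq_empty_iff_subset.2 (subset_biUnion_of_mem (fun j => (T j).S) hc)
    rw [h1, card_empty, pow_zero, mul_one]
  · have h0 : pJ T (insert c J) = E fun x => (∏ j ∈ J, (T j).f x) * (T c).f x := by
      unfold pJ
      congr 1
      funext x
      rw [prod_insert hc, mul_comm]
    rw [h0]
    rcases prod_term T J with h | ⟨t, ht, _, h⟩
    · simp_rw [h, zero_mul]
      rw [E_const]
      exact mul_nonneg (pJ_nonneg T J) (by positivity)
    · have h1 : pJ T J = (1 / 2) ^ t.S.card := by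
        unfold pJ
        simp_rw [h]
        exact E_term t
      rw [h1, ← pow_add, ← ht]
      simp_rw [h]
      exact E_two t (T c)

theorem a1_sum_biUnion_le {ι κ : Type*} [DecidableEq κ] (s : Finset ι) (t : ι → Finset κ)
    (f : κ → ℝ) (hf : ∀ k, 0 ≤ f k) : ∑ k ∈ s.biUnion t, f k ≤ ∑ i ∈ s, ∑ k ∈ t i, f k := by
  classical
  induction s using Finset.induction_on with
  | empty => simp
  | insert a s ha ih =>
    rw [biUnion_insert, sum_insert ha]
    have h1 := sum_union_inter (s₁ := t a) (s₂ := s.biUnion t) (f := f)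
    have h0 : 0 ≤ ∑ k ∈ t a ∩ s.biUnion t, f k := sum_nonneg fun k _ => hf k
    linarith

/-- The bound for the conditional probability of a light term of width `k`. -/
noncomputable def a1_g (γ : ℝ) (k : ℕ) : ℝ := 2 ^ (-((1 + γ) / 2 * (k : ℝ)))

theorem a1_g_nonneg (γ : ℝ) (k : ℕ) : 0 ≤ a1_g γ k := Real.rpow_nonneg (by norm_num) _

theorem a1_g_anti {γ : ℝ} (hγ : 0 ≤ γ) {k l : ℕ} (h : k ≤ l) : a1_g γ l ≤ a1_g γ k := by
  unfold a1_g
  apply Real.rpow_le_rpow_of_exponent_le (by norm_num)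
  have h1 : (k : ℝ) ≤ l := by exact_mod_cast h
  have h2 : (1 + γ) / 2 * (k : ℝ) ≤ (1 + γ) / 2 * l := mul_le_mul_of_nonneg_left h1 (by linarith)
  linarith

theorem a1_before (hT : Spread r q γ T) (hW : ∀ j, (T j).S.card ≤ W) (j : Fin N) :
    (open Classical in (univ.filter fun i => Hv q w₀ T i j)).card ≤ r * W := by
  classical
  refine (card_le_card ?_).trans ((hT.ovl j).trans (Nat.mul_le_mul_left r (hW j)))
  intro i hi
  rw [mem_filter] at hi ⊢
  obtain ⟨_, _, _, _, h2⟩ := hi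
  exact ⟨mem_univ _, lt_of_le_of_lt (min_le_left _ _) h2⟩

theorem a1_after (hT : Spread r q γ T) (hW : ∀ j, (T j).S.card ≤ W) (i : Fin N) :
    (open Classical in (univ.filter fun j => Hv q w₀ T i j)).card ≤ r * W := by
  classical
  refine (card_le_card ?_).trans ((hT.ovl i).trans (Nat.mul_le_mul_left r (hW i)))
  intro j hj
  rw [mem_filter] at hj ⊢
  obtain ⟨_, _, _, _, h2⟩ := hj
  rw [inter_comm] at h2
  exact ⟨mem_univ _, lt_of_le_of_lt (min_le_right _ _) h2⟩

theorem a1_ball (hT : Spread r q γ T) (hW : ∀ j, (T j).S.card ≤ W) (j : Fin N) :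
    (ball q w₀ T j).card ≤ W * (1 + r * W) := by
  classical
  unfold ball
  refine (card_union_le _ _).trans ?_
  have h1 : ((univ.filter fun i => Hv q w₀ T i j).biUnion fun i => (T i).S).card ≤ (r * W) * W :=
    (card_biUnion_le_card_mul _ _ W fun i _ => hW i).trans
      (Nat.mul_le_mul_right W (a1_before (w₀ := w₀) hT hW j))
  have h2 := hW j
  calc (T j).S.card + ((univ.filter fun i => Hv q w₀ T i j).biUnion fun i => (T i).S).card
      ≤ W + (r * W) * W := Nat.add_le_add h2 h1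
    _ = W * (1 + r * W) := by ring

/-- The wide terms which contain `v`. -/
theorem a1_A (hT : Spread r q γ T) (hW : ∀ j, (T j).S.card ≤ W) (v : Fin n) :
    ∑ c ∈ (open Classical in univ.filter (fun c => Wd w₀ T c ∧ v ∈ (T c).S)),
      a1_g γ (T c).S.card ≤ r * (W + 1) * 2 ^ (-((1 - γ) / 2 * (w₀ : ℝ))) := by
  classical
  have h1 : ∑ c ∈ univ.filter (fun c => Wd w₀ T c ∧ v ∈ (T c).S), a1_g γ (T c).S.card =
      ∑ w ∈ range (W + 1), ∑ c ∈ (univ.filter (fun c => Wd w₀ T c ∧ v ∈ (T c).S)).filter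
        (fun c => (T c).S.card = w), a1_g γ (T c).S.card := by
    rw [sum_fiberwise_of_maps_to]
    intro c _
    rw [mem_range]
    have := hW c
    omega
  have h2 : ∀ w ∈ range (W + 1), ∑ c ∈ (univ.filter (fun c => Wd w₀ T c ∧ v ∈ (T c).S)).filter
        (fun c => (T c).S.card = w), a1_g γ (T c).S.card ≤
        r * 2 ^ (-((1 - γ) / 2 * (w₀ : ℝ))) := by
    intro w _
    by_cases hw : w₀ ≤ w
    · have e1 : ∑ c ∈ (univ.filter (fun c => Wd w₀ T c ∧ v ∈ (T c).S)).filter
          (fun c => (T c).S.card = w), a1_g γ (T c).S.card ≤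
          ((univ.filter fun j => v ∈ (T j).S ∧ (T j).S.card = w).card : ℝ) * a1_g γ w := by
        rw [← nsmul_eq_mul, ← sum_const]
        have e2 : ∑ c ∈ (univ.filter (fun c => Wd w₀ T c ∧ v ∈ (T c).S)).filter
          (fun c => (T c).S.card = w), a1_g γ (T c).S.card =
          ∑ c ∈ (univ.filter (fun c => Wd w₀ T c ∧ v ∈ (T c).S)).filter
          (fun c => (T c).S.card = w), a1_g γ w := by
          refine sum_congr rfl fun c hc => ?_
          rw [(mem_filter.1 hc).2]
        rw [e2]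
        refine sum_le_sum_of_subset_of_nonneg ?_ fun _ _ _ => a1_g_nonneg _ _
        intro c hc
        rw [mem_filter, mem_filter] at hc
        rw [mem_filter]
        exact ⟨mem_univ _, hc.1.2.2, hc.2⟩
      refine e1.trans ?_
      refine (mul_le_mul_of_nonneg_right (hT.read v w) (a1_g_nonneg _ _)).trans ?_
      have e3 : (r : ℝ) * 2 ^ (γ * (w : ℝ)) * a1_g γ w = r * 2 ^ (-((1 - γ) / 2 * (w : ℝ))) := by
        unfold a1_g
        rw [mul_assoc, ← Real.rpow_add (by norm_num : (0 : ℝ) < 2)]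
        congr 2
        ring
      rw [e3]
      refine mul_le_mul_of_nonneg_left ?_ (Nat.cast_nonneg r)
      apply Real.rpow_le_rpow_of_exponent_le (by norm_num)
      have h3 : (w₀ : ℝ) ≤ w := by exact_mod_cast hw
      have h4 := hT.γ1
      have h5 : (1 - γ) / 2 * (w₀ : ℝ) ≤ (1 - γ) / 2 * w :=
        mul_le_mul_of_nonneg_left h3 (by linarith)
      linarith
    · have e1 : (univ.filter (fun c => Wd w₀ T c ∧ v ∈ (T c).S)).filter
          (fun c => (T c).S.card = w) = ∅ := by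
        rw [filter_eq_empty_iff]
        intro c hc hcw
        rw [mem_filter] at hc
        have h3 : w₀ ≤ (T c).S.card := hc.2.1
        omega
      rw [e1, sum_empty]
      positivity
  have h3 := sum_le_sum h2
  rw [← h1, sum_const, card_range, nsmul_eq_mul] at h3
  refine h3.trans (le_of_eq ?_)
  push_cast
  ring

/-- The wide terms whose ball contains `v`. -/
theorem a1_B (hT : Spread r q γ T) (hW : ∀ j, (T j).S.card ≤ W) (v : Fin n) :
    ∑ c ∈ (open Classical in univ.filter (fun c => Wd w₀ T c ∧ v ∈ ball q w₀ T c)),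
      a1_g γ (T c).S.card ≤
      (1 + r * W) * (r * (W + 1)) * 2 ^ (-((1 - γ) / 2 * (w₀ : ℝ))) := by
  classical
  set A := univ.filter (fun c => Wd w₀ T c ∧ v ∈ (T c).S) with hA
  have h1 : univ.filter (fun c => Wd w₀ T c ∧ v ∈ ball q w₀ T c) ⊆
      A ∪ A.biUnion fun i => univ.filter fun c => Hv q w₀ T i c := by
    intro c hc
    obtain ⟨_, hc1, hc2⟩ := mem_filter.1 hc
    rw [mem_union, mem_biUnion]
    unfold ball at hc2
    rcases mem_union.1 hc2 with h | h
    · left
      exact mem_filter.2 ⟨mem_univ _, hc1, h⟩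
    · right
      obtain ⟨i, hi, hv⟩ := mem_biUnion.1 h
      have hi' := (mem_filter.1 hi).2
      exact ⟨i, mem_filter.2 ⟨mem_univ _, hi'.1, hv⟩, mem_filter.2 ⟨mem_univ _, hi'⟩⟩
  have hg : ∀ c, 0 ≤ a1_g γ (T c).S.card := fun c => a1_g_nonneg _ _
  have h2 : ∑ c ∈ univ.filter (fun c => Wd w₀ T c ∧ v ∈ ball q w₀ T c), a1_g γ (T c).S.card ≤
      ∑ c ∈ A, a1_g γ (T c).S.card + ∑ i ∈ A, ∑ c ∈ univ.filter (fun c => Hv q w₀ T i c),
        a1_g γ (T c).S.card := by
    refine (sum_le_sum_of_subset_of_nonneg h1 fun _ _ _ => hg _).trans ?_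
    have e1 := sum_union_inter (s₁ := A)
      (s₂ := A.biUnion fun i => univ.filter fun c => Hv q w₀ T i c)
      (f := fun c => a1_g γ (T c).S.card)
    have e2 : 0 ≤ ∑ c ∈ A ∩ A.biUnion (fun i => univ.filter fun c => Hv q w₀ T i c),
      a1_g γ (T c).S.card := sum_nonneg fun _ _ => hg _
    have e3 := a1_sum_biUnion_le A (fun i => univ.filter fun c => Hv q w₀ T i c)
      (fun c => a1_g γ (T c).S.card) hg
    linarith
  have h3 : ∑ i ∈ A, ∑ c ∈ univ.filter (fun c => Hv q w₀ T i c), a1_g γ (T c).S.card ≤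
      ∑ i ∈ A, (r * W : ℝ) * a1_g γ (T i).S.card := by
    refine sum_le_sum fun i _ => ?_
    have e1 : ∑ c ∈ univ.filter (fun c => Hv q w₀ T i c), a1_g γ (T c).S.card ≤
        ∑ c ∈ univ.filter (fun c => Hv q w₀ T i c), a1_g γ (T i).S.card := by
      refine sum_le_sum fun c hc => a1_g_anti hT.γ0 ?_
      obtain ⟨_, _, _, hp, _⟩ := mem_filter.1 hc
      rcases hp with hp | hp
      · exact hp.le
      · exact hp.1.le
    refine e1.trans ?_
    rw [sum_const, nsmul_eq_mul]
    refine mul_le_mul_of_nonneg_right ?_ (hg i)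
    exact_mod_cast a1_after (w₀ := w₀) hT hW i
  rw [← mul_sum] at h3
  have h4 := a1_A (w₀ := w₀) hT hW v
  have h5 : ∑ c ∈ A, a1_g γ (T c).S.card ≤ r * (W + 1) * 2 ^ (-((1 - γ) / 2 * (w₀ : ℝ))) := h4
  have h6 : (0 : ℝ) ≤ r * W := by positivity
  have h7 := mul_le_mul_of_nonneg_left h5 h6
  calc ∑ c ∈ univ.filter (fun c => Wd w₀ T c ∧ v ∈ ball q w₀ T c), a1_g γ (T c).S.card
      ≤ ∑ c ∈ A, a1_g γ (T c).S.card + ∑ i ∈ A, ∑ c ∈ univ.filter (fun c => Hv q w₀ T i c),
        a1_g γ (T c).S.card := h2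
    _ ≤ r * (W + 1) * 2 ^ (-((1 - γ) / 2 * (w₀ : ℝ))) +
        r * W * (r * (W + 1) * 2 ^ (-((1 - γ) / 2 * (w₀ : ℝ)))) := by linarith
    _ = (1 + r * W) * (r * (W + 1)) * 2 ^ (-((1 - γ) / 2 * (w₀ : ℝ))) := by ring

/-- A wide light term has many variables outside `J`. -/
theorem a1_light (hT : Spread r q γ T) (hq : 2 ≤ q) (hM : 2 * (M : ℝ) ≤ (1 - γ) * q)
    {J : Finset (Fin N)} (hJ : J.card ≤ M) (hJw : ∀ j ∈ J, Wd w₀ T j) {c : Fin N} (hc : c ∉ J)
    (hcw : Wd w₀ T c) (hno : NoHv q w₀ T (insert c J)) :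
    (1 + γ) / 2 * ((T c).S.card : ℝ) ≤ ((T c).S \ J.biUnion fun j => (T j).S).card := by
  classical
  have h1 : ∀ j ∈ J, q * ((T c).S ∩ (T j).S).card ≤ (T c).S.card := by
    intro j hj
    have hne : c ≠ j := fun h => hc (h ▸ hj)
    by_cases hp : Pr T c j
    · by_contra hcon
      exact hno c (mem_insert_self _ _) j (mem_insert_of_mem hj) ⟨hcw, hJw j hj, hp, by omega⟩
    · have hp' : Pr T j c := by
        unfold Pr at hp ⊢
        have h2 : c < j ∨ j < c := lt_or_gt_of_ne hne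
        rcases h2 with h2 | h2
        · left
          by_contra h3
          apply hp
          rcases Nat.lt_or_ge (T c).S.card (T j).S.card with h4 | h4
          · exact Or.inl h4
          · exact Or.inr ⟨by omega, h2⟩
        · by_cases h3 : (T j).S.card < (T c).S.card
          · exact Or.inl h3
          · right
            refine ⟨?_, h2⟩
            by_contra h4
            apply hp
            left
            omega
      by_contra hcon
      apply hno j (mem_insert_of_mem hj) c (mem_insert_self _ _)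
      refine ⟨hJw j hj, hcw, hp', ?_⟩
      rw [inter_comm]
      have h3 : (T j).S.card ≤ (T c).S.card := by
        rcases hp' with h | h
        · exact h.le
        · exact h.1.le
      omega
  have h2 : q * ((T c).S ∩ J.biUnion fun j => (T j).S).card ≤ M * (T c).S.card := by
    have e1 : (T c).S ∩ J.biUnion (fun j => (T j).S) = J.biUnion fun j => (T c).S ∩ (T j).S := by
      ext v
      simp only [mem_inter, mem_biUnion]
      constructor
      · rintro ⟨a, j, hj, b⟩
        exact ⟨j, hj, a, b⟩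
      · rintro ⟨j, hj, a, b⟩
        exact ⟨a, j, hj, b⟩
    rw [e1]
    calc q * (J.biUnion fun j => (T c).S ∩ (T j).S).card
        ≤ q * ∑ j ∈ J, ((T c).S ∩ (T j).S).card := Nat.mul_le_mul_left q card_biUnion_le
      _ = ∑ j ∈ J, q * ((T c).S ∩ (T j).S).card := mul_sum _ _ _
      _ ≤ ∑ j ∈ J, (T c).S.card := sum_le_sum h1
      _ = J.card * (T c).S.card := by rw [sum_const, smul_eq_mul]
      _ ≤ M * (T c).S.card := Nat.mul_le_mul_right _ hJ
  have h3 : (((T c).S \ J.biUnion fun j => (T j).S).card : ℝ) +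
      ((T c).S ∩ J.biUnion fun j => (T j).S).card = (T c).S.card := by
    exact_mod_cast card_sdiff_add_card_inter _ _
  have h4 : (q : ℝ) * ((T c).S ∩ J.biUnion fun j => (T j).S).card ≤ M * (T c).S.card := by
    exact_mod_cast h2
  have hq0 : (0 : ℝ) < q := by
    have : 0 < q := by omega
    exact_mod_cast this
  set a : ℝ := (((T c).S ∩ J.biUnion fun j => (T j).S).card : ℝ)
  set s : ℝ := ((T c).S.card : ℝ)
  have hs0 : 0 ≤ s := Nat.cast_nonneg _
  have h5 : q * a ≤ q * ((1 - γ) / 2 * s) := by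
    have := mul_le_mul_of_nonneg_right hM hs0
    nlinarith
  have h6 : a ≤ (1 - γ) / 2 * s := le_of_mul_le_mul_left h5 hq0
  linarith

theorem good_of_spread (hT : Spread r q γ T) (hq : 2 ≤ q) (hw : 1 ≤ w₀) (hW : ∀ j, (T j).S.card ≤ W)
    (hM : 2 * (M : ℝ) ≤ (1 - γ) * q)
    (hδ : (M * W * (1 + r * W) * ((1 + r * W) * (r * (W + 1))) : ℝ) * 2 ^ (-((1 - γ) / 2 * w₀)) ≤ δ) :
    Good q w₀ (r * W) W M δ T := by
  classical
  refine ⟨hq, hw, le_trans (by positivity) hδ, hW, a1_before hT hW, a1_after hT hW, ?_⟩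
  intro J hJ hJw
  set F := univ.filter (fun c => c ∉ J ∧ Wd w₀ T c ∧ (∃ j ∈ J, Near q w₀ T j c) ∧
      NoHv q w₀ T (insert c J)) with hF
  have hg : ∀ c, 0 ≤ a1_g γ (T c).S.card := fun c => a1_g_nonneg _ _
  have h1 : ∀ c ∈ F, pJ T (insert c J) ≤ pJ T J * a1_g γ (T c).S.card := by
    intro c hc
    obtain ⟨_, hc1, hc2, _, hc4⟩ := mem_filter.1 hc
    refine (pJ_insert T J c).trans (mul_le_mul_of_nonneg_left ?_ (pJ_nonneg T J))
    have h2 := a1_light hT hq hM hJ hJw hc1 hc2 hc4
    unfold a1_g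
    rw [one_div, inv_pow, ← Real.rpow_natCast, ← Real.rpow_neg (by norm_num)]
    apply Real.rpow_le_rpow_of_exponent_le (by norm_num)
    linarith
  have h2 : F ⊆ (J.biUnion fun j => ball q w₀ T j).biUnion fun v =>
      univ.filter (fun c => Wd w₀ T c ∧ v ∈ ball q w₀ T c) := by
    intro c hc
    obtain ⟨_, _, hc2, ⟨j, hj, hn⟩, _⟩ := mem_filter.1 hc
    unfold Near at hn
    rw [not_disjoint_iff] at hn
    obtain ⟨v, hv1, hv2⟩ := hn
    rw [mem_biUnion]
    exact ⟨v, mem_biUnion.2 ⟨j, hj, hv1⟩, mem_filter.2 ⟨mem_univ _, hc2, hv2⟩⟩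
  have h3 : ∑ c ∈ F, a1_g γ (T c).S.card ≤ δ := by
    refine (sum_le_sum_of_subset_of_nonneg h2 fun _ _ _ => hg _).trans ?_
    refine (a1_sum_biUnion_le _ _ _ hg).trans ?_
    refine (sum_le_sum fun v _ => a1_B (w₀ := w₀) hT hW v).trans ?_
    rw [sum_const, nsmul_eq_mul]
    refine le_trans ?_ hδ
    have e1 : ((J.biUnion fun j => ball q w₀ T j).card : ℝ) ≤ M * W * (1 + r * W) := by
      have e2 : (J.biUnion fun j => ball q w₀ T j).card ≤ M * (W * (1 + r * W)) :=
        (card_biUnion_le_card_mul _ _ _ fun j _ => a1_ball hT hW j).trans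
          (Nat.mul_le_mul_right _ hJ)
      have e3 : ((J.biUnion fun j => ball q w₀ T j).card : ℝ) ≤
          ((M * (W * (1 + r * W)) : ℕ) : ℝ) := by exact_mod_cast e2
      refine e3.trans (le_of_eq ?_)
      push_cast
      ring
    have e4 : (0 : ℝ) ≤ (1 + r * W) * (r * (W + 1)) * 2 ^ (-((1 - γ) / 2 * (w₀ : ℝ))) := by
      positivity
    refine (mul_le_mul_of_nonneg_right e1 e4).trans (le_of_eq ?_)
    ring
  calc ∑ c ∈ F, pJ T (insert c J) ≤ ∑ c ∈ F, pJ T J * a1_g γ (T c).S.card := sum_le_sum h1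
    _ = pJ T J * ∑ c ∈ F, a1_g γ (T c).S.card := (mul_sum _ _ _).symm
    _ ≤ pJ T J * δ := mul_le_mul_of_nonneg_left h3 (pJ_nonneg T J)
    _ = δ * pJ T J := mul_comm _ _

/-- Bounded read is the case `γ = 0`, with an arbitrary `q`. -/
theorem spread_of_read (hr : Read r T) (q : ℕ) : Spread r q 0 T := by
  classical
  refine ⟨le_rfl, one_pos, ?_, ?_⟩
  · intro v w
    rw [zero_mul, Real.rpow_zero, mul_one]
    have h1 : (univ.filter fun j => v ∈ (T j).S ∧ (T j).S.card = w).card ≤ r := by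
      refine (card_le_card ?_).trans (hr v)
      intro j hj
      rw [mem_filter] at hj ⊢
      exact ⟨mem_univ _, hj.2.1⟩
    exact_mod_cast h1
  · intro j
    have h1 : (univ.filter fun i =>
        min (T i).S.card (T j).S.card < q * ((T i).S ∩ (T j).S).card) ⊆
        (T j).S.biUnion fun v => univ.filter fun i => v ∈ (T i).S := by
      intro i hi
      rw [mem_filter] at hi
      have h2 : 0 < ((T i).S ∩ (T j).S).card := by
        rcases Nat.eq_zero_or_pos ((T i).S ∩ (T j).S).card with h | h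
        · have h3 := hi.2
          rw [h, mul_zero] at h3
          exact absurd h3 (Nat.not_lt_zero _)
        · exact h
      obtain ⟨v, hv⟩ := card_pos.1 h2
      rw [mem_inter] at hv
      exact mem_biUnion.2 ⟨v, hv.2, mem_filter.2 ⟨mem_univ _, hv.1⟩⟩
    refine (card_le_card h1).trans ?_
    refine (card_biUnion_le_card_mul _ _ r fun v _ => hr v).trans (le_of_eq ?_)
    ring

end Pool.Agent.MP_ca1109_lc.Dnf.L
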