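import Pool.Agent.MP_ca1109_lc.Dnf.L.A9

/-!
# Lists of terms: prefixes
-/

namespace Pool.Agent.MP_ca1109_lc.Dnf.L

open Finset

variable {n N : ℕ} {T : Fin N → Term n} {q w₀ h W M r : ℕ} {δ γ : ℝ}

theorem Z_anti {P P' : Finset (Fin N)} (hP : P ⊆ P') (j : Fin N) (x : Cube n) :
    Z q w₀ T P' j x ≤ Z q w₀ T P j x :=
  one_mono fun h1 => ⟨h1.1, fun i hi => h1.2 i (hP hi)⟩

theorem a10_EZ_nonneg (P : Finset (Fin N)) (j : Fin N) : 0 ≤ E (Z q w₀ T P j) :=
  E_nonneg fun _ => one_nonneg _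

theorem a10_EZ_le (P : Finset (Fin N)) (j : Fin N) : E (Z q w₀ T P j) ≤ 1 := by
  refine (E_mono fun x => one_le _).trans ?_
  rw [E_const]

theorem a10_sum_union {ι : Type*} [DecidableEq ι] (A B : Finset ι) {f : ι → ℝ}
    (hf : ∀ i, 0 ≤ f i) : ∑ i ∈ A ∪ B, f i ≤ ∑ i ∈ A, f i + ∑ i ∈ B, f i := by
  rw [← sum_union_inter]
  exact le_add_of_nonneg_right (sum_nonneg fun i _ => hf i)

theorem a10_sum_biUnion {ι κ : Type*} [DecidableEq ι] [DecidableEq κ] (s : Finset κ)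
    (t : κ → Finset ι) {f : ι → ℝ} (hf : ∀ i, 0 ≤ f i) :
    ∑ i ∈ s.biUnion t, f i ≤ ∑ l ∈ s, ∑ i ∈ t l, f i := by
  induction s using Finset.induction_on with
  | empty => simp
  | insert a s ha ih =>
    rw [biUnion_insert, sum_insert ha]
    exact (a10_sum_union _ _ hf).trans (add_le_add_right ih _)

theorem a10_wid_union (P Q : Finset (Fin N)) : wid w₀ T (P ∪ Q) = wid w₀ T P ∪ wid w₀ T Q := by
  classical
  ext j
  simp only [wid, mem_filter, mem_union]
  tauto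

theorem a10_nar_union (P Q : Finset (Fin N)) : nar w₀ T (P ∪ Q) = nar w₀ T P ∪ nar w₀ T Q := by
  classical
  ext j
  simp only [nar, mem_filter, mem_union]
  tauto

theorem a10_card_wid (P : Finset (Fin N)) : (wid w₀ T P).card ≤ P.card := by
  classical
  exact card_filter_le _ _

theorem a10_card_nar (P : Finset (Fin N)) : (nar w₀ T P).card ≤ P.card := by
  classical
  exact card_filter_le _ _

theorem a10_sum_one {A : Finset (Fin N)} (hA : A.card ≤ 1) {f : Fin N → ℝ} (hf : ∀ i, f i ≤ 1) :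
    ∑ i ∈ A, f i ≤ 1 := by
  refine (sum_le_sum fun i _ => hf i).trans ?_
  rw [sum_const, nsmul_eq_mul, mul_one]
  exact_mod_cast hA

/-- one more term -/
theorem a10_step (P X : Finset (Fin N)) (hX : X.card ≤ 1) :
    (nar w₀ T (P ∪ X)).card ≤ (nar w₀ T P).card + 1 ∧ lam w₀ T (P ∪ X) ≤ lam w₀ T P + 1 ∧
      mu q w₀ T (P ∪ X) ≤ mu q w₀ T P + 1 := by
  refine ⟨?_, ?_, ?_⟩
  · rw [a10_nar_union]
    exact (card_union_le _ _).trans (Nat.add_le_add_left ((a10_card_nar X).trans hX) _)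
  · unfold lam
    rw [a10_wid_union]
    refine (a10_sum_union _ _ fun i => by positivity).trans (add_le_add_right ?_ _)
    exact a10_sum_one ((a10_card_wid X).trans hX) fun i => pow_le_one₀ (by norm_num) (by norm_num)
  · unfold mu
    rw [a10_wid_union]
    refine (a10_sum_union _ _ fun i => a10_EZ_nonneg _ i).trans (add_le_add ?_ ?_)
    · exact sum_le_sum fun j _ => E_mono fun x => Z_anti subset_union_left j x
    · exact a10_sum_one ((a10_card_wid X).trans hX) fun i => a10_EZ_le _ i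

theorem exists_prefix (hT : Good q w₀ h W M δ T) (hS : Spread r q γ T) (hM : 1 ≤ M)
    (L : List (Fin N)) (m : ℕ) {s₀ : ℕ} {l Λ : ℝ} (hΛ : 0 < Λ) (hm : 2 * (m : ℝ) ≤ Λ) (hδ : δ ≤ 1)
    (h1 : Λ * 2 ^ w₀ * (1 + w₀ * (w₀ * r * 2 ^ w₀)) ≤ s₀) (h2 : (1 + h) * Λ ≤ l)
    (h3 : 2 * (δ * (l + 1 + δ)) ≤ Λ) :
    ∃ p : ℕ, (nar w₀ T (L.take p).toFinset).card ≤ s₀ + 1 ∧ lam w₀ T (L.take p).toFinset ≤ l + 1 ∧
      mu q w₀ T (L.take p).toFinset ≤ Λ + 1 ∧
      (L.length ≤ p ∨ E (few m T (L.take p).toFinset) ≤ 8 / Λ) := by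
  classical
  have hl : 0 ≤ l := le_trans (by positivity) h2
  by_cases hok : ∀ p ≤ L.length, (nar w₀ T (L.take p).toFinset).card ≤ s₀ ∧
      lam w₀ T (L.take p).toFinset ≤ l ∧ mu q w₀ T (L.take p).toFinset ≤ Λ
  · obtain ⟨a, b, c⟩ := hok L.length le_rfl
    exact ⟨L.length, by omega, by linarith, by linarith, Or.inl le_rfl⟩
  · push Not at hok
    have hex : ∃ p, ¬ ((nar w₀ T (L.take p).toFinset).card ≤ s₀ ∧
        lam w₀ T (L.take p).toFinset ≤ l ∧ mu q w₀ T (L.take p).toFinset ≤ Λ) := by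
      obtain ⟨p, -, hp⟩ := hok
      exact ⟨p, fun hc => absurd hc.2.2 (not_le.2 (hp hc.1 hc.2.1))⟩
    obtain ⟨p, hp, hmin⟩ : ∃ p, ¬ ((nar w₀ T (L.take p).toFinset).card ≤ s₀ ∧
        lam w₀ T (L.take p).toFinset ≤ l ∧ mu q w₀ T (L.take p).toFinset ≤ Λ) ∧
        ∀ p' < p, (nar w₀ T (L.take p').toFinset).card ≤ s₀ ∧
          lam w₀ T (L.take p').toFinset ≤ l ∧ mu q w₀ T (L.take p').toFinset ≤ Λ :=
      ⟨Nat.find hex, Nat.find_spec hex, fun p' hp' => not_not.1 (Nat.find_min hex hp')⟩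
    rcases Nat.eq_zero_or_pos p with h0 | h0
    · refine absurd ⟨?_, ?_, ?_⟩ hp
      · rw [h0]
        simp [nar]
      · rw [h0]
        simpa [lam, wid] using hl
      · rw [h0]
        simpa [mu, wid] using hΛ.le
    · obtain ⟨p', rfl⟩ : ∃ p', p = p' + 1 := ⟨p - 1, by omega⟩
      obtain ⟨a, b, c⟩ := hmin p' (Nat.lt_succ_self _)
      have hX : (L[p']?.toList.toFinset).card ≤ 1 := by
        refine (List.toFinset_card_le _).trans ?_
        cases L[p']? <;> simp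
      obtain ⟨a', b', c'⟩ := a10_step (q := q) (w₀ := w₀) (T := T) (L.take p').toFinset _ hX
      have hP : (L.take (p' + 1)).toFinset = (L.take p').toFinset ∪ L[p']?.toList.toFinset := by
        rw [List.take_add_one, List.toFinset_append]
      refine ⟨p' + 1, ?_, ?_, ?_, Or.inr ?_⟩
      · rw [hP]
        omega
      · rw [hP]
        linarith
      · rw [hP]
        linarith
      · by_cases hn : (nar w₀ T (L.take (p' + 1)).toFinset).card ≤ s₀
        · by_cases hla : lam w₀ T (L.take (p' + 1)).toFinset ≤ l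
          · have hmu : Λ < mu q w₀ T (L.take (p' + 1)).toFinset := by
              by_contra hc
              exact hp ⟨hn, hla, not_lt.1 hc⟩
            refine few_mu hT hM _ m hΛ hm ?_ hmu.le
            refine le_trans ?_ h3
            have h4 := mul_le_mul_of_nonneg_left (by linarith :
              lam w₀ T (L.take (p' + 1)).toFinset + δ ≤ l + 1 + δ) hT.δ0
            linarith
          · exact few_lam hT hM _ m hΛ hm hδ (h2.trans (not_le.1 hla).le)
        · refine few_nar hS hT.w1 _ m hΛ hm (h1.trans_lt ?_)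
          exact_mod_cast not_le.1 hn

theorem nar_union {k : ℕ} (P : Fin k → Finset (Fin N)) (s : ℕ) (h : ∀ l, (nar w₀ T (P l)).card ≤ s) :
    (nar w₀ T (univ.biUnion P)).card ≤ k * s := by
  classical
  have h1 : nar w₀ T (univ.biUnion P) ⊆ univ.biUnion fun l => nar w₀ T (P l) := by
    intro j hj
    obtain ⟨h2, h3⟩ := mem_filter.1 hj
    obtain ⟨l, hl, hjl⟩ := mem_biUnion.1 h2
    exact mem_biUnion.2 ⟨l, hl, mem_filter.2 ⟨hjl, h3⟩⟩
  refine (card_le_card h1).trans ((card_biUnion_le_card_mul _ _ s fun l _ => h l).trans ?_)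
  rw [card_univ, Fintype.card_fin]

theorem a10_wid_biUnion {k : ℕ} (P : Fin k → Finset (Fin N)) :
    wid w₀ T (univ.biUnion P) ⊆ univ.biUnion fun l => wid w₀ T (P l) := by
  classical
  intro j hj
  obtain ⟨h2, h3⟩ := mem_filter.1 hj
  obtain ⟨l, hl, hjl⟩ := mem_biUnion.1 h2
  exact mem_biUnion.2 ⟨l, hl, mem_filter.2 ⟨hjl, h3⟩⟩

theorem a10_sum_le {k : ℕ} {s : ℝ} {f : Fin k → ℝ} (h : ∀ l, f l ≤ s) : ∑ l, f l ≤ k * s := by
  refine (sum_le_sum fun l _ => h l).trans ?_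
  rw [sum_const, card_univ, Fintype.card_fin, nsmul_eq_mul]

theorem lam_union {k : ℕ} (P : Fin k → Finset (Fin N)) (s : ℝ) (h : ∀ l, lam w₀ T (P l) ≤ s) :
    lam w₀ T (univ.biUnion P) ≤ k * s := by
  classical
  refine le_trans ?_ (a10_sum_le h)
  unfold lam
  refine (sum_le_sum_of_subset_of_nonneg (a10_wid_biUnion P) fun i _ _ => by positivity).trans ?_
  exact a10_sum_biUnion _ _ fun i => by positivity

theorem mu_union {k : ℕ} (P : Fin k → Finset (Fin N)) (s : ℝ) (h : ∀ l, mu q w₀ T (P l) ≤ s) :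
    mu q w₀ T (univ.biUnion P) ≤ k * s := by
  classical
  refine le_trans ?_ (a10_sum_le h)
  unfold mu
  refine (sum_le_sum_of_subset_of_nonneg (a10_wid_biUnion P) fun i _ _ => a10_EZ_nonneg _ i).trans ?_
  refine (a10_sum_biUnion _ _ fun i => a10_EZ_nonneg _ i).trans ?_
  refine sum_le_sum fun l _ => sum_le_sum fun j _ => E_mono fun x => Z_anti ?_ j x
  exact subset_biUnion_of_mem P (mem_univ l)

end Pool.Agent.MP_ca1109_lc.Dnf.L
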