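import Pool.Agent.MP_ca1109_lc.Dnf.L.Defs
import Pool.Agent.MP_ca1109_lc.Dnf.C4
import Pool.Agent.MP_ca1109_lc.Dnf.M6

/-!
# Lists of terms: sandwiches of atoms
-/

namespace Pool.Agent.MP_ca1109_lc.Dnf.L

open Finset

variable {n N : ℕ} {T : Fin N → Term n}

/- ROW A5.  PROOF.
* `small_any`: split `F` into the terms of width `≤ w` (`Small s w η M`) and the others: `one (Or F) ≤ one (Or F₁) + ∑_{F₂} t`, `E ≤ s (1/2)^w`, `L1 ≤ s`.
* `atom_sand`: as M6 of version 1.  `∏_{j ∈ A} t_j` is 0 (`Sand.of_L1`) or a term `t` with variables `⋃ S_j` (`prod_term`).  The list `F'` of the terms `⟨S_i \ t.S, a_i⟩`, `i ∈ D`, which do not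
  contradict `t`: `atm = t * (1 - one (Or F'))`; `SmallAny`, `Sand.proj` (`V = t.S`), `E_indep`: error `η * E t = η * pJ T A`; norm `1 * (1 + M)`. -/

/-- The number of true terms of a list. -/
noncomputable def a5_sum (F : List (Term n)) (x : Cube n) : ℝ := (F.map fun t => t.f x).sum

theorem a5_sum_cons (t : Term n) (F : List (Term n)) (x : Cube n) :
    a5_sum (t :: F) x = t.f x + a5_sum F x := by
  simp [a5_sum]

theorem a5_sum_nonneg (F : List (Term n)) (x : Cube n) : 0 ≤ a5_sum F x := by
  induction F with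
  | nil => simp [a5_sum]
  | cons t F ih =>
    rw [a5_sum_cons]
    exact add_nonneg (one_nonneg _) ih

theorem a5_one_le_sum (F : List (Term n)) (x : Cube n) : one (Or F x) ≤ a5_sum F x := by
  induction F with
  | nil =>
    rw [one_false (by rintro ⟨t, ht, _⟩; simp at ht)]
    simp [a5_sum]
  | cons t F ih =>
    rw [a5_sum_cons]
    by_cases h : t.Sat x
    · have h1 : t.f x = 1 := one_true h
      have := a5_sum_nonneg F x
      have h2 := one_le (Or (t :: F) x)
      linarith
    · have h1 : t.f x = 0 := one_false h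
      rw [h1, zero_add]
      refine (one_mono ?_).trans ih
      rintro ⟨s, hs, hx⟩
      rcases List.mem_cons.mp hs with rfl | hs
      · exact absurd hx h
      · exact ⟨s, hs, hx⟩

theorem a5_L1_sum (F : List (Term n)) : L1 (a5_sum F) ≤ F.length := by
  induction F with
  | nil =>
    have : a5_sum ([] : List (Term n)) = fun _ => (0 : ℝ) := by
      funext x
      simp [a5_sum]
    rw [this, L1_const]
    simp
  | cons t F ih =>
    have : a5_sum (t :: F) = fun x => t.f x + a5_sum F x := by
      funext x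
      exact a5_sum_cons t F x
    rw [this]
    refine (L1_add _ _).trans ?_
    have h1 := L1_term t
    rw [List.length_cons]
    push_cast
    linarith

theorem a5_E_sum (w : ℕ) (F : List (Term n)) (hF : ∀ t ∈ F, w ≤ t.S.card) :
    E (a5_sum F) ≤ F.length * (1 / 2) ^ w := by
  induction F with
  | nil =>
    have : a5_sum ([] : List (Term n)) = fun _ => (0 : ℝ) := by
      funext x
      simp [a5_sum]
    rw [this, E_const]
    simp
  | cons t F ih =>
    have : a5_sum (t :: F) = fun x => t.f x + a5_sum F x := by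
      funext x
      exact a5_sum_cons t F x
    rw [this, E_add, E_term]
    have h1 : (1 / 2 : ℝ) ^ t.S.card ≤ (1 / 2) ^ w :=
      pow_le_pow_of_le_one (by norm_num) (by norm_num) (hF t (List.mem_cons_self ..))
    have h2 := ih fun s hs => hF s (List.mem_cons_of_mem _ hs)
    rw [List.length_cons]
    push_cast
    linarith

theorem small_nonneg {s : ℕ} {η M : ℝ} (h : SmallAny s η M) : 0 ≤ η ∧ 0 ≤ M := by
  obtain ⟨lo, up, hs, he, hl, _⟩ := h 0 [] (by simp)
  refine ⟨?_, (L1_nonneg lo).trans hl⟩
  have : E lo ≤ E up := E_mono fun x => (hs x).1.trans (hs x).2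
  linarith

theorem small_any {s w : ℕ} {η M : ℝ} (h : Small s w η M) : SmallAny s (η + s * (1 / 2) ^ w) (M + s) := by
  classical
  intro n F hF
  set F₁ := F.filter fun t => decide (t.S.card ≤ w) with hF₁
  set F₂ := F.filter fun t => decide (¬ t.S.card ≤ w) with hF₂
  have hl1 : F₁.length ≤ s := (List.length_filter_le _ _).trans hF
  have hl2 : F₂.length ≤ s := (List.length_filter_le _ _).trans hF
  have hl2' : (F₂.length : ℝ) ≤ s := by exact_mod_cast hl2
  obtain ⟨lo, up, hs, he, hl, hu⟩ := h n F₁ hl1 fun t ht => by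
    rw [hF₁, List.mem_filter] at ht
    exact of_decide_eq_true ht.2
  have hE2 : E (a5_sum F₂) ≤ s * (1 / 2) ^ w := by
    refine (a5_E_sum w F₂ fun t ht => ?_).trans
      (mul_le_mul_of_nonneg_right hl2' (by positivity))
    rw [hF₂, List.mem_filter] at ht
    have := of_decide_eq_true ht.2
    omega
  refine ⟨lo, fun x => up x + a5_sum F₂ x, fun x => ⟨?_, ?_⟩, ?_, ?_, ?_⟩
  · refine (hs x).1.trans (one_mono ?_)
    rintro ⟨t, ht, hx⟩
    rw [hF₁, List.mem_filter] at ht
    exact ⟨t, ht.1, hx⟩
  · by_cases h1 : Or F₁ x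
    · have h2 : one (Or F₁ x) ≤ up x := (hs x).2
      rw [one_true h1] at h2
      have h3 := a5_sum_nonneg F₂ x
      have h4 := one_le (Or F x)
      change one (Or F x) ≤ up x + a5_sum F₂ x
      linarith
    · have h2 : one (Or F₁ x) ≤ up x := (hs x).2
      rw [one_false h1] at h2
      have h3 : one (Or F x) ≤ a5_sum F₂ x := by
        refine (one_mono ?_).trans (a5_one_le_sum F₂ x)
        rintro ⟨t, ht, hx⟩
        refine ⟨t, ?_, hx⟩
        rw [hF₂, List.mem_filter]
        refine ⟨ht, decide_eq_true fun hw => h1 ⟨t, ?_, hx⟩⟩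
        rw [hF₁, List.mem_filter]
        exact ⟨ht, decide_eq_true hw⟩
      change one (Or F x) ≤ up x + a5_sum F₂ x
      linarith
  · have h1 : E (fun x => up x + a5_sum F₂ x) = E up + E (a5_sum F₂) := E_add up (a5_sum F₂)
    rw [h1]
    linarith
  · have : (0 : ℝ) ≤ s := Nat.cast_nonneg s
    linarith
  · refine (L1_add up (a5_sum F₂)).trans ?_
    have := a5_L1_sum F₂
    linarith

theorem atom_sand {s : ℕ} {η M : ℝ} (h : SmallAny s η M) (A D : Finset (Fin N)) (hD : D.card ≤ s) :
    Sand (η * pJ T A) (1 + M) (atm T A D) := by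
  classical
  obtain ⟨hη, hM⟩ := small_nonneg h
  set G : List (Term n) := D.toList.map T with hG
  have hor : ∀ x, Or G x ↔ ∃ i ∈ D, (T i).Sat x := by
    intro x
    unfold Or
    rw [hG]
    constructor
    · rintro ⟨t, ht, hx⟩
      rw [List.mem_map] at ht
      obtain ⟨i, hi, rfl⟩ := ht
      exact ⟨i, mem_toList.mp hi, hx⟩
    · rintro ⟨i, hi, hx⟩
      exact ⟨T i, List.mem_map.mpr ⟨i, mem_toList.mpr hi, rfl⟩, hx⟩
  have hatm : ∀ x, atm T A D x = (∏ j ∈ A, (T j).f x) * one (¬ Or G x) := by
    intro x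
    unfold atm
    congr 2
    apply propext
    rw [hor]
    push Not
    rfl
  have hfun : atm T A D = fun x => (∏ j ∈ A, (T j).f x) * one (¬ Or G x) := funext hatm
  rw [hfun]
  rcases prod_term T A with h0 | ⟨t, htS, hta, ht⟩
  · simp_rw [h0, zero_mul]
    refine (Sand.of_L1 (M := 0) ?_).mono (mul_nonneg hη (pJ_nonneg T A)) (by linarith)
    rw [L1_const, abs_zero]
  · have hpJ : pJ T A = E t.f := by
      unfold pJ
      exact congrArg E (funext ht)
    simp_rw [ht]
    have hlenG : (cutL t G).length ≤ s := by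
      refine (length_cutL t G).trans ?_
      rw [hG, List.length_map, length_toList]
      exact hD
    obtain ⟨lo, up, hlo, hup, hs, he, hl, hu⟩ :=
      (h n (cutL t G) hlenG).proj (on_cutL t G)
    have hval : ∀ x, t.f x * one (¬ Or G x) = t.f x * (1 - one (Or (cutL t G) x)) := by
      intro x
      by_cases hx : t.Sat x
      · rw [one_not]
        simp only [or_cutL G hx]
      · have : t.f x = 0 := one_false hx
        rw [this, zero_mul, zero_mul]
    have hf0 : ∀ x, 0 ≤ t.f x := fun x => one_nonneg _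
    refine ⟨fun x => t.f x * (1 - up x), fun x => t.f x * (1 - lo x), fun x => ⟨?_, ?_⟩, ?_, ?_, ?_⟩
    · change t.f x * (1 - up x) ≤ t.f x * one (¬ Or G x)
      rw [hval]
      exact mul_le_mul_of_nonneg_left (by linarith [(hs x).2]) (hf0 x)
    · change t.f x * one (¬ Or G x) ≤ t.f x * (1 - lo x)
      rw [hval]
      exact mul_le_mul_of_nonneg_left (by linarith [(hs x).1]) (hf0 x)
    · rw [← E_sub]
      have h1 : (fun x => t.f x * (1 - lo x) - t.f x * (1 - up x)) =
          fun x => t.f x * (up x - lo x) := by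
        funext x
        ring
      have hon : On t.Sᶜ (fun x => up x - lo x) := by
        intro x y hxy
        simp only
        rw [hup x y hxy, hlo x y hxy]
      rw [h1, E_indep (disjoint_compl_right) (on_term t) hon, E_sub, hpJ, mul_comm η]
      exact mul_le_mul_of_nonneg_left he (E_nonneg hf0)
    · refine (L1_mul _ _).trans ?_
      have h2 : L1 (fun x => 1 - up x) ≤ 1 + M := by
        refine (L1_sub (fun _ => 1) up).trans ?_
        rw [L1_const, abs_one]
        linarith
      calc L1 t.f * L1 (fun x => 1 - up x) ≤ 1 * (1 + M) :=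
            mul_le_mul (L1_term t) h2 (L1_nonneg _) zero_le_one
        _ = 1 + M := one_mul _
    · refine (L1_mul _ _).trans ?_
      have h2 : L1 (fun x => 1 - lo x) ≤ 1 + M := by
        refine (L1_sub (fun _ => 1) lo).trans ?_
        rw [L1_const, abs_one]
        linarith
      calc L1 t.f * L1 (fun x => 1 - lo x) ≤ 1 * (1 + M) :=
            mul_le_mul (L1_term t) h2 (L1_nonneg _) zero_le_one
        _ = 1 + M := one_mul _

/-- Perturbation. -/
theorem sand_pert {ε ε' M M' e : ℝ} {f g u : Cube n → ℝ} (hg : Sand ε M g) (hu : Sand ε' M' u)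
    (hE : E u ≤ e) (h : ∀ x, |f x - g x| ≤ u x) : Sand (ε + 2 * (e + ε')) (M + M') f := by
  obtain ⟨lo, up, hs, he, hl, hup⟩ := hg
  obtain ⟨lo', up', hs', he', hl', hup'⟩ := hu
  have h1 : E lo' ≤ E u := E_mono fun x => (hs' x).1
  refine ⟨fun x => lo x - up' x, fun x => up x + up' x, fun x => ⟨?_, ?_⟩, ?_, ?_, ?_⟩
  · change lo x - up' x ≤ f x
    have h2 := (abs_le.mp (h x)).1
    have h3 := (hs x).1
    have h4 := (hs' x).2
    linarith
  · change f x ≤ up x + up' x
    have h2 := (abs_le.mp (h x)).2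
    have h3 := (hs x).2
    have h4 := (hs' x).2
    linarith
  · have h5 : E (fun x => lo x - up' x) = E lo - E up' := E_sub lo up'
    have h6 : E (fun x => up x + up' x) = E up + E up' := E_add up up'
    rw [h5, h6]
    linarith
  · refine (L1_sub lo up').trans ?_
    linarith
  · refine (L1_add up up').trans ?_
    linarith

end Pool.Agent.MP_ca1109_lc.Dnf.L
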