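import Pool.Agent.MP_ca1109_lc.Dnf.L.Defs

/-!
# Lists of terms: expansion into atoms
-/

namespace Pool.Agent.MP_ca1109_lc.Dnf.L

open Finset

variable {n N : ℕ} {T : Fin N → Term n}

theorem a6_empty (x : Cube n) : atm T ∅ ∅ x = 1 := by
  unfold atm one
  rw [prod_empty, one_mul, if_pos]
  intro i hi
  exact absurd hi (notMem_empty i)

theorem a6_f_mul (t : Term n) (x : Cube n) : t.f x * t.f x = t.f x := by
  unfold Term.f one
  split_ifs <;> simp

open Classical in
theorem a6_insert (A D : Finset (Fin N)) (j : Fin N) (x : Cube n) :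
    atm T (insert j A) D x = (T j).f x * atm T A D x := by
  unfold atm
  rw [← mul_assoc]
  congr 1
  by_cases h : j ∈ A
  · rw [insert_eq_of_mem h, ← mul_prod_erase A (fun i => (T i).f x) h, ← mul_assoc, a6_f_mul]
  · rw [prod_insert h]

open Classical in
theorem a6_insert' (A D : Finset (Fin N)) (j : Fin N) (x : Cube n) :
    atm T A (insert j D) x = (1 - (T j).f x) * atm T A D x := by
  unfold atm
  rw [mul_left_comm]
  congr 1
  unfold Term.f
  by_cases h : (T j).Sat x
  · rw [one_false (fun h' : ∀ i ∈ insert j D, ¬ (T i).Sat x => h' j (mem_insert_self j D) h),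
      one_true h, sub_self, zero_mul]
  · rw [one_false h, sub_zero, one_mul]
    refine congrArg one (propext ⟨fun h' i hi => h' i (mem_insert_of_mem hi), fun h' i hi => ?_⟩)
    rcases mem_insert.1 hi with rfl | hi
    · exact h
    · exact h' i hi

open Classical in
theorem a6_mul (A D A' D' : Finset (Fin N)) (x : Cube n) :
    atm T (A ∪ A') (D ∪ D') x = atm T A D x * atm T A' D' x := by
  have h1 : ∀ B : Finset (Fin N), ∏ j ∈ B, (T j).f x = one (∀ j ∈ B, (T j).Sat x) := by
    intro B
    unfold Term.f one
    by_cases h : ∀ j ∈ B, (T j).Sat x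
    · rw [if_pos h]
      exact prod_eq_one fun j hj => if_pos (h j hj)
    · rw [if_neg h]
      push Not at h
      obtain ⟨j, hj, hx⟩ := h
      exact prod_eq_zero hj (if_neg hx)
  unfold atm
  rw [h1, h1, h1]
  unfold one
  by_cases a : ∀ j ∈ A, (T j).Sat x
  · by_cases b : ∀ j ∈ A', (T j).Sat x
    · have e1 : ∀ j ∈ A ∪ A', (T j).Sat x := fun j hj =>
        (mem_union.1 hj).elim (fun h => a j h) fun h => b j h
      rw [if_pos a, if_pos b, if_pos e1]
      by_cases c : ∀ i ∈ D, ¬ (T i).Sat x
      · by_cases d : ∀ i ∈ D', ¬ (T i).Sat x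
        · have e2 : ∀ i ∈ D ∪ D', ¬ (T i).Sat x := fun j hj =>
            (mem_union.1 hj).elim (fun h => c j h) fun h => d j h
          rw [if_pos c, if_pos d, if_pos e2]
          ring
        · rw [if_neg d, if_neg fun e2 => d fun i hi => e2 i (mem_union_right _ hi)]
          ring
      · rw [if_neg c, if_neg fun e2 => c fun i hi => e2 i (mem_union_left _ hi)]
        ring
    · rw [if_neg b, if_neg fun e2 => b fun i hi => e2 i (mem_union_right _ hi)]
      ring
  · rw [if_neg a, if_neg fun e2 => a fun i hi => e2 i (mem_union_left _ hi)]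
    ring

/-- The cube is divided by at most `B` atoms of terms in `A` so that `g` is constant on each. -/
def a6_Part (T : Fin N → Term n) (A : Finset (Fin N)) (B : ℕ) {α : Type} (g : Cube n → α) : Prop :=
  ∃ l : List (Finset (Fin N) × Finset (Fin N) × α), l.length ≤ B ∧
    (∀ p ∈ l, p.1 ⊆ A ∧ p.2.1 ⊆ A) ∧
    ∀ (G : α → ℝ) (x : Cube n), G (g x) = (l.map fun p => G p.2.2 * atm T p.1 p.2.1 x).sum

theorem a6_const (A : Finset (Fin N)) {α : Type} (s : α) : a6_Part T A 1 fun _ => s := by
  refine ⟨[(∅, ∅, s)], le_rfl, ?_, fun G x => ?_⟩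
  · intro p hp
    rw [List.mem_singleton] at hp
    subst hp
    exact ⟨empty_subset _, empty_subset _⟩
  · rw [List.map_singleton, List.sum_singleton, a6_empty, mul_one]

theorem a6_map {A : Finset (Fin N)} {B : ℕ} {α β : Type} {g : Cube n → α} (h : a6_Part T A B g)
    (φ : α → β) : a6_Part T A B fun x => φ (g x) := by
  obtain ⟨l, h1, h2, h3⟩ := h
  refine ⟨l.map fun p => (p.1, p.2.1, φ p.2.2), by rwa [List.length_map], ?_, fun G x => ?_⟩
  · intro p hp
    obtain ⟨q, hq, rfl⟩ := List.mem_map.1 hp
    exact h2 q hq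
  · rw [h3 (fun s => G (φ s)) x, List.map_map]
    rfl

theorem a6_mono {A : Finset (Fin N)} {B B' : ℕ} (hB : B ≤ B') {α : Type} {g : Cube n → α}
    (h : a6_Part T A B g) : a6_Part T A B' g := by
  obtain ⟨l, h1, h2, h3⟩ := h
  exact ⟨l, h1.trans hB, h2, h3⟩

theorem a6_sum_flatMap {α β : Type} (l : List α) (f : α → List β) (g : β → ℝ) :
    ((l.flatMap f).map g).sum = (l.map fun a => ((f a).map g).sum).sum := by
  induction l with
  | nil => rfl
  | cons a l ih => rw [List.flatMap_cons, List.map_append, List.sum_append, ih, List.map_cons,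
      List.sum_cons]

theorem a6_prod {A : Finset (Fin N)} {B B' : ℕ} {α β : Type} {g : Cube n → α} {g' : Cube n → β}
    (h : a6_Part T A B g) (h' : a6_Part T A B' g') : a6_Part T A (B * B') fun x => (g x, g' x) := by
  classical
  obtain ⟨l, h1, h2, h3⟩ := h
  obtain ⟨l', h1', h2', h3'⟩ := h'
  refine ⟨l.flatMap fun p => l'.map fun q => (p.1 ∪ q.1, p.2.1 ∪ q.2.1, (p.2.2, q.2.2)), ?_, ?_,
    fun G x => ?_⟩
  · rw [List.length_flatMap]
    simp only [List.length_map, List.map_const', List.sum_replicate, smul_eq_mul]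
    exact Nat.mul_le_mul h1 h1'
  · intro p hp
    obtain ⟨a, ha, hp⟩ := List.mem_flatMap.1 hp
    obtain ⟨b, hb, rfl⟩ := List.mem_map.1 hp
    exact ⟨union_subset (h2 a ha).1 (h2' b hb).1, union_subset (h2 a ha).2 (h2' b hb).2⟩
  · rw [h3 (fun s => G (s, g' x)) x, a6_sum_flatMap]
    congr 1
    refine List.map_congr_left fun p _ => ?_
    rw [h3' (fun s => G (p.2.2, s)) x, List.map_map, ← List.sum_map_mul_right]
    congr 1
    refine List.map_congr_left fun q _ => ?_
    show G (p.2.2, q.2.2) * atm T q.1 q.2.1 x * atm T p.1 p.2.1 x =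
      G (p.2.2, q.2.2) * atm T (p.1 ∪ q.1) (p.2.1 ∪ q.2.1) x
    rw [a6_mul]
    ring

open Classical in
theorem a6_list (A : Finset (Fin N)) (l : List (Fin N)) (hl : ∀ j ∈ l, j ∈ A) (m : ℕ) :
    a6_Part T A ((l.length + 1) ^ m) fun x => (l.filter fun j => decide ((T j).Sat x)).take m := by
  induction l generalizing m with
  | nil =>
    refine a6_mono (Nat.one_le_pow _ _ (by omega)) ?_
    have e : (fun x : Cube n => (([] : List (Fin N)).filter fun j => decide ((T j).Sat x)).take m) =
        fun _ => [] := by
      funext x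
      simp
    rw [e]
    exact a6_const A _
  | cons j l ih =>
    rcases m with - | m
    · refine a6_mono (Nat.one_le_pow _ _ (by omega)) ?_
      exact a6_const A _
    · have hl' : ∀ i ∈ l, i ∈ A := fun i hi => hl i (List.mem_cons_of_mem _ hi)
      have hj : j ∈ A := hl j List.mem_cons_self
      obtain ⟨l₁, h1, h2, h3⟩ := ih hl' m
      obtain ⟨l₂, k1, k2, k3⟩ := ih hl' (m + 1)
      refine ⟨(l₁.map fun p => (insert j p.1, p.2.1, j :: p.2.2)) ++
        l₂.map fun p => (p.1, insert j p.2.1, p.2.2), ?_, ?_, fun G x => ?_⟩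
      · rw [List.length_append, List.length_map, List.length_map, List.length_cons]
        calc l₁.length + l₂.length ≤ (l.length + 1) ^ m + (l.length + 1) ^ (m + 1) :=
              Nat.add_le_add h1 k1
          _ = (l.length + 1) ^ m * (l.length + 1 + 1) := by ring
          _ ≤ (l.length + 1 + 1) ^ m * (l.length + 1 + 1) :=
              Nat.mul_le_mul_right _ (Nat.pow_le_pow_left (by omega) m)
          _ = (l.length + 1 + 1) ^ (m + 1) := by ring
      · intro p hp
        rcases List.mem_append.1 hp with hp | hp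
        · obtain ⟨q, hq, rfl⟩ := List.mem_map.1 hp
          exact ⟨insert_subset hj (h2 q hq).1, (h2 q hq).2⟩
        · obtain ⟨q, hq, rfl⟩ := List.mem_map.1 hp
          exact ⟨(k2 q hq).1, insert_subset hj (k2 q hq).2⟩
      · rw [List.map_append, List.sum_append, List.map_map, List.map_map]
        have e1 : (l₁.map ((fun p : Finset (Fin N) × Finset (Fin N) × List (Fin N) =>
            G p.2.2 * atm T p.1 p.2.1 x) ∘ fun p => (insert j p.1, p.2.1, j :: p.2.2))).sum =
            (T j).f x * G (j :: (l.filter fun j => decide ((T j).Sat x)).take m) := by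
          rw [h3 (fun s => G (j :: s)) x, ← List.sum_map_mul_left]
          congr 1
          refine List.map_congr_left fun p _ => ?_
          show G (j :: p.2.2) * atm T (insert j p.1) p.2.1 x = _
          rw [a6_insert]
          ring
        have e2 : (l₂.map ((fun p : Finset (Fin N) × Finset (Fin N) × List (Fin N) =>
            G p.2.2 * atm T p.1 p.2.1 x) ∘ fun p => (p.1, insert j p.2.1, p.2.2))).sum =
            (1 - (T j).f x) * G ((l.filter fun j => decide ((T j).Sat x)).take (m + 1)) := by
          rw [k3 G x, ← List.sum_map_mul_left]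
          congr 1
          refine List.map_congr_left fun p _ => ?_
          show G p.2.2 * atm T p.1 (insert j p.2.1) x = _
          rw [a6_insert']
          ring
        rw [e1, e2]
        show G (((j :: l).filter fun j => decide ((T j).Sat x)).take (m + 1)) = _
        by_cases h : (T j).Sat x
        · have e3 : (T j).f x = 1 := one_true h
          rw [List.filter_cons_of_pos (by simpa using h), List.take_succ_cons, e3]
          ring
        · have e3 : (T j).f x = 0 := one_false h
          rw [List.filter_cons_of_neg (by simpa using h), e3]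
          ring

theorem a6_firstIn (A : Finset (Fin N)) (m : ℕ) (l : List (Fin N)) (hl : l.Nodup) :
    a6_Part T A ((A.card + 1) ^ m) (firstIn m T A l) := by
  classical
  have h1 := a6_list (T := T) A (l.filter fun j => decide (j ∈ A))
    (fun j hj => by simpa using (List.mem_filter.1 hj).2) m
  have hlen : (l.filter fun j => decide (j ∈ A)).length ≤ A.card := by
    rw [← List.toFinset_card_of_nodup (hl.filter _)]
    refine card_le_card fun j hj => ?_
    simpa using (List.mem_filter.1 (List.mem_toFinset.1 hj)).2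
  have e : firstIn m T A l =
      fun x => ((l.filter fun j => decide (j ∈ A)).filter fun j => decide ((T j).Sat x)).take m := by
    funext x
    unfold firstIn
    rw [List.filter_filter]
    congr 2
    funext j
    rw [Bool.eq_iff_iff]
    simp [and_comm]
  rw [e]
  exact a6_mono (Nat.pow_le_pow_left (by omega) m) h1

theorem a6_lists (A : Finset (Fin N)) (k m : ℕ) (L : Fin k → List (Fin N))
    (hL : ∀ l, (L l).Nodup) :
    a6_Part T A ((A.card + 1) ^ (k * m)) fun x => fun l => firstIn m T A (L l) x := by
  induction k with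
  | zero =>
    rw [zero_mul, pow_zero]
    have e : (fun x : Cube n => fun l => firstIn m T A (L l) x) = fun _ => L := by
      funext x l
      exact l.elim0
    rw [e]
    exact a6_const A L
  | succ k ih =>
    have h1 := a6_prod (a6_firstIn (T := T) A m (L 0) (hL 0)) (ih (fun l => L l.succ) fun l => hL _)
    have h2 := a6_map h1 fun p => (Fin.cons p.1 p.2 : Fin (k + 1) → List (Fin N))
    have e : (fun x : Cube n => fun l => firstIn m T A (L l) x) = fun x =>
        (Fin.cons (firstIn m T A (L 0) x) (fun l => firstIn m T A (L l.succ) x) :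
          Fin (k + 1) → List (Fin N)) := by
      funext x l
      refine Fin.cases ?_ (fun i => ?_) l
      · rfl
      · rfl
    rw [e]
    refine a6_mono (le_of_eq ?_) h2
    rw [← pow_add]
    congr 1
    ring

theorem atomic_firstIn (A : Finset (Fin N)) (k m : ℕ) (L : Fin k → List (Fin N)) (hL : ∀ l, (L l).Nodup)
    (F : (Fin k → List (Fin N)) → ℝ) (hF : ∀ s, 0 ≤ F s ∧ F s ≤ 1) :
    Atomic T A ((A.card + 1) ^ (k * m)) (fun x => F fun l => firstIn m T A (L l) x) := by
  obtain ⟨l, h1, h2, h3⟩ := a6_lists (T := T) A k m L hL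
  refine ⟨l.length, fun a => F (l.get a).2.2, fun a => (l.get a).1, fun a => (l.get a).2.1, h1,
    fun a => ⟨?_, h2 _ (l.get_mem a)⟩, fun x => ?_⟩
  · rw [abs_of_nonneg (hF _).1]
    exact (hF _).2
  · exact (h3 F x).trans
      (Fin.sum_univ_fun_getElem l fun p => F p.2.2 * atm T p.1 p.2.1 x).symm

end Pool.Agent.MP_ca1109_lc.Dnf.L
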