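import Pool.Agent.MP_ca1109_lc.Dnf.L.A7
import Pool.Agent.MP_ca1109_lc.Dnf.L.A6
import Pool.Agent.MP_ca1109_lc.Dnf.L.A5

/-!
# Lists of terms: the bounded case
-/

namespace Pool.Agent.MP_ca1109_lc.Dnf.L

open Finset

variable {n N : ℕ} {T : Fin N → Term n} {q w₀ h W M : ℕ} {δ : ℝ}

/- ROW A8.  PROOF.
* `prod_Z_atm`: `∏_{j ∈ J'} Z_j = atm T J' D`, `D = {i ∈ P | ∃ j ∈ J', Hv i j}`, `|D| ≤ |J'| h` (`before`).
* `piece`: `∏_{J'} Z_j * f` with `f` atomic on `area J` (`B` atoms) is a combination of `B` atoms `atm (J' ∪ P_a) (D ∪ D_a)`, each `Sand (η pJ (J' ∪ P_a)) (1 + M')`, `pJ (J' ∪ P_a) ≤ pJ J'`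
  (`pJ_le`), `|D ∪ D_a| ≤ s`.  If `J'` has a heavy pair the product is 0 (`prod_Z_zero`): error 0.
* `bounded`: `expand`, `sand_pert` with `g` = the double sum, `u` = the right side of `expand`.
  error of `g`: `∑_{J', NoHv} 2^M B η pJ J' ≤ 2^M B η (M+1) (l+δ+1)^M` (`sum_sets`); norm: at most `(N+1)^(M+1)` sets `J'` (`|J'| ≤ M`), `2^M` sets `J`, `B` atoms, `1 + M'`.
  `u`: `bad` (`Sand.of_L1`, `L1_bad`, `E_bad`), and `3^(M+1) ∑_{|J'| = M+1} ∏ Z`: error `3^(M+1) η (l+δ)^(M+1)`, average `≤ 3^(M+1) (μ^(M+1)/(M+1)! + δ (l+δ)^M)` (`moment_bound`). -/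

theorem a8_prod_one {ι : Type*} (J : Finset ι) (p : ι → Prop) :
    ∏ j ∈ J, one (p j) = one (∀ j ∈ J, p j) := by
  classical
  induction J using Finset.induction_on with
  | empty => rw [prod_empty, one_true (by simp)]
  | insert a J ha ih =>
    rw [prod_insert ha, ih, ← one_and]
    congr 1
    exact propext (by simp)

theorem a8_atm (T : Fin N → Term n) (A D : Finset (Fin N)) (x : Cube n) :
    atm T A D x = one ((∀ j ∈ A, (T j).Sat x) ∧ ∀ i ∈ D, ¬ (T i).Sat x) := by
  unfold atm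
  have h : ∏ j ∈ A, (T j).f x = one (∀ j ∈ A, (T j).Sat x) := a8_prod_one A fun j => (T j).Sat x
  rw [h, ← one_and]

theorem a8_atm_mul (T : Fin N → Term n) (A D A' D' : Finset (Fin N)) (x : Cube n) :
    atm T A D x * atm T A' D' x = atm T (A ∪ A') (D ∪ D') x := by
  rw [a8_atm, a8_atm, a8_atm, ← one_and]
  congr 1
  apply propext
  simp only [mem_union]
  constructor
  · rintro ⟨⟨h1, h2⟩, h3, h4⟩
    exact ⟨fun j hj => hj.elim (h1 j) (h3 j), fun j hj => hj.elim (h2 j) (h4 j)⟩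
  · rintro ⟨h1, h2⟩
    exact ⟨⟨fun j hj => h1 j (.inl hj), fun j hj => h2 j (.inl hj)⟩,
      fun j hj => h1 j (.inr hj), fun j hj => h2 j (.inr hj)⟩

theorem prod_Z_atm (hT : Good q w₀ h W M δ T) (P J : Finset (Fin N)) (hJ : J ⊆ wid w₀ T P) :
    ∃ D : Finset (Fin N), D ⊆ P ∧ D.card ≤ J.card * h ∧ ∀ x, ∏ j ∈ J, Z q w₀ T P j x = atm T J D x := by
  classical
  refine ⟨P.filter fun i => ∃ j ∈ J, Hv q w₀ T i j, filter_subset _ _, ?_, fun x => ?_⟩
  · refine (card_le_card (t := J.biUnion fun j => univ.filter fun i => Hv q w₀ T i j)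
      fun i hi => ?_).trans (card_biUnion_le_card_mul J _ h fun j _ => by convert hT.before j)
    obtain ⟨-, j, hj, hij⟩ := mem_filter.1 hi
    exact mem_biUnion.2 ⟨j, hj, mem_filter.2 ⟨mem_univ _, hij⟩⟩
  · rw [a8_atm]
    have h0 : ∏ j ∈ J, Z q w₀ T P j x = one (∀ j ∈ J, ZP q w₀ T P j x) := a8_prod_one J _
    rw [h0]
    congr 1
    apply propext
    constructor
    · intro H
      refine ⟨fun j hj => (H j hj).1, fun i hi => ?_⟩
      obtain ⟨hiP, j, hj, hij⟩ := mem_filter.1 hi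
      exact (H j hj).2 i hiP hij
    · intro H j hj
      exact ⟨H.1 j hj, fun i hi hij => H.2 i (mem_filter.2 ⟨hi, j, hj, hij⟩)⟩

theorem piece (hT : Good q w₀ h W M δ T) {s B : ℕ} {η M' : ℝ} (hs : SmallAny s η M') (P A J' : Finset (Fin N))
    (hJ' : J' ⊆ wid w₀ T P) (hc : A.card + J'.card * h ≤ s) {f : Cube n → ℝ} (hf : Atomic T A B f) :
    Sand (B * (η * pJ T J')) (B * (1 + M')) (fun x => (∏ j ∈ J', Z q w₀ T P j x) * f x) := by
  classical
  obtain ⟨hη, hM'⟩ := small_nonneg hs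
  obtain ⟨D, -, hD, hZ⟩ := prod_Z_atm hT P J' hJ'
  obtain ⟨m, c, Pa, Da, hm, hc', hf'⟩ := hf
  have h1 : ∀ a ∈ (univ : Finset (Fin m)), Sand (η * pJ T J') (1 + M')
      (fun x => c a * atm T (J' ∪ Pa a) (D ∪ Da a) x) := by
    intro a _
    obtain ⟨ha1, -, ha3⟩ := hc' a
    have hcard : (D ∪ Da a).card ≤ s := by
      have h2 := card_union_le D (Da a)
      have h3 := card_le_card ha3
      omega
    refine ((atom_sand (T := T) hs (J' ∪ Pa a) (D ∪ Da a) hcard).smul (c a)).mono ?_ ?_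
    · calc |c a| * (η * pJ T (J' ∪ Pa a)) ≤ 1 * (η * pJ T J') :=
            mul_le_mul ha1 (mul_le_mul_of_nonneg_left (pJ_le T subset_union_left) hη)
              (mul_nonneg hη (pJ_nonneg T _)) zero_le_one
        _ = _ := one_mul _
    · calc |c a| * (1 + M') ≤ 1 * (1 + M') := mul_le_mul_of_nonneg_right ha1 (by linarith)
        _ = _ := one_mul _
  have h3 := Sand.sum univ h1
  simp only [sum_const, card_univ, Fintype.card_fin, nsmul_eq_mul] at h3
  have hmB : (m : ℝ) ≤ B := by exact_mod_cast hm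
  refine (h3.congr fun x => ?_).mono ?_ ?_
  · rw [hZ x, hf' x, mul_sum]
    refine sum_congr rfl fun a _ => ?_
    rw [← a8_atm_mul]
    ring
  · exact mul_le_mul_of_nonneg_right hmB (mul_nonneg hη (pJ_nonneg T _))
  · exact mul_le_mul_of_nonneg_right hmB (by linarith)

theorem a8_geom (N M : ℕ) : ∑ i ∈ range (M + 1), (N : ℝ) ^ i ≤ ((N : ℝ) + 1) ^ M := by
  have hN : (0 : ℝ) ≤ N := Nat.cast_nonneg N
  induction M with
  | zero => simp
  | succ M ih =>
    rw [sum_range_succ]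
    have h1 : (N : ℝ) ^ (M + 1) ≤ N * ((N : ℝ) + 1) ^ M := by
      rw [pow_succ']
      exact mul_le_mul_of_nonneg_left (pow_le_pow_left₀ hN (by linarith) M) hN
    calc _ ≤ ((N : ℝ) + 1) ^ M + N * ((N : ℝ) + 1) ^ M := add_le_add ih h1
      _ = _ := by ring

/-- Sets of at most `M` elements, sorted by their size. -/
theorem a8_sort (S : Finset (Fin N)) (M : ℕ) (g : Finset (Fin N) → ℝ) :
    ∑ J ∈ S.powerset.filter (fun J => J.card ≤ M), g J =
      ∑ i ∈ range (M + 1), ∑ J ∈ powersetCard i S, g J := by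
  classical
  rw [← sum_fiberwise_of_maps_to (s := S.powerset.filter fun J => J.card ≤ M) (t := range (M + 1))
    (g := fun J => J.card) (fun J hJ => mem_range.2 (by have := (mem_filter.1 hJ).2; omega))]
  refine sum_congr rfl fun i hi => ?_
  refine sum_congr ?_ fun _ _ => rfl
  ext J
  rw [mem_filter, mem_filter, mem_powerset, mem_powersetCard]
  have := mem_range.1 hi
  constructor
  · rintro ⟨⟨h1, -⟩, h3⟩
    exact ⟨h1, h3⟩
  · rintro ⟨h1, h3⟩
    exact ⟨⟨h1, by omega⟩, h3⟩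

theorem a8_card_le (S : Finset (Fin N)) (i : ℕ) : ((powersetCard i S).card : ℝ) ≤ (N : ℝ) ^ i := by
  rw [card_powersetCard]
  have h1 : S.card ≤ N := by
    have := card_le_univ S
    rwa [Fintype.card_fin] at this
  have h2 : S.card.choose i ≤ N ^ i := (Nat.choose_le_choose i h1).trans (Nat.choose_le_pow N i)
  exact_mod_cast h2

theorem bounded (hT : Good q w₀ h W M δ T) {s s₀ k m : ℕ} {η M' l Λ : ℝ} (hs : SmallAny s η M')
    (hs1 : s₀ + M * (1 + h) + (M + 1) * h ≤ s) (P : Finset (Fin N)) (hnar : (nar w₀ T P).card ≤ s₀)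
    (hlam : lam w₀ T P ≤ l) (hmu : mu q w₀ T P ≤ Λ)
    (L : Fin k → List (Fin N)) (hL : ∀ l, (L l).Nodup) (hLP : ∀ l, ∀ j ∈ L l, j ∈ P)
    (F : (Fin k → List (Fin N)) → ℝ) (hF : ∀ s, 0 ≤ F s ∧ F s ≤ 1) :
    Sand (err (k * m) M s h w₀ η δ l Λ) (nrm (k * m) M s N M')
      (fun x => F fun l => first m T (L l) x) := by
  classical
  obtain ⟨hη, hM'⟩ := small_nonneg hs
  have hδ := hT.δ0
  have hlam0 : 0 ≤ lam w₀ T P := lam_nonneg P
  have hmu0 : 0 ≤ mu q w₀ T P := mu_nonneg P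
  have hl0 : 0 ≤ l := hlam0.trans hlam
  have hN0 : (0 : ℝ) ≤ N := Nat.cast_nonneg N
  set K : ℝ := ((s : ℝ) + 1) ^ (k * m) with hK
  have hK0 : 0 ≤ K := by positivity
  -- one set of leaders
  have hg1 : ∀ J' ∈ (wid w₀ T P).powerset.filter (fun J' => J'.card ≤ M), ∀ J ∈ J'.powerset,
      Sand (if NoHv q w₀ T J' then K * (η * pJ T J') else 0) (K * (1 + M'))
        (fun x => (-1 : ℝ) ^ (J'.card - J.card) *
          ((∏ j ∈ J', Z q w₀ T P j x) * F fun l => firstIn m T (area q w₀ T P J) (L l) x)) := by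
    intro J' hJ' J hJ
    obtain ⟨hJ'1, hJ'2⟩ := mem_filter.1 hJ'
    rw [mem_powerset] at hJ'1 hJ
    have hJc : J.card ≤ M := (card_le_card hJ).trans hJ'2
    have ha : (area q w₀ T P J).card ≤ s₀ + M * (1 + h) :=
      (area_card hT P J).trans (add_le_add hnar (Nat.mul_le_mul_right _ hJc))
    have hb : J'.card * h ≤ (M + 1) * h := Nat.mul_le_mul_right _ (by omega)
    have h1 := piece hT hs P (area q w₀ T P J) J' hJ'1 (by omega)
      (atomic_firstIn (T := T) (area q w₀ T P J) k m L hL F hF)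
    have h2 : ((((area q w₀ T P J).card + 1) ^ (k * m) : ℕ) : ℝ) ≤ K := by
      push_cast
      rw [hK]
      refine pow_le_pow_left₀ (by positivity) ?_ _
      have : (area q w₀ T P J).card ≤ s := by omega
      have : ((area q w₀ T P J).card : ℝ) ≤ s := by exact_mod_cast this
      linarith
    have hsg : |(-1 : ℝ) ^ (J'.card - J.card)| = 1 := by rw [abs_pow, abs_neg, abs_one, one_pow]
    split_ifs with hN
    · refine (h1.smul ((-1 : ℝ) ^ (J'.card - J.card))).mono ?_ ?_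
      · rw [hsg, one_mul]
        exact mul_le_mul_of_nonneg_right h2 (mul_nonneg hη (pJ_nonneg T _))
      · rw [hsg, one_mul]
        exact mul_le_mul_of_nonneg_right h2 (by linarith)
    · have h3 : Sand 0 0 (fun _ : Cube n => (0 : ℝ)) :=
        Sand.of_L1 (by rw [L1_const, abs_zero])
      refine (h3.congr fun x => ?_).mono le_rfl (mul_nonneg hK0 (by linarith))
      rw [prod_Z_zero (hJ'1.trans (filter_subset _ _)) hN x]
      ring
  have hg2 : ∀ J' ∈ (wid w₀ T P).powerset.filter (fun J' => J'.card ≤ M),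
      Sand (if NoHv q w₀ T J' then 2 ^ M * K * η * pJ T J' else 0) (2 ^ M * K * (1 + M'))
        (fun x => ∑ J ∈ J'.powerset, (-1 : ℝ) ^ (J'.card - J.card) *
          ((∏ j ∈ J', Z q w₀ T P j x) * F fun l => firstIn m T (area q w₀ T P J) (L l) x)) := by
    intro J' hJ'
    have h1 := Sand.sum J'.powerset (hg1 J' hJ')
    simp only [sum_const, card_powerset, nsmul_eq_mul] at h1
    have h2 : ((2 ^ J'.card : ℕ) : ℝ) ≤ 2 ^ M := by
      push_cast
      exact pow_le_pow_right₀ (by norm_num) (mem_filter.1 hJ').2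
    refine h1.mono ?_ ?_
    · split_ifs
      · calc ((2 ^ J'.card : ℕ) : ℝ) * (K * (η * pJ T J')) ≤ 2 ^ M * (K * (η * pJ T J')) :=
              mul_le_mul_of_nonneg_right h2 (mul_nonneg hK0 (mul_nonneg hη (pJ_nonneg T _)))
          _ = _ := by ring
      · rw [mul_zero]
    · calc ((2 ^ J'.card : ℕ) : ℝ) * (K * (1 + M')) ≤ 2 ^ M * (K * (1 + M')) :=
            mul_le_mul_of_nonneg_right h2 (mul_nonneg hK0 (by linarith))
        _ = _ := by ring
  have hg := Sand.sum _ hg2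
  -- the sum over the sets of leaders
  have hsum : ∀ i ≤ M + 1, ∑ J' ∈ powersetCard i (wid w₀ T P),
      (if NoHv q w₀ T J' then pJ T J' else 0) ≤ (l + δ) ^ i := by
    intro i hi
    rw [← sum_filter]
    refine (le_trans (le_of_eq ?_) (sum_sets hT P i hi)).trans
      (pow_le_pow_left₀ (by linarith) (by linarith) i)
    exact sum_congr (by congr) fun _ _ => rfl
  have hgε : ∑ J' ∈ (wid w₀ T P).powerset.filter (fun J' => J'.card ≤ M),
      (if NoHv q w₀ T J' then 2 ^ M * K * η * pJ T J' else 0) ≤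
        (M + 1) * 2 ^ M * K * η * (l + δ + 1) ^ M := by
    rw [a8_sort]
    have h1 : ∀ i ∈ range (M + 1), ∑ J' ∈ powersetCard i (wid w₀ T P),
        (if NoHv q w₀ T J' then 2 ^ M * K * η * pJ T J' else 0) ≤
          2 ^ M * K * η * (l + δ + 1) ^ M := by
      intro i hi
      have hi' := mem_range.1 hi
      have h2 : ∀ J' ∈ powersetCard i (wid w₀ T P),
          (if NoHv q w₀ T J' then 2 ^ M * K * η * pJ T J' else 0) =
            2 ^ M * K * η * (if NoHv q w₀ T J' then pJ T J' else 0) := by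
        intro J' _
        split_ifs
        · rfl
        · rw [mul_zero]
      rw [sum_congr rfl h2, ← mul_sum]
      refine mul_le_mul_of_nonneg_left ?_ (by positivity)
      refine (hsum i (by omega)).trans ?_
      calc (l + δ) ^ i ≤ (l + δ + 1) ^ i := pow_le_pow_left₀ (by linarith) (by linarith) i
        _ ≤ (l + δ + 1) ^ M := pow_le_pow_right₀ (by linarith) (by omega)
    refine (sum_le_sum h1).trans (le_of_eq ?_)
    rw [sum_const, card_range, nsmul_eq_mul]
    push_cast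
    ring
  have hgM : ∑ J' ∈ (wid w₀ T P).powerset.filter (fun J' => J'.card ≤ M),
      (2 ^ M * K * (1 + M')) ≤ ((N : ℝ) + 1) ^ (M + 1) * (2 ^ M * K * (1 + M')) := by
    rw [sum_const, nsmul_eq_mul]
    refine mul_le_mul_of_nonneg_right ?_ (by positivity)
    have h1 := a8_sort (wid w₀ T P) M fun _ => (1 : ℝ)
    simp only [sum_const, nsmul_eq_mul, mul_one] at h1
    rw [h1]
    refine ((sum_le_sum fun i _ => a8_card_le (wid w₀ T P) i).trans (a8_geom N M)).trans ?_
    exact pow_le_pow_right₀ (by linarith) (by omega)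
  have hg' := hg.mono hgε hgM
  -- the error
  have hu1 : ∀ J' ∈ powersetCard (M + 1) (wid w₀ T P),
      Sand (if NoHv q w₀ T J' then η * pJ T J' else 0) (1 + M')
        (fun x => ∏ j ∈ J', Z q w₀ T P j x) := by
    intro J' hJ'
    obtain ⟨hJ'1, hJ'2⟩ := mem_powersetCard.1 hJ'
    split_ifs with hN
    · obtain ⟨D, -, hD, hZ⟩ := prod_Z_atm hT P J' hJ'1
      rw [hJ'2] at hD
      exact (atom_sand (T := T) hs J' D (by omega)).congr fun x => (hZ x).symm
    · have h3 : Sand 0 0 (fun _ : Cube n => (0 : ℝ)) :=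
        Sand.of_L1 (by rw [L1_const, abs_zero])
      refine (h3.congr fun x => ?_).mono le_rfl (by linarith)
      rw [prod_Z_zero (hJ'1.trans (filter_subset _ _)) hN x]
  have hu2 := Sand.sum _ hu1
  have hu3 := (hu2.smul (3 ^ (M + 1)))
  have hu4 : Sand 0 ((N : ℝ) ^ 2) (bad q w₀ T P) := Sand.of_L1 (L1_bad P)
  have h3pos : (0 : ℝ) ≤ 3 ^ (M + 1) := by positivity
  have hu5 := (hu4.add hu3).mono (ε' := 3 ^ (M + 1) * (η * (l + δ) ^ (M + 1)))
    (M' := (N : ℝ) ^ 2 + 3 ^ (M + 1) * ((N : ℝ) + 1) ^ (M + 1) * (1 + M')) (by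
      rw [zero_add, abs_of_nonneg h3pos]
      refine mul_le_mul_of_nonneg_left ?_ h3pos
      have h2 : ∀ J' ∈ powersetCard (M + 1) (wid w₀ T P),
          (if NoHv q w₀ T J' then η * pJ T J' else 0) =
            η * (if NoHv q w₀ T J' then pJ T J' else 0) := by
        intro J' _
        split_ifs
        · rfl
        · rw [mul_zero]
      rw [sum_congr rfl h2, ← mul_sum]
      exact mul_le_mul_of_nonneg_left (hsum (M + 1) le_rfl) hη) (by
      rw [abs_of_nonneg h3pos, sum_const, nsmul_eq_mul, mul_assoc]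
      refine add_le_add le_rfl (mul_le_mul_of_nonneg_left ?_ h3pos)
      refine mul_le_mul_of_nonneg_right ?_ (by linarith)
      exact (a8_card_le _ _).trans (pow_le_pow_left₀ hN0 (by linarith) _))
  have hE : E (fun x => bad q w₀ T P x +
      3 ^ (M + 1) * ∑ J' ∈ powersetCard (M + 1) (wid w₀ T P), ∏ j ∈ J', Z q w₀ T P j x) ≤
        l * (h * h) * (1 / 2) ^ (w₀ / 2) +
          3 ^ (M + 1) * (Λ ^ (M + 1) / (M + 1).factorial + δ * (l + δ) ^ M) := by
    rw [E_add, E_smul, E_sum]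
    refine add_le_add ((E_bad hT P).trans ?_) (mul_le_mul_of_nonneg_left
      ((moment_bound hT P M le_rfl).trans ?_) h3pos)
    · exact mul_le_mul_of_nonneg_right (mul_le_mul_of_nonneg_right hlam (by positivity))
        (by positivity)
    · refine add_le_add ?_ (mul_le_mul_of_nonneg_left ?_ hδ)
      · exact div_le_div_of_nonneg_right (pow_le_pow_left₀ hmu0 hmu _) (by positivity)
      · exact pow_le_pow_left₀ (by linarith) (by linarith) _
  have hfin := sand_pert (f := fun x => F fun l => first m T (L l) x) hg' hu5 hE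
    (fun x => expand hT P m L hLP F hF x)
  refine hfin.mono (le_of_eq (by unfold err; ring)) (le_of_eq (by unfold nrm; ring))

end Pool.Agent.MP_ca1109_lc.Dnf.L
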