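import Pool.Agent.MP_ca1109_lc.Dnf.L.A10
import Pool.Agent.MP_ca1109_lc.Dnf.L.A8

/-!
# Lists of terms: the theorem with parameters
-/

namespace Pool.Agent.MP_ca1109_lc.Dnf.L

open Finset

variable {n N : ℕ} {T : Fin N → Term n} {q w₀ h W M r : ℕ} {δ γ : ℝ}

/- ROW A11.  PROOF.
* `first_take`: if at least `m` terms of `(L.take p)` are true, `first m T L x = first m T (L.take p) x`.
* `few_first`: for `L` without repetitions `few m T L.toFinset x = one ((first m T L x).length < m)`.
* `finite2`: `exists_prefix` for every list: `p l`, `L' l = (L l).take (p l)`, `P l`, `P = ⋃ P l`.  `f' = F (first of L')`: `bounded` for `P` with `k (s₀+1)`, `k (l+1)`, `k (Λ+1)`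
  (`nar_union` ...).  `|f - f'| ≤ u = ∑_{l, p l < length} few m T (P l)`; `few` is a function of one list: `bounded` for `P l` (`k = 1`; `err`, `nrm` are monotone in `km`, `l`, `Λ`):
  `Sand (k err) (k nrm) u`, `E u ≤ k * 8/Λ`.  `sand_pert`: `err + 2 (8k/Λ + k err)`. -/

theorem a11_err_mono {km km' M s h w₀ : ℕ} {η δ l l' Λ Λ' : ℝ} (hk : km ≤ km') (hη : 0 ≤ η)
    (hδ : 0 ≤ δ) (hl : 0 ≤ l) (hl' : l ≤ l') (hΛ : 0 ≤ Λ) (hΛ' : Λ ≤ Λ') :
    err km M s h w₀ η δ l Λ ≤ err km' M s h w₀ η δ l' Λ' := by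
  have h1 : (1 : ℝ) ≤ (s : ℝ) + 1 := by linarith [(Nat.cast_nonneg s : (0 : ℝ) ≤ s)]
  have h2 : ((s : ℝ) + 1) ^ km ≤ ((s : ℝ) + 1) ^ km' := pow_le_pow_right₀ h1 hk
  have hll : 0 ≤ l' := hl.trans hl'
  have hΛΛ : 0 ≤ Λ' := hΛ.trans hΛ'
  have h3 : (l + δ + 1) ^ M ≤ (l' + δ + 1) ^ M := pow_le_pow_left₀ (by linarith) (by linarith) M
  have h4 : (l + δ) ^ M ≤ (l' + δ) ^ M := pow_le_pow_left₀ (by linarith) (by linarith) M
  have h5 : (l + δ) ^ (M + 1) ≤ (l' + δ) ^ (M + 1) :=
    pow_le_pow_left₀ (by linarith) (by linarith) (M + 1)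
  have h6 : Λ ^ (M + 1) / (M + 1).factorial ≤ Λ' ^ (M + 1) / (M + 1).factorial :=
    div_le_div_of_nonneg_right (pow_le_pow_left₀ hΛ hΛ' _) (Nat.cast_nonneg _)
  have e1 : ((M : ℝ) + 1) * 2 ^ M * (s + 1) ^ km * η * (l + δ + 1) ^ M ≤
      (M + 1) * 2 ^ M * (s + 1) ^ km' * η * (l' + δ + 1) ^ M := by
    refine mul_le_mul ?_ h3 (pow_nonneg (by linarith) M) (by positivity)
    refine mul_le_mul_of_nonneg_right ?_ hη
    exact mul_le_mul_of_nonneg_left h2 (by positivity)
  have e2 : l * ((h : ℝ) * h) * (1 / 2) ^ (w₀ / 2) ≤ l' * (h * h) * (1 / 2) ^ (w₀ / 2) := by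
    refine mul_le_mul_of_nonneg_right ?_ (by positivity)
    exact mul_le_mul_of_nonneg_right hl' (by positivity)
  have e3 : δ * (l + δ) ^ M ≤ δ * (l' + δ) ^ M := mul_le_mul_of_nonneg_left h4 hδ
  have e4 : η * (l + δ) ^ (M + 1) ≤ η * (l' + δ) ^ (M + 1) := mul_le_mul_of_nonneg_left h5 hη
  have e5 : (3 : ℝ) ^ (M + 1) * (Λ ^ (M + 1) / (M + 1).factorial + δ * (l + δ) ^ M +
      η * (l + δ) ^ (M + 1)) ≤ 3 ^ (M + 1) * (Λ' ^ (M + 1) / (M + 1).factorial +
      δ * (l' + δ) ^ M + η * (l' + δ) ^ (M + 1)) :=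
    mul_le_mul_of_nonneg_left (by linarith) (by positivity)
  unfold err
  linarith

theorem a11_nrm_mono {km km' M s N : ℕ} {M' : ℝ} (hk : km ≤ km') (hM : 0 ≤ M') :
    nrm km M s N M' ≤ nrm km' M s N M' := by
  have h1 : (1 : ℝ) ≤ (s : ℝ) + 1 := by linarith [(Nat.cast_nonneg s : (0 : ℝ) ≤ s)]
  have h2 : ((s : ℝ) + 1) ^ km ≤ ((s : ℝ) + 1) ^ km' := pow_le_pow_right₀ h1 hk
  have e1 : ((N : ℝ) + 1) ^ (M + 1) * (2 ^ M * (s + 1) ^ km * (1 + M')) ≤
      ((N : ℝ) + 1) ^ (M + 1) * (2 ^ M * (s + 1) ^ km' * (1 + M')) := by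
    refine mul_le_mul_of_nonneg_left ?_ (by positivity)
    refine mul_le_mul_of_nonneg_right ?_ (by linarith)
    exact mul_le_mul_of_nonneg_left h2 (by positivity)
  unfold nrm
  linarith

theorem a11_err_nonneg {km M s h w₀ : ℕ} {η δ l Λ : ℝ} (hη : 0 ≤ η) (hδ : 0 ≤ δ) (hl : 0 ≤ l)
    (hΛ : 0 ≤ Λ) : 0 ≤ err km M s h w₀ η δ l Λ := by
  unfold err
  positivity

theorem a11_nrm_nonneg {km M s N : ℕ} {M' : ℝ} (hM : 0 ≤ M') : 0 ≤ nrm km M s N M' := by
  unfold nrm
  positivity

theorem a11_few {m : ℕ} {L : List (Fin N)} (hL : L.Nodup) (x : Cube n) :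
    few m T L.toFinset x = one ((first m T L x).length < m) := by
  classical
  unfold few first
  have h1 : (L.toFinset.filter fun j => (T j).Sat x).card =
      (L.filter fun j => decide ((T j).Sat x)).length := by
    rw [← List.toFinset_card_of_nodup (hL.filter _), List.toFinset_filter]
    simp
  have h2 : ((L.toFinset.filter fun j => (T j).Sat x).card < m) ↔
      (((L.filter fun j => decide ((T j).Sat x)).take m).length < m) := by
    rw [h1, List.length_take]
    constructor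
    · intro h
      exact lt_of_le_of_lt (min_le_right _ _) h
    · intro h
      by_contra hc
      rw [min_eq_left (not_lt.mp hc)] at h
      exact lt_irrefl _ h
  exact congrArg one (propext h2)

theorem a11_first_take {m p : ℕ} {L : List (Fin N)} (hL : L.Nodup) {x : Cube n}
    (hf : few m T (L.take p).toFinset x = 0) : first m T L x = first m T (L.take p) x := by
  classical
  have hn : (L.take p).Nodup := hL.sublist (List.take_sublist p L)
  rw [a11_few hn] at hf
  have h1 : ¬ (first m T (L.take p) x).length < m := by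
    intro h
    rw [one_true h] at hf
    exact one_ne_zero hf
  unfold first at h1 ⊢
  rw [List.length_take] at h1
  have h2 : m ≤ ((L.take p).filter fun j => decide ((T j).Sat x)).length := by
    by_contra hc
    exact h1 (lt_of_le_of_lt (min_le_right _ _) (not_le.mp hc))
  conv_lhs => rw [← List.take_append_drop p L, List.filter_append]
  rw [List.take_append_of_le_length h2]

theorem finite2 (hT : Good q w₀ h W M δ T) (hS : Spread r q γ T) (hM : 1 ≤ M) {s s₀ k m : ℕ}
    {η M' l Λ : ℝ} (hΛ : 0 < Λ) (hm : 2 * (m : ℝ) ≤ Λ) (hδ : δ ≤ 1)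
    (h1 : Λ * 2 ^ w₀ * (1 + w₀ * (w₀ * r * 2 ^ w₀)) ≤ s₀) (h2 : (1 + h) * Λ ≤ l)
    (h3 : 2 * (δ * (l + 1 + δ)) ≤ Λ) (hs : SmallAny s η M')
    (hs1 : k * (s₀ + 1) + M * (1 + h) + (M + 1) * h ≤ s)
    (L : Fin k → List (Fin N)) (hL : ∀ l, (L l).Nodup)
    (F : (Fin k → List (Fin N)) → ℝ) (hF : ∀ s, 0 ≤ F s ∧ F s ≤ 1) :
    Sand ((1 + 2 * k) * err (k * m) M s h w₀ η δ (k * (l + 1)) (k * (Λ + 1)) + 16 * k / Λ)
      ((1 + k) * nrm (k * m) M s N M') (fun x => F fun l => first m T (L l) x) := by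
  classical
  obtain ⟨hη, hM'⟩ := small_nonneg hs
  have hδ0 : 0 ≤ δ := hT.δ0
  have hl0 : 0 ≤ l := by
    have h4 : (0 : ℝ) ≤ (1 + h) * Λ := by positivity
    linarith
  choose p hp1 hp2 hp3 hp4 using fun i : Fin k =>
    exists_prefix hT hS hM (L i) m hΛ hm hδ h1 h2 h3
  set L' : Fin k → List (Fin N) := fun i => (L i).take (p i) with hL'
  have hn' : ∀ i, (L' i).Nodup := fun i => (hL i).sublist (List.take_sublist _ _)
  set e : ℝ := err (k * m) M s h w₀ η δ (k * (l + 1)) (k * (Λ + 1)) with he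
  set nn : ℝ := nrm (k * m) M s N M' with hnn
  have hkl : (0 : ℝ) ≤ k * (l + 1) := mul_nonneg (Nat.cast_nonneg _) (by linarith)
  have hkΛ : (0 : ℝ) ≤ k * (Λ + 1) := mul_nonneg (Nat.cast_nonneg _) (by linarith)
  have he0 : 0 ≤ e := a11_err_nonneg hη hδ0 hkl hkΛ
  have hnn0 : 0 ≤ nn := a11_nrm_nonneg hM'
  have hg : Sand e nn (fun x => F fun i => first m T (L' i) x) := by
    refine bounded hT hs (s₀ := k * (s₀ + 1)) hs1 (univ.biUnion fun i => (L' i).toFinset)
      ?_ ?_ ?_ L' hn' ?_ F hF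
    · exact nar_union (fun i => (L' i).toFinset) (s₀ + 1) hp1
    · exact lam_union (fun i => (L' i).toFinset) (l + 1) hp2
    · exact mu_union (fun i => (L' i).toFinset) (Λ + 1) hp3
    · intro i j hj
      rw [mem_biUnion]
      exact ⟨i, mem_univ i, List.mem_toFinset.mpr hj⟩
  have hfew : ∀ i, Sand e nn (few m T (L' i).toFinset) := by
    intro i
    have hk : 1 ≤ k := by
      have := i.isLt
      omega
    have hk1 : (1 : ℝ) ≤ k := by exact_mod_cast hk
    have hle : s₀ + 1 ≤ k * (s₀ + 1) := Nat.le_mul_of_pos_left _ hk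
    have hb := bounded hT hs (s₀ := s₀ + 1) (k := 1) (m := m) (l := l + 1) (Λ := Λ + 1)
      (by omega) (L' i).toFinset (hp1 i) (hp2 i) (hp3 i) (fun _ => L' i) (fun _ => hn' i)
      (fun _ j hj => List.mem_toFinset.mpr hj) (fun s => one ((s 0).length < m))
      (fun s => ⟨one_nonneg _, one_le _⟩)
    refine (hb.mono ?_ ?_).congr fun x => (a11_few (hn' i) x).symm
    · exact a11_err_mono (Nat.mul_le_mul_right m hk) hη hδ0 (by linarith)
        (le_mul_of_one_le_left (by linarith) hk1) (by linarith)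
        (le_mul_of_one_le_left (by linarith) hk1)
    · exact a11_nrm_mono (Nat.mul_le_mul_right m hk) hM'
  set S : Finset (Fin k) := univ.filter fun i => p i < (L i).length with hSdef
  have hcard : (S.card : ℝ) ≤ k := by
    have h4 : S.card ≤ k := by
      have := card_le_univ S
      simpa using this
    exact_mod_cast h4
  have hu : Sand (k * e) (k * nn) (fun x => ∑ i ∈ S, few m T (L' i).toFinset x) := by
    refine (Sand.sum S (ε := fun _ => e) (M := fun _ => nn) fun i _ => hfew i).mono ?_ ?_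
    · rw [sum_const, nsmul_eq_mul]
      exact mul_le_mul_of_nonneg_right hcard he0
    · rw [sum_const, nsmul_eq_mul]
      exact mul_le_mul_of_nonneg_right hcard hnn0
  have hE : E (fun x => ∑ i ∈ S, few m T (L' i).toFinset x) ≤ k * (8 / Λ) := by
    rw [E_sum]
    have h4 : ∑ i ∈ S, E (few m T (L' i).toFinset) ≤ ∑ i ∈ S, 8 / Λ := by
      refine sum_le_sum fun i hi => ?_
      rcases hp4 i with h5 | h5
      · exact absurd (mem_filter.mp hi).2 (not_lt.mpr h5)
      · exact h5
    refine h4.trans ?_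
    rw [sum_const, nsmul_eq_mul]
    exact mul_le_mul_of_nonneg_right hcard (by positivity)
  have hfew01 : ∀ i x, few m T (L' i).toFinset x = 0 ∨ few m T (L' i).toFinset x = 1 := by
    intro i x
    rw [a11_few (hn' i)]
    by_cases h4 : (first m T (L' i) x).length < m
    · exact Or.inr (one_true h4)
    · exact Or.inl (one_false h4)
  have hfin := sand_pert hg hu hE (f := fun x => F fun l => first m T (L l) x) fun x => by
    by_cases h4 : ∀ i ∈ S, few m T (L' i).toFinset x = 0
    · have h5 : (fun i => first m T (L i) x) = fun i => first m T (L' i) x := by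
        funext i
        by_cases hi : i ∈ S
        · exact a11_first_take (hL i) (h4 i hi)
        · have h6 : (L i).length ≤ p i := by
            by_contra hc
            exact hi (mem_filter.mpr ⟨mem_univ i, not_le.mp hc⟩)
          have h7 : L' i = L i := List.take_of_length_le h6
          rw [h7]
      have h8 : F (fun i => first m T (L i) x) - F (fun i => first m T (L' i) x) = 0 := by
        rw [h5, sub_self]
      change |F (fun i => first m T (L i) x) - F (fun i => first m T (L' i) x)| ≤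
        ∑ i ∈ S, few m T (L' i).toFinset x
      rw [h8, abs_zero, sum_eq_zero h4]
    · push Not at h4
      obtain ⟨i, hi, hne⟩ := h4
      have h5 : few m T (L' i).toFinset x = 1 := (hfew01 i x).resolve_left hne
      have h6 : (1 : ℝ) ≤ ∑ i ∈ S, few m T (L' i).toFinset x := by
        rw [← h5]
        refine single_le_sum (f := fun i => few m T (L' i).toFinset x) (fun j _ => ?_) hi
        rcases hfew01 j x with h7 | h7 <;> simp only [h7] <;> norm_num
      refine le_trans ?_ h6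
      have a1 := hF fun i => first m T (L i) x
      have a2 := hF fun i => first m T (L' i) x
      rw [abs_le]
      constructor
      · linarith [a1.1, a2.2]
      · linarith [a1.2, a2.1]
  refine hfin.mono (le_of_eq ?_) (le_of_eq ?_)
  · ring
  · ring

end Pool.Agent.MP_ca1109_lc.Dnf.L
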