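import Pool.Agent.MP_ca1109_lc.Dnf.L.A11
import Pool.Agent.MP_ca1109_lc.Dnf.L.A1

/-!
# Lists of terms: the choice of the parameters
-/

namespace Pool.Agent.MP_ca1109_lc.Dnf.L

open Finset

variable {n N : ℕ}

/- ROW A12.  PROOF (as P1 of version 1).  `r = 2^L`, `W = 4^L`, `h = r W = 2^(3L)`.
`Λ ≥ 2m, 1` with `16 k / Λ ≤ ε/4`; `l = (1 + h) Λ ≤ 2Λ 2^(3L)`, `l' = k (l + 1) ≤ c 2^(3L)`, `Λ' = k (Λ + 1)` constant; `M ≥ 1` with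
`(1 + 2k) * 2 * 3^(M+1) Λ'^(M+1)/(M+1)! ≤ ε/8` (`FloorSemiring.tendsto_pow_div_factorial_atTop` for `3 Λ'`).  `q ≥ 2` with `2 M ≤ (1-γ) q`.
`w₀ = 2 A L` with `(1-γ) A ≥ 3M + 20` and `A ≥ 20`; `Q = 2^L`: `δ ≤ 1 / Q^(3M+8)`.
`s₀ = Q^(4A+4)`, `s = k (s₀+1) + M (1+h) + (M+1) h`, `s + 1 ≤ Q^E`, `E = 4A + 5`.
`η ≤ 1 / Q^B`, `B = E k m + 3M + 10`; `SmallAny s η M'` from `small_any (small_dnf s w t)`, `w = 2 A₂ L`, `A₂ = E + B + 1`, `t = 40 A₂ L G L`, `G = 3E + B + 3`. -/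

theorem a12_a {Q c : ℝ} (hQ : 1 ≤ Q) (hc : 0 ≤ c) {a b : ℕ} (h : a + 1 ≤ b) :
    c * Q ^ a / Q ^ b ≤ c / Q := by
  have hQ0 : 0 < Q := by linarith
  rw [div_le_div_iff₀ (by positivity) hQ0]
  calc c * Q ^ a * Q = c * Q ^ (a + 1) := by ring
    _ ≤ c * Q ^ b := mul_le_mul_of_nonneg_left (pow_le_pow_right₀ hQ h) hc

/-- The error. -/
theorem a12_err (km M s h w₀ E : ℕ) {η δ l Λ c Q : ℝ} (hQ : 1 ≤ Q) (hc : 1 ≤ c)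
    (hs : (s : ℝ) + 1 ≤ Q ^ E) (hη0 : 0 ≤ η) (hη : η ≤ 1 / Q ^ (E * km + 3 * M + 10))
    (hδ0 : 0 ≤ δ) (hδ : δ ≤ 1 / Q ^ (3 * M + 8)) (hl0 : 0 ≤ l) (hl : l + δ + 1 ≤ c * Q ^ 3)
    (hh : (h : ℝ) = Q ^ 3) (hw : (1 / 2 : ℝ) ^ (w₀ / 2) ≤ 1 / Q ^ 10) :
    err km M s h w₀ η δ l Λ ≤ 2 * (3 ^ (M + 1) * (Λ ^ (M + 1) / (M + 1).factorial)) +
      ((M + 1) * 2 ^ M * c ^ M + 2 * c + 2 * (3 ^ (M + 1) * c ^ M) +
        2 * (3 ^ (M + 1) * c ^ (M + 1))) / Q := by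
  have hQ0 : 0 < Q := by linarith
  have hc0 : 0 ≤ c := by linarith
  have ta : (M + 1) * 2 ^ M * ((s : ℝ) + 1) ^ km * η * (l + δ + 1) ^ M ≤
      ((M + 1) * 2 ^ M * c ^ M) / Q := by
    calc (M + 1) * 2 ^ M * ((s : ℝ) + 1) ^ km * η * (l + δ + 1) ^ M ≤
          (M + 1) * 2 ^ M * (Q ^ E) ^ km * (1 / Q ^ (E * km + 3 * M + 10)) * (c * Q ^ 3) ^ M := by
          gcongr
      _ = ((M + 1) * 2 ^ M * c ^ M) * Q ^ (E * km + 3 * M) / Q ^ (E * km + 3 * M + 10) := by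
          rw [mul_pow, ← pow_mul, ← pow_mul, pow_add Q (E * km) (3 * M)]
          ring
      _ ≤ _ := a12_a hQ (by positivity) (by omega)
  have tb : l * ((h : ℝ) * h) * (1 / 2) ^ (w₀ / 2) ≤ c / Q := by
    have h1 : l ≤ c * Q ^ 3 := by linarith
    calc l * ((h : ℝ) * h) * (1 / 2) ^ (w₀ / 2) ≤ (c * Q ^ 3) * (Q ^ 3 * Q ^ 3) * (1 / Q ^ 10) := by
          rw [hh]
          gcongr
      _ = c * Q ^ 9 / Q ^ 10 := by ring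
      _ ≤ _ := a12_a hQ hc0 (by omega)
  have td : δ * (l + δ) ^ M ≤ c ^ M / Q := by
    have h1 : l + δ ≤ c * Q ^ 3 := by linarith
    calc δ * (l + δ) ^ M ≤ (1 / Q ^ (3 * M + 8)) * (c * Q ^ 3) ^ M := by gcongr
      _ = c ^ M * Q ^ (3 * M) / Q ^ (3 * M + 8) := by
          rw [mul_pow, ← pow_mul]
          ring
      _ ≤ _ := a12_a hQ (by positivity) (by omega)
  have te : η * (l + δ) ^ (M + 1) ≤ c ^ (M + 1) / Q := by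
    have h1 : l + δ ≤ c * Q ^ 3 := by linarith
    calc η * (l + δ) ^ (M + 1) ≤ (1 / Q ^ (E * km + 3 * M + 10)) * (c * Q ^ 3) ^ (M + 1) := by
          gcongr
      _ = c ^ (M + 1) * Q ^ (3 * (M + 1)) / Q ^ (E * km + 3 * M + 10) := by
          rw [mul_pow, ← pow_mul]
          ring
      _ ≤ _ := a12_a hQ (by positivity) (by omega)
  have h3 : (0 : ℝ) ≤ 3 ^ (M + 1) := by positivity
  have td' := mul_le_mul_of_nonneg_left td h3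
  have te' := mul_le_mul_of_nonneg_left te h3
  unfold err
  calc _ ≤ ((M + 1) * 2 ^ M * c ^ M) / Q + 2 * (c / Q + (3 ^ (M + 1) * (Λ ^ (M + 1) / (M + 1).factorial) +
        3 ^ (M + 1) * (c ^ M / Q) + 3 ^ (M + 1) * (c ^ (M + 1) / Q))) := by
          rw [mul_add (3 ^ (M + 1) : ℝ), mul_add (3 ^ (M + 1) : ℝ)]
          linarith
    _ = _ := by ring

/-- The near sums. -/
theorem a12_delta (L M A : ℕ) {γ : ℝ} (hA : 3 * (M : ℝ) + 20 ≤ (1 - γ) * A)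
    (hQM : 8 * (M : ℝ) ≤ 2 ^ L) :
    (M * ((4 ^ L : ℕ) : ℝ) * (1 + ((2 ^ L : ℕ) : ℝ) * ((4 ^ L : ℕ) : ℝ)) *
      ((1 + ((2 ^ L : ℕ) : ℝ) * ((4 ^ L : ℕ) : ℝ)) * (((2 ^ L : ℕ) : ℝ) * (((4 ^ L : ℕ) : ℝ) + 1)))) *
        (2 : ℝ) ^ (-((1 - γ) / 2 * ((2 * (A * L) : ℕ) : ℝ))) ≤ 1 / ((2 : ℝ) ^ L) ^ (3 * M + 8) := by
  have hq : (1 : ℝ) ≤ 2 ^ L := one_le_pow₀ (by norm_num)
  have h4 : (4 : ℝ) ^ L = (2 ^ L) ^ 2 := by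
    rw [← pow_mul, mul_comm, pow_mul]
    norm_num
  have h1 : (2 : ℝ) ^ (-((1 - γ) / 2 * ((2 * (A * L) : ℕ) : ℝ))) ≤
      1 / ((2 : ℝ) ^ L) ^ (3 * M + 20) := by
    have e1 : (1 : ℝ) / ((2 : ℝ) ^ L) ^ (3 * M + 20) = (2 : ℝ) ^ (-(((L * (3 * M + 20) : ℕ) : ℝ))) := by
      rw [Real.rpow_neg (by norm_num), Real.rpow_natCast, pow_mul, one_div]
    rw [e1]
    apply Real.rpow_le_rpow_of_exponent_le (by norm_num)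
    push_cast
    have hL : (0 : ℝ) ≤ L := Nat.cast_nonneg L
    have := mul_le_mul_of_nonneg_right hA hL
    nlinarith
  have h2 : (0 : ℝ) ≤ (2 : ℝ) ^ (-((1 - γ) / 2 * ((2 * (A * L) : ℕ) : ℝ))) := by positivity
  generalize (2 : ℝ) ^ (-((1 - γ) / 2 * ((2 * (A * L) : ℕ) : ℝ))) = X at h1 h2 ⊢
  push_cast
  rw [h4]
  generalize (2 : ℝ) ^ L = Q at hq hQM h1 ⊢
  have hQ0 : 0 < Q := by linarith
  have h5 : 1 + Q * Q ^ 2 ≤ 2 * Q ^ 3 := by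
    have : 1 ≤ Q ^ 3 := one_le_pow₀ hq
    have e : Q * Q ^ 2 = Q ^ 3 := by ring
    linarith
  have h6 : Q ^ 2 + 1 ≤ 2 * Q ^ 2 := by
    have : 1 ≤ Q ^ 2 := one_le_pow₀ hq
    linarith
  calc M * Q ^ 2 * (1 + Q * Q ^ 2) * ((1 + Q * Q ^ 2) * (Q * (Q ^ 2 + 1))) * X ≤
        M * Q ^ 2 * (2 * Q ^ 3) * ((2 * Q ^ 3) * (Q * (2 * Q ^ 2))) * (1 / Q ^ (3 * M + 20)) := by
        gcongr
    _ = (8 * M) * Q ^ 11 / Q ^ (3 * M + 20) := by ring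
    _ ≤ Q * Q ^ 11 / Q ^ (3 * M + 20) := by gcongr
    _ = 1 / Q ^ (3 * M + 8) := by
        have : Q ^ (3 * M + 20) = Q ^ (3 * M + 8) * (Q * Q ^ 11) := by ring
        rw [this]
        field_simp

/-- The exponential gain of the truncation. -/
theorem a12_trunc (a G L : ℕ) (ha : 1 ≤ a) :
    ((2 : ℝ) ^ L) ^ G ≤ (1 + 1 / (20 * ((2 * a : ℕ) : ℝ))) ^ (40 * a * (G * L)) := by
  have ha' : (1 : ℝ) ≤ a := by exact_mod_cast ha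
  have h1 : (2 : ℝ) ≤ (1 + 1 / (20 * ((2 * a : ℕ) : ℝ))) ^ (40 * a) := by
    have h2 := one_add_mul_le_pow (a := 1 / (20 * ((2 * a : ℕ) : ℝ)))
      (by have : (0 : ℝ) ≤ 1 / (20 * ((2 * a : ℕ) : ℝ)) := by positivity
          linarith) (40 * a)
    refine le_trans (le_of_eq ?_) h2
    push_cast
    field_simp
    norm_num
  calc ((2 : ℝ) ^ L) ^ G = 2 ^ (G * L) := by rw [← pow_mul, mul_comm]
    _ ≤ ((1 + 1 / (20 * ((2 * a : ℕ) : ℝ))) ^ (40 * a)) ^ (G * L) := by gcongr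
    _ = _ := by rw [← pow_mul]

/-- The sandwiches of the small DNFs. -/
theorem a12_small (s L E B A₂ G : ℕ) (hL : 1 ≤ L) (hs : (s : ℝ) + 1 ≤ ((2 : ℝ) ^ L) ^ E)
    (hA₂ : A₂ = E + B + 1) (hG : G = 3 * E + B + 3) :
    ∃ η M' : ℝ, SmallAny s η M' ∧ 0 ≤ η ∧ η ≤ 1 / ((2 : ℝ) ^ L) ^ B ∧ 0 ≤ M' ∧
      1 + M' ≤ 1024 * ((2 : ℝ) ^ L) ^ (3 * E) * (40 * A₂ * L) ^ (120 * A₂ * G * L ^ 2) := by
  have ha : 1 ≤ A₂ * L := Nat.mul_pos (by omega) hL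
  have hsm := small_any (small_dnf s (2 * (A₂ * L)) (40 * (A₂ * L) * (G * L)) (by omega))
  refine ⟨_, _, hsm, by positivity, ?_, by positivity, ?_⟩
  · have htr := a12_trunc (A₂ * L) G L ha
    have hw : (1 / 2 : ℝ) ^ (2 * (A₂ * L)) = 1 / ((2 : ℝ) ^ L) ^ (2 * A₂) := by
      rw [one_div, inv_pow, ← pow_mul, one_div]
      congr 2
      ring
    rw [hw]
    have hq : (2 : ℝ) ≤ 2 ^ L := by
      calc (2 : ℝ) = 2 ^ 1 := by norm_num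
        _ ≤ 2 ^ L := pow_le_pow_right₀ (by norm_num) hL
    generalize (1 + 1 / (20 * ((2 * (A₂ * L) : ℕ) : ℝ))) ^ (40 * (A₂ * L) * (G * L)) = D at htr ⊢
    generalize (2 : ℝ) ^ L = Q at hs hq htr ⊢
    have hQ1 : 1 ≤ Q := by linarith
    have hQ0 : 0 < Q := by linarith
    have hs0 : (0 : ℝ) ≤ s := Nat.cast_nonneg s
    have e1 : 4 * ((s : ℝ) + 1) ^ 3 / D ≤ 1 / Q ^ (B + 1) := by
      calc 4 * ((s : ℝ) + 1) ^ 3 / D ≤ (Q ^ 2) * (Q ^ E) ^ 3 / Q ^ G := by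
            gcongr
            nlinarith
        _ = 1 / Q ^ (B + 1) := by
            have : Q ^ G = Q ^ (B + 1) * (Q ^ 2 * (Q ^ E) ^ 3) := by
              rw [← pow_mul, ← pow_add, ← pow_add]
              congr 1
              omega
            rw [this]
            field_simp
    have e2 : (s : ℝ) * (1 / Q ^ (2 * A₂)) ≤ 1 / Q ^ (B + 1) := by
      calc (s : ℝ) * (1 / Q ^ (2 * A₂)) ≤ Q ^ E * (1 / Q ^ (E + (B + 1))) := by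
            gcongr
            · linarith
            · omega
        _ = 1 / Q ^ (B + 1) := by
            rw [pow_add]
            field_simp
    calc _ ≤ 1 / Q ^ (B + 1) + 1 / Q ^ (B + 1) := add_le_add e1 e2
      _ = 2 / Q ^ (B + 1) := by ring
      _ ≤ Q / Q ^ (B + 1) := by gcongr
      _ = 1 / Q ^ B := by
          rw [pow_succ]
          field_simp
  · have h20 : (20 : ℝ) * ((2 * (A₂ * L) : ℕ) : ℝ) = 40 * A₂ * L := by push_cast; ring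
    rw [h20]
    have hq : (1 : ℝ) ≤ 2 ^ L := one_le_pow₀ (by norm_num)
    have hA : (1 : ℝ) ≤ A₂ := by exact_mod_cast (by omega : 1 ≤ A₂)
    have hL' : (1 : ℝ) ≤ L := by exact_mod_cast hL
    have hu : (1 : ℝ) ≤ 40 * A₂ * L := by nlinarith
    have hexp : (40 * A₂ * L : ℝ) ^ (120 * A₂ * G * L ^ 2) =
        ((40 * A₂ * L : ℝ) ^ (40 * (A₂ * L) * (G * L))) ^ 3 := by
      rw [← pow_mul]
      congr 1
      ring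
    rw [hexp]
    have hU : (1 : ℝ) ≤ (40 * A₂ * L) ^ (40 * (A₂ * L) * (G * L)) := one_le_pow₀ hu
    generalize ((40 : ℝ) * A₂ * L) ^ (40 * (A₂ * L) * (G * L)) = U at hU ⊢
    generalize (2 : ℝ) ^ L = Q at hs hq ⊢
    have hs0 : (0 : ℝ) ≤ s := Nat.cast_nonneg s
    have hQE : 1 ≤ Q ^ E := one_le_pow₀ hq
    have e1 : (8 * ((s : ℝ) + 1) * U) ^ 3 ≤ (8 * Q ^ E * U) ^ 3 := by gcongr
    have e2 : Q ^ E ≤ (8 * Q ^ E * U) ^ 3 := by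
      have e3 : Q ^ E ≤ 8 * Q ^ E * U := by nlinarith
      have e4 : (1 : ℝ) ≤ 8 * Q ^ E * U := hQE.trans e3
      exact e3.trans (le_self_pow₀ e4 (by norm_num))
    calc 1 + ((8 * ((s : ℝ) + 1) * U) ^ 3 + s) ≤ 2 * (8 * Q ^ E * U) ^ 3 := by linarith
      _ = 1024 * Q ^ (3 * E) * U ^ 3 := by
          rw [mul_comm 3 E, pow_mul]
          ring

/-- The spectral norm. -/
theorem a12_norm (k m M s N L E A₂ G C : ℕ) {M' : ℝ} (hL : 1 ≤ L) (hM : 1 ≤ M)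
    (hs : (s : ℝ) + 1 ≤ ((2 : ℝ) ^ L) ^ E) (hM'0 : 0 ≤ M')
    (hM' : 1 + M' ≤ 1024 * ((2 : ℝ) ^ L) ^ (3 * E) * (40 * A₂ * L) ^ (120 * A₂ * G * L ^ 2))
    (hK : 1024 * ((1 + k) * (2 ^ M + 3 ^ (M + 1) + 1)) ≤ (2 : ℝ) ^ L) (hA₂ : 1 ≤ A₂)
    (hC : C = 120 * A₂ * G + (1 + E * (k * m) + 3 * E) + 40 * A₂ + M + 2) :
    (1 + k) * nrm (k * m) M s N M' ≤ ((N : ℝ) + 1) ^ C * (C * L : ℝ) ^ (C * L ^ 2) := by
  have hq : (1 : ℝ) ≤ 2 ^ L := one_le_pow₀ (by norm_num)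
  have hN0 : (0 : ℝ) ≤ N := Nat.cast_nonneg N
  have hs0 : (0 : ℝ) ≤ s := Nat.cast_nonneg s
  have hk0 : (0 : ℝ) ≤ k := Nat.cast_nonneg k
  have hL' : (1 : ℝ) ≤ L := by exact_mod_cast hL
  have hA : (1 : ℝ) ≤ A₂ := by exact_mod_cast hA₂
  have hCr : (40 * A₂ : ℝ) ≤ C := by
    exact_mod_cast (by omega : 40 * A₂ ≤ C)
  obtain ⟨u, hu⟩ : ∃ u : ℝ, u = C * L := ⟨_, rfl⟩
  have hu2 : 2 ≤ u := by rw [hu]; nlinarith
  have hu1 : 1 ≤ u := by linarith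
  have hu0 : 0 < u := by linarith
  have hu40 : (40 * A₂ * L : ℝ) ≤ u := by
    rw [hu]
    exact mul_le_mul_of_nonneg_right hCr (by linarith)
  have hQu : (2 : ℝ) ^ L ≤ u ^ L := pow_le_pow_left₀ (by norm_num) hu2 L
  have hM1 : (0 : ℝ) ≤ 1 + M' := by linarith
  obtain ⟨Q, hQ⟩ : ∃ Q : ℝ, Q = 2 ^ L := ⟨_, rfl⟩
  rw [← hQ] at hq hs hM' hK hQu
  have hQ0 : 0 < Q := by linarith
  have hN1 : (1 : ℝ) ≤ (N : ℝ) + 1 := by linarith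
  have hNM : (N : ℝ) ^ 2 ≤ ((N : ℝ) + 1) ^ (M + 1) :=
    (pow_le_pow_left₀ hN0 (by linarith) 2).trans (pow_le_pow_right₀ hN1 (by omega))
  have hT : ((s : ℝ) + 1) ^ (k * m) ≤ Q ^ (E * (k * m)) := by
    rw [pow_mul Q E (k * m)]
    exact pow_le_pow_left₀ (by linarith) hs _
  have hT1 : 1 ≤ Q ^ (E * (k * m)) := one_le_pow₀ hq
  have h1 : nrm (k * m) M s N M' ≤
      ((N : ℝ) + 1) ^ (M + 1) * ((2 ^ M + 3 ^ (M + 1) + 1) * Q ^ (E * (k * m)) * (1 + M')) := by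
    unfold nrm
    have hP : (0 : ℝ) ≤ ((N : ℝ) + 1) ^ (M + 1) := by positivity
    generalize ((N : ℝ) + 1) ^ (M + 1) = P at hP hNM ⊢
    generalize Q ^ (E * (k * m)) = R at hT hT1 ⊢
    have e1 : P * (2 ^ M * ((s : ℝ) + 1) ^ (k * m) * (1 + M')) ≤ P * (2 ^ M * R * (1 + M')) := by
      gcongr
    have e0 : (1 : ℝ) ≤ R * (1 + M') := by nlinarith
    have e2 : (N : ℝ) ^ 2 ≤ P * (R * (1 + M')) := by
      calc (N : ℝ) ^ 2 ≤ P * 1 := by rw [mul_one]; exact hNM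
        _ ≤ _ := mul_le_mul_of_nonneg_left e0 hP
    have e3 : 3 ^ (M + 1) * P * (1 + M') ≤ P * (3 ^ (M + 1) * R * (1 + M')) := by
      have : (3 : ℝ) ^ (M + 1) * P * (1 + M') ≤ 3 ^ (M + 1) * P * (R * (1 + M')) := by
        apply mul_le_mul_of_nonneg_left _ (by positivity)
        nlinarith
      linarith
    calc _ ≤ P * (2 ^ M * R * (1 + M')) + P * (R * (1 + M')) + P * (3 ^ (M + 1) * R * (1 + M')) :=
          add_le_add (add_le_add e1 e2) e3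
      _ = _ := by ring
  have h2 : (1 + k) * ((2 ^ M + 3 ^ (M + 1) + 1) * Q ^ (E * (k * m)) * (1 + M')) ≤
      u ^ (L * (1 + E * (k * m) + 3 * E) + 120 * A₂ * G * L ^ 2) := by
    calc (1 + k) * ((2 ^ M + 3 ^ (M + 1) + 1) * Q ^ (E * (k * m)) * (1 + M')) =
          ((1 + k) * (2 ^ M + 3 ^ (M + 1) + 1)) * Q ^ (E * (k * m)) * (1 + M') := by ring
      _ ≤ ((1 + k) * (2 ^ M + 3 ^ (M + 1) + 1)) * Q ^ (E * (k * m)) *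
            (1024 * Q ^ (3 * E) * (40 * A₂ * L) ^ (120 * A₂ * G * L ^ 2)) := by gcongr
      _ = (1024 * ((1 + k) * (2 ^ M + 3 ^ (M + 1) + 1))) * Q ^ (E * (k * m)) * Q ^ (3 * E) *
            (40 * A₂ * L) ^ (120 * A₂ * G * L ^ 2) := by ring
      _ ≤ Q * Q ^ (E * (k * m)) * Q ^ (3 * E) * u ^ (120 * A₂ * G * L ^ 2) := by gcongr
      _ = Q ^ (1 + E * (k * m) + 3 * E) * u ^ (120 * A₂ * G * L ^ 2) := by
          rw [pow_add, pow_add, pow_one]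
      _ ≤ (u ^ L) ^ (1 + E * (k * m) + 3 * E) * u ^ (120 * A₂ * G * L ^ 2) := by gcongr
      _ = _ := by rw [← pow_mul, ← pow_add]
  have hexp : L * (1 + E * (k * m) + 3 * E) + 120 * A₂ * G * L ^ 2 ≤ C * L ^ 2 := by
    have e1 : L ≤ L ^ 2 := Nat.le_self_pow (by norm_num) L
    calc L * (1 + E * (k * m) + 3 * E) + 120 * A₂ * G * L ^ 2 ≤
          L ^ 2 * (1 + E * (k * m) + 3 * E) + 120 * A₂ * G * L ^ 2 := by gcongr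
      _ = (120 * A₂ * G + (1 + E * (k * m) + 3 * E)) * L ^ 2 := by ring
      _ ≤ C * L ^ 2 := Nat.mul_le_mul_right _ (by omega)
  rw [← hu]
  calc (1 + k) * nrm (k * m) M s N M' ≤
        (1 + k) * (((N : ℝ) + 1) ^ (M + 1) *
          ((2 ^ M + 3 ^ (M + 1) + 1) * Q ^ (E * (k * m)) * (1 + M'))) :=
        mul_le_mul_of_nonneg_left h1 (by positivity)
    _ = ((N : ℝ) + 1) ^ (M + 1) *
          ((1 + k) * ((2 ^ M + 3 ^ (M + 1) + 1) * Q ^ (E * (k * m)) * (1 + M'))) := by ring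
    _ ≤ ((N : ℝ) + 1) ^ C * u ^ (C * L ^ 2) := by
        refine mul_le_mul (pow_le_pow_right₀ hN1 (by omega)) (h2.trans ?_) (by positivity)
          (by positivity)
        exact pow_le_pow_right₀ hu1 hexp

/-- The number of the narrow terms. -/
theorem a12_s0 (L A : ℕ) {Λ : ℝ} (hΛ : 0 ≤ Λ) (hK : Λ * (4 * A ^ 2 + 1) ≤ 2 ^ L) :
    Λ * 2 ^ (2 * (A * L)) * (1 + ((2 * (A * L) : ℕ) : ℝ) * (((2 * (A * L) : ℕ) : ℝ) *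
      ((2 ^ L : ℕ) : ℝ) * 2 ^ (2 * (A * L)))) ≤ ((2 ^ (L * (4 * A + 4)) : ℕ) : ℝ) := by
  have hq : (1 : ℝ) ≤ 2 ^ L := one_le_pow₀ (by norm_num)
  have hLq : (L : ℝ) ≤ 2 ^ L := by exact_mod_cast Nat.lt_two_pow_self.le
  have e1 : (2 : ℝ) ^ (2 * (A * L)) = (2 ^ L) ^ (2 * A) := by
    rw [← pow_mul]; congr 1; ring
  push_cast
  rw [e1, pow_mul (2 : ℝ) L (4 * A + 4)]
  generalize (2 : ℝ) ^ L = Q at hq hLq hK ⊢
  have hQ0 : 0 < Q := by linarith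
  have hL0 : (0 : ℝ) ≤ L := Nat.cast_nonneg L
  have h1 : (2 * ((A : ℝ) * L)) * (2 * (A * L) * Q * Q ^ (2 * A)) ≤ 4 * A ^ 2 * Q ^ (2 * A + 3) := by
    calc (2 * ((A : ℝ) * L)) * (2 * (A * L) * Q * Q ^ (2 * A)) =
          4 * A ^ 2 * (L * L * Q * Q ^ (2 * A)) := by ring
      _ ≤ 4 * A ^ 2 * (Q * Q * Q * Q ^ (2 * A)) := by gcongr
      _ = _ := by rw [pow_add]; ring
  have h2 : (1 : ℝ) ≤ Q ^ (2 * A + 3) := one_le_pow₀ hq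
  calc Λ * Q ^ (2 * A) * (1 + 2 * ((A : ℝ) * L) * (2 * (A * L) * Q * Q ^ (2 * A))) ≤
        Λ * Q ^ (2 * A) * ((4 * A ^ 2 + 1) * Q ^ (2 * A + 3)) := by
        apply mul_le_mul_of_nonneg_left _ (by positivity)
        linarith
    _ = (Λ * (4 * A ^ 2 + 1)) * (Q ^ (2 * A) * Q ^ (2 * A + 3)) := by ring
    _ ≤ Q * (Q ^ (2 * A) * Q ^ (2 * A + 3)) := by gcongr
    _ = Q ^ (4 * A + 4) := by
        rw [← pow_add, ← pow_succ']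
        congr 1
        ring

/-- The number of terms of the small DNFs. -/
theorem a12_s (k M L A : ℕ) (hK : (2 * (k : ℝ) + 3 * M + 2) ≤ 2 ^ L) :
    ((k * (2 ^ (L * (4 * A + 4)) + 1) + M * (1 + 2 ^ L * 4 ^ L) + (M + 1) * (2 ^ L * 4 ^ L) : ℕ) : ℝ) + 1 ≤
      ((2 : ℝ) ^ L) ^ (4 * A + 5) := by
  have hq : (1 : ℝ) ≤ 2 ^ L := one_le_pow₀ (by norm_num)
  have h4 : (4 : ℝ) ^ L = (2 ^ L) ^ 2 := by
    rw [← pow_mul, mul_comm, pow_mul]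
    norm_num
  push_cast
  rw [h4, pow_mul]
  generalize (2 : ℝ) ^ L = Q at hq hK ⊢
  have hQ0 : 0 < Q := by linarith
  have h1 : (1 : ℝ) ≤ Q ^ (4 * A + 4) := one_le_pow₀ hq
  have h2 : Q * Q ^ 2 ≤ Q ^ (4 * A + 4) := by
    calc Q * Q ^ 2 = Q ^ 3 := by ring
      _ ≤ _ := pow_le_pow_right₀ hq (by omega)
  have hk : (0 : ℝ) ≤ k := Nat.cast_nonneg k
  have hM : (0 : ℝ) ≤ M := Nat.cast_nonneg M
  have h3 : (k : ℝ) * (Q ^ (4 * A + 4) + 1) ≤ k * (2 * Q ^ (4 * A + 4)) := by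
    apply mul_le_mul_of_nonneg_left _ hk
    linarith
  have h4 : (M : ℝ) * (1 + Q * Q ^ 2) ≤ M * (2 * Q ^ (4 * A + 4)) := by
    apply mul_le_mul_of_nonneg_left _ hM
    linarith
  have h5 : ((M : ℝ) + 1) * (Q * Q ^ 2) ≤ (M + 1) * Q ^ (4 * A + 4) := by
    apply mul_le_mul_of_nonneg_left h2 (by linarith)
  calc _ ≤ k * (2 * Q ^ (4 * A + 4)) + M * (2 * Q ^ (4 * A + 4)) + (M + 1) * Q ^ (4 * A + 4) +
        Q ^ (4 * A + 4) := by linarith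
    _ = (2 * k + 3 * M + 2) * Q ^ (4 * A + 4) := by ring
    _ ≤ Q * Q ^ (4 * A + 4) := by gcongr
    _ = _ := by rw [← pow_succ']

theorem core2 (k m : ℕ) (γ : ℝ) (hγ0 : 0 ≤ γ) (hγ : γ < 1) (ε : ℝ) (hε : 0 < ε) :
    ∃ q C L₀ : ℕ, 2 ≤ q ∧ ∀ L ≥ L₀, ∀ (n N : ℕ) (T : Fin N → Term n), Spread (2 ^ L) q γ T →
      (∀ j, (T j).S.card ≤ 4 ^ L) → ∀ (Ls : Fin k → List (Fin N)), (∀ l, (Ls l).Nodup) →
      ∀ F : (Fin k → List (Fin N)) → ℝ, (∀ s, 0 ≤ F s ∧ F s ≤ 1) →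
        Sand ε (((N : ℝ) + 1) ^ C * (C * L : ℝ) ^ (C * L ^ 2)) (fun x => F fun l => first m T (Ls l) x) := by
  have hk0 : (0 : ℝ) ≤ k := Nat.cast_nonneg k
  have hm0 : (0 : ℝ) ≤ m := Nat.cast_nonneg m
  have hγ1 : 0 < 1 - γ := by linarith
  obtain ⟨Λ, hΛm, hΛ1, hΛε⟩ : ∃ Λ : ℝ, 2 * (m : ℝ) ≤ Λ ∧ 1 ≤ Λ ∧ 16 * k / Λ ≤ ε / 4 := by
    have h0 : 0 < max (2 * (m : ℝ) + 1) (64 * k / ε) := lt_of_lt_of_le (by linarith) (le_max_left _ _)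
    refine ⟨max (2 * (m : ℝ) + 1) (64 * k / ε), ?_, ?_, ?_⟩
    · exact le_trans (by linarith) (le_max_left _ _)
    · exact le_trans (by linarith) (le_max_left _ _)
    · rw [div_le_iff₀ h0]
      have h2 := le_max_right (2 * (m : ℝ) + 1) (64 * k / ε)
      rw [div_le_iff₀ hε] at h2
      linarith
  obtain ⟨M, hM, h4⟩ : ∃ M : ℕ, 1 ≤ M ∧
      (3 * (k * (Λ + 1))) ^ (M + 1) / (M + 1).factorial ≤ ε / (16 * (1 + 2 * k)) := by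
    have h := (FloorSemiring.tendsto_pow_div_factorial_atTop (3 * (k * (Λ + 1)))).eventually
      (ge_mem_nhds (show (0 : ℝ) < ε / (16 * (1 + 2 * k)) by positivity))
    obtain ⟨n0, hn0⟩ := Filter.eventually_atTop.1 h
    exact ⟨n0 + 1, by omega, hn0 _ (by omega)⟩
  have hM0 : (0 : ℝ) ≤ M := Nat.cast_nonneg M
  obtain ⟨q, hq2, hqM⟩ : ∃ q : ℕ, 2 ≤ q ∧ 2 * (M : ℝ) ≤ (1 - γ) * q := by
    refine ⟨max 2 ⌈2 * (M : ℝ) / (1 - γ)⌉₊, le_max_left _ _, ?_⟩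
    have h1 : 2 * (M : ℝ) / (1 - γ) ≤ ((max 2 ⌈2 * (M : ℝ) / (1 - γ)⌉₊ : ℕ) : ℝ) :=
      (Nat.le_ceil _).trans (by exact_mod_cast le_max_right _ _)
    rw [div_le_iff₀ hγ1] at h1
    linarith
  obtain ⟨A, hA20, hAγ⟩ : ∃ A : ℕ, 20 ≤ A ∧ 3 * (M : ℝ) + 20 ≤ (1 - γ) * A := by
    refine ⟨max 20 ⌈(3 * (M : ℝ) + 20) / (1 - γ)⌉₊, le_max_left _ _, ?_⟩
    have h1 : (3 * (M : ℝ) + 20) / (1 - γ) ≤ ((max 20 ⌈(3 * (M : ℝ) + 20) / (1 - γ)⌉₊ : ℕ) : ℝ) :=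
      (Nat.le_ceil _).trans (by exact_mod_cast le_max_right _ _)
    rw [div_le_iff₀ hγ1] at h1
    linarith
  obtain ⟨E, hE⟩ : ∃ E : ℕ, E = 4 * A + 5 := ⟨_, rfl⟩
  obtain ⟨B, hB⟩ : ∃ B : ℕ, B = E * (k * m) + 3 * M + 10 := ⟨_, rfl⟩
  obtain ⟨A₂, hA₂⟩ : ∃ A₂ : ℕ, A₂ = E + B + 1 := ⟨_, rfl⟩
  obtain ⟨G, hG⟩ : ∃ G : ℕ, G = 3 * E + B + 3 := ⟨_, rfl⟩
  obtain ⟨C, hC⟩ : ∃ C : ℕ, C = 120 * A₂ * G + (1 + E * (k * m) + 3 * E) + 40 * A₂ + M + 2 :=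
    ⟨_, rfl⟩
  obtain ⟨c, hc⟩ : ∃ c : ℝ, c = k * (2 * Λ + 1) + 2 := ⟨_, rfl⟩
  have hc1 : 1 ≤ c := by
    have : 0 ≤ k * (2 * Λ + 1) := by positivity
    linarith
  have hc0 : 0 ≤ c := by linarith
  obtain ⟨κ, hκ⟩ : ∃ κ : ℝ, κ = (M + 1) * 2 ^ M * c ^ M + 2 * c + 2 * (3 ^ (M + 1) * c ^ M) +
      2 * (3 ^ (M + 1) * c ^ (M + 1)) := ⟨_, rfl⟩
  have hκ0 : 0 ≤ κ := by rw [hκ]; positivity
  obtain ⟨K, hK⟩ : ∃ K : ℝ, K = 8 * M + (4 * Λ + 4) + Λ * (4 * A ^ 2 + 1) + (2 * k + 3 * M + 2) +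
      (1 + 2 * k) * κ * 8 / ε + 1024 * ((1 + k) * (2 ^ M + 3 ^ (M + 1) + 1)) + 2 := ⟨_, rfl⟩
  refine ⟨q, C, ⌈K⌉₊, hq2, fun L hL n N T hS hW Ls hLs F hF => ?_⟩
  have hKL : K ≤ 2 ^ L := by
    have h1 : K ≤ L := (Nat.le_ceil K).trans (by exact_mod_cast hL)
    have h2 : (L : ℝ) ≤ 2 ^ L := by exact_mod_cast Nat.lt_two_pow_self.le
    linarith
  have p2 : 0 ≤ Λ * (4 * (A : ℝ) ^ 2 + 1) := by positivity
  have p3 : 0 ≤ (1 + 2 * (k : ℝ)) * κ * 8 / ε := by positivity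
  have p4 : (0 : ℝ) ≤ 1024 * ((1 + k) * (2 ^ M + 3 ^ (M + 1) + 1)) := by positivity
  have b1 : 8 * (M : ℝ) ≤ 2 ^ L := by linarith
  have b2 : 4 * Λ + 4 ≤ 2 ^ L := by linarith
  have b3 : Λ * (4 * (A : ℝ) ^ 2 + 1) ≤ 2 ^ L := by linarith
  have b4 : 2 * (k : ℝ) + 3 * M + 2 ≤ 2 ^ L := by linarith
  have b5 : (1 + 2 * (k : ℝ)) * κ * 8 / ε ≤ 2 ^ L := by linarith
  have b6 : (1024 : ℝ) * ((1 + k) * (2 ^ M + 3 ^ (M + 1) + 1)) ≤ 2 ^ L := by linarith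
  have b7 : (2 : ℝ) ≤ 2 ^ L := by linarith
  have hL1 : 1 ≤ L := by
    by_contra h
    have : L = 0 := by omega
    rw [this] at b7
    norm_num at b7
  have hq4 : (4 : ℝ) ^ L = (2 ^ L) ^ 2 := by
    rw [← pow_mul, mul_comm, pow_mul]
    norm_num
  -- the near sums
  obtain ⟨δ, hδ⟩ : ∃ δ : ℝ, δ = (M * ((4 ^ L : ℕ) : ℝ) * (1 + ((2 ^ L : ℕ) : ℝ) * ((4 ^ L : ℕ) : ℝ)) *
      ((1 + ((2 ^ L : ℕ) : ℝ) * ((4 ^ L : ℕ) : ℝ)) * (((2 ^ L : ℕ) : ℝ) * (((4 ^ L : ℕ) : ℝ) + 1)))) *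
        (2 : ℝ) ^ (-((1 - γ) / 2 * ((2 * (A * L) : ℕ) : ℝ))) := ⟨_, rfl⟩
  have hδ0 : 0 ≤ δ := by rw [hδ]; positivity
  have hδQ : δ ≤ 1 / ((2 : ℝ) ^ L) ^ (3 * M + 8) := by
    rw [hδ]
    exact a12_delta L M A hAγ b1
  have hAL : 1 ≤ A * L := Nat.mul_pos (by omega) hL1
  have hgood : Good q (2 * (A * L)) (2 ^ L * 4 ^ L) (4 ^ L) M δ T :=
    good_of_spread hS hq2 (by omega) hW hqM (le_of_eq hδ.symm)
  have hs1 := a12_s k M L A b4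
  rw [← hE] at hs1
  obtain ⟨η, M', hsm, hη0, hη, hM'0, hM'⟩ := a12_small _ L E B A₂ G hL1 hs1 hA₂ hG
  have hnorm := a12_norm k m M _ N L E A₂ G C hL1 hM hs1 hM'0 hM' b6 (by omega) hC
  have hs0 := a12_s0 L A (by linarith : (0 : ℝ) ≤ Λ) b3
  have hhQ : ((2 ^ L * 4 ^ L : ℕ) : ℝ) = ((2 : ℝ) ^ L) ^ 3 := by
    push_cast
    rw [hq4]
    ring
  have hwQ : (1 / 2 : ℝ) ^ (2 * (A * L) / 2) ≤ 1 / ((2 : ℝ) ^ L) ^ 10 := by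
    rw [Nat.mul_div_cancel_left _ (by norm_num : 0 < 2), one_div, inv_pow, mul_comm A L, pow_mul,
      one_div]
    gcongr
    · exact (by linarith : (1 : ℝ) ≤ 2 ^ L)
    · omega
  have hQ1 : (1 : ℝ) ≤ 2 ^ L := by linarith
  have hQ0 : (0 : ℝ) < 2 ^ L := by linarith
  have hδ1 : δ ≤ 1 := by
    refine hδQ.trans ?_
    rw [div_le_one (by positivity)]
    exact one_le_pow₀ hQ1
  have hlQ : (1 + ((2 ^ L * 4 ^ L : ℕ) : ℝ)) * Λ ≤ 2 * Λ * ((2 : ℝ) ^ L) ^ 3 := by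
    rw [hhQ]
    have : (1 : ℝ) ≤ ((2 : ℝ) ^ L) ^ 3 := one_le_pow₀ hQ1
    nlinarith
  have h3 : 2 * (δ * ((1 + ((2 ^ L * 4 ^ L : ℕ) : ℝ)) * Λ + 1 + δ)) ≤ Λ := by
    have hQ3 : (1 : ℝ) ≤ ((2 : ℝ) ^ L) ^ 3 := one_le_pow₀ hQ1
    have e1 : (1 + ((2 ^ L * 4 ^ L : ℕ) : ℝ)) * Λ + 1 + δ ≤ (2 * Λ + 2) * ((2 : ℝ) ^ L) ^ 3 := by
      nlinarith
    have e0 : 0 ≤ (1 + ((2 ^ L * 4 ^ L : ℕ) : ℝ)) * Λ + 1 + δ := by positivity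
    have e2 : δ * ((1 + ((2 ^ L * 4 ^ L : ℕ) : ℝ)) * Λ + 1 + δ) ≤ (2 * Λ + 2) / 2 ^ L := by
      calc δ * ((1 + ((2 ^ L * 4 ^ L : ℕ) : ℝ)) * Λ + 1 + δ) ≤
            (1 / ((2 : ℝ) ^ L) ^ (3 * M + 8)) * ((2 * Λ + 2) * ((2 : ℝ) ^ L) ^ 3) := by gcongr
        _ = (2 * Λ + 2) * ((2 : ℝ) ^ L) ^ 3 / ((2 : ℝ) ^ L) ^ (3 * M + 8) := by ring
        _ ≤ _ := a12_a hQ1 (by linarith) (by omega)
    have e3 : (2 * Λ + 2) / 2 ^ L ≤ 1 / 2 := by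
      rw [div_le_iff₀ hQ0]
      linarith
    linarith
  have hfin := finite2 hgood hS hM (m := m) (by linarith : (0 : ℝ) < Λ) hΛm hδ1 hs0 le_rfl h3 hsm
    le_rfl Ls hLs F hF
  refine hfin.mono ?_ hnorm
  have herr := a12_err (k * m) M _ (2 ^ L * 4 ^ L) (2 * (A * L)) E (η := η) (δ := δ)
    (l := k * ((1 + ((2 ^ L * 4 ^ L : ℕ) : ℝ)) * Λ + 1)) (Λ := k * (Λ + 1)) (c := c) hQ1 hc1 hs1 hη0
    (by rw [← hB]; exact hη) hδ0 hδQ (by positivity) (by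
      rw [hc]
      have hQ3 : (1 : ℝ) ≤ ((2 : ℝ) ^ L) ^ 3 := one_le_pow₀ hQ1
      have e1 : (1 + ((2 ^ L * 4 ^ L : ℕ) : ℝ)) * Λ + 1 ≤ (2 * Λ + 1) * ((2 : ℝ) ^ L) ^ 3 := by
        linarith
      have e2 := mul_le_mul_of_nonneg_left e1 hk0
      linarith) hhQ hwQ
  rw [← hκ] at herr
  have hfac : (3 : ℝ) ^ (M + 1) * ((k * (Λ + 1)) ^ (M + 1) / (M + 1).factorial) ≤
      ε / (16 * (1 + 2 * k)) := by
    rw [← mul_div_assoc, ← mul_pow]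
    exact h4
  have hκQ : (1 + 2 * (k : ℝ)) * (κ / 2 ^ L) ≤ ε / 8 := by
    rw [div_le_iff₀ hε] at b5
    rw [← mul_div_assoc, div_le_iff₀ hQ0]
    linarith
  have h1k : (0 : ℝ) < 1 + 2 * k := by linarith
  have hfac' : (1 + 2 * (k : ℝ)) * (2 * (3 ^ (M + 1) * ((k * (Λ + 1)) ^ (M + 1) /
      (M + 1).factorial))) ≤ ε / 8 := by
    calc (1 + 2 * (k : ℝ)) * (2 * (3 ^ (M + 1) * ((k * (Λ + 1)) ^ (M + 1) / (M + 1).factorial))) ≤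
          (1 + 2 * k) * (2 * (ε / (16 * (1 + 2 * k)))) := by gcongr
      _ = ε / 8 := by
          field_simp
          norm_num
  have := mul_le_mul_of_nonneg_left herr h1k.le
  rw [mul_add (1 + 2 * (k : ℝ))] at this
  linarith

end Pool.Agent.MP_ca1109_lc.Dnf.L
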