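import Pool.Agent.MP_ca1109_lc.Dnf.L.A12
import Pool.Agent.MP_ca1109_lc.Dnf.P2

/-!
# Lists of terms: from `L` to `n`
-/

namespace Pool.Agent.MP_ca1109_lc.Dnf.L

open Finset Filter

variable {n N : ℕ}

/- ROW A13.  PROOF (as P2 of version 1).  WLOG `0 < θ`, `L = ⌈(log₂ n)^θ⌉`, `r ≤ 2^L`.
* the terms wider than `4^L` are removed: `e : Fin N' → Fin N` the order embedding of `{j | |S_j| ≤ 4^L}`, `T' = T ∘ e`, `L' l` = the preimages of the entries of `L l` in this set, `F' = F ∘ map e`;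
  `|f - f'| ≤ ∑_{removed} t_j` (if no removed term is true `first m T (L l) x = (first m T' (L' l) x).map e`), `E ≤ N 2^(-4^L) ≤ ε/4`, `L1 ≤ N`: `sand_pert`.
  `Spread r q γ` passes to `T'` and from `r` to `2^L` (monotone in `r`).
* `core2` with `ε/2`; `(N+1)^C (CL)^(CL^2) ≤ n^(C')` as in `P2` (`N ≤ n^a`). -/

theorem a13_four {θ : ℝ} (h0 : 0 < θ) (c : ℝ) (hc : 0 < c) :
    ∀ᶠ x : ℝ in atTop, c * x ≤ 4 ^ ⌈x ^ θ⌉₊ := by
  filter_upwards [log_le (Real.log c) 1 h0 one_pos, eventually_gt_atTop 0] with x h4 hx0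
  have hL1 : x ^ θ ≤ ⌈x ^ θ⌉₊ := Nat.le_ceil _
  have h6 : c * x ≤ Real.exp (x ^ θ) := by
    rw [← Real.log_le_iff_le_exp (by positivity), Real.log_mul hc.ne' hx0.ne']
    linarith
  have h7 : Real.exp (x ^ θ) ≤ Real.exp ⌈x ^ θ⌉₊ := Real.exp_le_exp.2 hL1
  have h8 : Real.exp ⌈x ^ θ⌉₊ ≤ 4 ^ ⌈x ^ θ⌉₊ := by
    rw [← Real.exp_one_pow]
    gcongr
    linarith [Real.exp_one_lt_d9]
  exact h6.trans (h7.trans h8)

theorem a13_spread {r r' q : ℕ} {γ : ℝ} {T : Fin N → Term n} (hT : Spread r q γ T) (hr : r ≤ r')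
    {N' : ℕ} (e : Fin N' → Fin N) (he : Function.Injective e) :
    Spread r' q γ (fun i => T (e i)) where
  γ0 := hT.γ0
  γ1 := hT.γ1
  read v w := by
    have h1 : (univ.filter fun i => v ∈ (T (e i)).S ∧ (T (e i)).S.card = w).card ≤
        (univ.filter fun j => v ∈ (T j).S ∧ (T j).S.card = w).card :=
      card_le_card_of_injOn e (fun i hi => by simpa using hi) he.injOn
    have h2 : ((univ.filter fun i => v ∈ (T (e i)).S ∧ (T (e i)).S.card = w).card : ℝ) ≤
        ((univ.filter fun j => v ∈ (T j).S ∧ (T j).S.card = w).card : ℝ) := by exact_mod_cast h1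
    have h3 : (r : ℝ) ≤ r' := by exact_mod_cast hr
    refine h2.trans ((hT.read v w).trans ?_)
    exact mul_le_mul_of_nonneg_right h3 (by positivity)
  ovl j := by
    have h1 : (univ.filter fun i => min (T (e i)).S.card (T (e j)).S.card <
          q * ((T (e i)).S ∩ (T (e j)).S).card).card ≤
        (univ.filter fun i => min (T i).S.card (T (e j)).S.card <
          q * ((T i).S ∩ (T (e j)).S).card).card :=
      card_le_card_of_injOn e (fun i hi => by simpa using hi) he.injOn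
    exact h1.trans ((hT.ovl (e j)).trans (Nat.mul_le_mul_right _ hr))

open Classical in
/-- The entries of the list in the range of `e`. -/
noncomputable def a13_pre {s : Finset (Fin N)} (e : Fin s.card ≃ s) (L : List (Fin N)) :
    List (Fin s.card) :=
  L.filterMap fun j => if h : j ∈ s then some (e.symm ⟨j, h⟩) else none

theorem a13_nodup {s : Finset (Fin N)} (e : Fin s.card ≃ s) {L : List (Fin N)} (hL : L.Nodup) :
    (a13_pre e L).Nodup := by
  classical
  unfold a13_pre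
  refine hL.filterMap ?_
  intro j j' i hi hi'
  by_cases h : j ∈ s
  · by_cases h' : j' ∈ s
    · rw [dif_pos h] at hi
      rw [dif_pos h'] at hi'
      have h1 : e.symm ⟨j, h⟩ = i := by simpa using hi
      have h2 : e.symm ⟨j', h'⟩ = i := by simpa using hi'
      have h3 := e.symm.injective (h1.trans h2.symm)
      exact congrArg Subtype.val h3
    · rw [dif_neg h'] at hi'
      simp at hi'
  · rw [dif_neg h] at hi
    simp at hi

open Classical in
theorem a13_map {s : Finset (Fin N)} (e : Fin s.card ≃ s) (L : List (Fin N)) :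
    (a13_pre e L).map (fun i => (e i : Fin N)) = L.filter fun j => decide (j ∈ s) := by
  unfold a13_pre
  induction L with
  | nil => rfl
  | cons j L ih =>
    by_cases h : j ∈ s
    · rw [List.filterMap_cons_some (b := e.symm ⟨j, h⟩) (by rw [dif_pos h]), List.map_cons, ih,
        List.filter_cons_of_pos (by simpa using h), Equiv.apply_symm_apply]
    · rw [List.filterMap_cons_none (by rw [dif_neg h]), ih,
        List.filter_cons_of_neg (by simpa using h)]

theorem a13_first {m : ℕ} {T : Fin N → Term n} {s : Finset (Fin N)} (e : Fin s.card ≃ s)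
    (L : List (Fin N)) {x : Cube n} (hx : ∀ j, j ∉ s → ¬ (T j).Sat x) :
    (first m (fun i => T (e i)) (a13_pre e L) x).map (fun i => (e i : Fin N)) = first m T L x := by
  classical
  unfold first
  rw [List.map_take]
  congr 1
  have h1 : ((a13_pre e L).filter fun i => decide ((T (e i)).Sat x)).map (fun i => (e i : Fin N)) =
      ((a13_pre e L).map (fun i => (e i : Fin N))).filter fun j => decide ((T j).Sat x) := by
    rw [List.filter_map]
    rfl
  rw [h1, a13_map, List.filter_filter]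
  refine List.filter_congr fun j _ => ?_
  by_cases hj : j ∈ s
  · simp [hj]
  · simp [hj, hx j hj]

/-- Without the terms of width more than `w`. -/
theorem a13_cut {k m : ℕ} (T : Fin N → Term n) (w : ℕ) :
    ∃ (N₁ : ℕ) (e : Fin N₁ → Fin N), N₁ ≤ N ∧ Function.Injective e ∧
      (∀ i, (T (e i)).S.card ≤ w) ∧ ∀ ε M : ℝ, ∀ (Ls : Fin k → List (Fin N)),
        (∀ l, (Ls l).Nodup) → ∀ F : (Fin k → List (Fin N)) → ℝ, (∀ s, 0 ≤ F s ∧ F s ≤ 1) →
        (∀ (Ls' : Fin k → List (Fin N₁)), (∀ l, (Ls' l).Nodup) →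
          ∀ F' : (Fin k → List (Fin N₁)) → ℝ, (∀ s, 0 ≤ F' s ∧ F' s ≤ 1) →
          Sand ε M (fun x => F' fun l => first m (fun i => T (e i)) (Ls' l) x)) →
        Sand (ε + 2 * (N * (1 / 2) ^ w)) (M + N) (fun x => F fun l => first m T (Ls l) x) := by
  classical
  obtain ⟨s, hs⟩ : ∃ s : Finset (Fin N), s = univ.filter fun j => (T j).S.card ≤ w := ⟨_, rfl⟩
  have hmem : ∀ j, j ∈ s ↔ (T j).S.card ≤ w := fun j => by simp [hs]
  let e : Fin s.card ≃ s := s.equivFin.symm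
  refine ⟨s.card, fun i => (e i : Fin N), by simpa using card_le_univ s,
    fun i i' h => e.injective (Subtype.ext h), fun i => (hmem _).1 (e i).2, ?_⟩
  intro ε M Ls hLs F hF hsand
  have hg := hsand (fun l => a13_pre e (Ls l)) (fun l => a13_nodup e (hLs l))
    (fun t => F fun l => (t l).map fun i => (e i : Fin N)) (fun t => hF _)
  have hcard : (sᶜ.card : ℝ) ≤ N := by
    have := card_le_univ sᶜ
    rw [Fintype.card_fin] at this
    exact_mod_cast this
  have hu : Sand 0 N (fun x => ∑ j ∈ sᶜ, (T j).f x) := by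
    refine Sand.of_L1 ((L1_sum _ _).trans ?_)
    calc ∑ j ∈ sᶜ, L1 (fun x => (T j).f x) ≤ ∑ j ∈ sᶜ, (1 : ℝ) :=
          sum_le_sum fun j _ => L1_term (T j)
      _ = sᶜ.card := by simp
      _ ≤ N := hcard
  have hE : E (fun x => ∑ j ∈ sᶜ, (T j).f x) ≤ N * (1 / 2) ^ w := by
    rw [E_sum]
    calc ∑ j ∈ sᶜ, E (fun x => (T j).f x) ≤ ∑ j ∈ sᶜ, (1 / 2 : ℝ) ^ w := by
          refine sum_le_sum fun j hj => ?_
          rw [show (fun x => (T j).f x) = (T j).f from rfl, E_term]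
          rw [mem_compl, hmem] at hj
          exact pow_le_pow_of_le_one (by norm_num) (by norm_num) (by omega)
      _ = sᶜ.card * (1 / 2) ^ w := by rw [sum_const, nsmul_eq_mul]
      _ ≤ N * (1 / 2) ^ w := mul_le_mul_of_nonneg_right hcard (by positivity)
  have hfin := sand_pert hg hu hE (f := fun x => F fun l => first m T (Ls l) x) fun x => by
    by_cases hx : ∀ j, j ∉ s → ¬ (T j).Sat x
    · have h1 : (fun l => (first m (fun i => T (e i)) (a13_pre e (Ls l)) x).map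
          fun i => (e i : Fin N)) = fun l => first m T (Ls l) x := by
        funext l
        exact a13_first e (Ls l) hx
      change |F (fun l => first m T (Ls l) x) -
        F (fun l => (first m (fun i => T (e i)) (a13_pre e (Ls l)) x).map
          fun i => (e i : Fin N))| ≤ ∑ j ∈ sᶜ, (T j).f x
      rw [h1, sub_self, abs_zero]
      exact sum_nonneg fun j _ => one_nonneg _
    · push Not at hx
      obtain ⟨j, hj, hsat⟩ := hx
      have h1 : (1 : ℝ) ≤ ∑ j ∈ sᶜ, (T j).f x := by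
        have h2 : (T j).f x ≤ ∑ j ∈ sᶜ, (T j).f x :=
          single_le_sum (f := fun j => (T j).f x) (fun j _ => one_nonneg _) (mem_compl.2 hj)
        have h3 : (T j).f x = 1 := one_true hsat
        linarith
      refine le_trans ?_ h1
      have a1 := hF fun l => first m T (Ls l) x
      have a2 := hF fun l => (first m (fun i => T (e i)) (a13_pre e (Ls l)) x).map
        fun i => (e i : Fin N)
      rw [abs_le]
      constructor
      · linarith [a1.1, a2.2]
      · linarith [a1.2, a2.1]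
  refine hfin.mono (le_of_eq ?_) le_rfl
  ring

theorem list_sand (k m a : ℕ) (θ : ℝ) (hθ : θ < 1 / 2) (γ : ℝ) (hγ0 : 0 ≤ γ) (hγ : γ < 1) (ε : ℝ) (hε : 0 < ε) :
    ∃ q C : ℕ, 2 ≤ q ∧ ∀ᶠ n : ℕ in atTop, ∀ (N r : ℕ) (T : Fin N → Term n), N ≤ n ^ a → Spread r q γ T →
      (r : ℝ) ≤ 2 ^ (Real.logb 2 n ^ θ) → ∀ (Ls : Fin k → List (Fin N)), (∀ l, (Ls l).Nodup) →
      ∀ F : (Fin k → List (Fin N)) → ℝ, (∀ s, 0 ≤ F s ∧ F s ≤ 1) →
        Sand ε ((n : ℝ) ^ C) (fun x => F fun l => first m T (Ls l) x) := by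
  obtain ⟨θ', hθ'0, hθ'1, hθθ'⟩ : ∃ θ' : ℝ, 0 < θ' ∧ θ' < 1 / 2 ∧ θ ≤ θ' :=
    ⟨max θ (1 / 4), lt_max_of_lt_right (by norm_num), max_lt hθ (by norm_num), le_max_left _ _⟩
  obtain ⟨q, C₀, L₀, hq, hcore⟩ := core2 k m γ hγ0 hγ (ε / 2) (by positivity)
  refine ⟨q, (a + 1) * C₀ + a + 2, hq, ?_⟩
  have hlim : Tendsto (fun n : ℕ => Real.logb 2 n) atTop atTop :=
    (Real.tendsto_logb_atTop (by norm_num)).comp tendsto_natCast_atTop_atTop
  have hlarge : ∀ᶠ n : ℕ in atTop, 4 / ε ≤ (n : ℝ) :=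
    tendsto_natCast_atTop_atTop.eventually (eventually_ge_atTop _)
  filter_upwards [hlim.eventually (asym hθ'0 hθ'1 C₀ L₀),
    hlim.eventually (a13_four hθ'0 ((a : ℝ) + 1) (by positivity)), hlarge,
    eventually_ge_atTop 2] with n hx hx3 hn1 hn2 N r T hNa hT hrle Ls hLs F hF
  obtain ⟨hx1, hxL, hxL2, _, hx4⟩ := hx
  obtain ⟨x, hxd⟩ : ∃ x : ℝ, x = Real.logb 2 n := ⟨_, rfl⟩
  rw [← hxd] at hx1 hxL hxL2 hx3 hx4 hrle
  obtain ⟨L, hL⟩ : ∃ L : ℕ, L = ⌈x ^ θ'⌉₊ := ⟨_, rfl⟩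
  rw [← hL] at hxL hxL2 hx3 hx4
  have hn2' : (2 : ℝ) ≤ n := by exact_mod_cast hn2
  have hn0 : (0 : ℝ) < n := by linarith
  have hnx : (2 : ℝ) ^ x = n := by rw [hxd, Real.rpow_logb (by norm_num) (by norm_num) hn0]
  rw [hnx] at hx4
  have hrL : r ≤ 2 ^ L := by
    have h1 : (r : ℝ) ≤ 2 ^ (L : ℝ) := by
      refine hrle.trans (Real.rpow_le_rpow_of_exponent_le (by norm_num) ?_)
      refine (Real.rpow_le_rpow_of_exponent_le hx1 hθθ').trans ?_
      rw [hL]
      exact Nat.le_ceil _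
    rw [Real.rpow_natCast] at h1
    exact_mod_cast h1
  have hN : (N : ℝ) ≤ (n : ℝ) ^ a := by exact_mod_cast hNa
  obtain ⟨N₁, e, hN₁, he, hw, hcut⟩ := a13_cut (k := k) (m := m) T (4 ^ L)
  have hc := hcut (ε / 2) (((N₁ : ℝ) + 1) ^ C₀ * (C₀ * L : ℝ) ^ (C₀ * L ^ 2)) Ls hLs F hF
    fun Ls' hLs' F' hF' => hcore L hxL n N₁ (fun i => T (e i)) (a13_spread hT hrL e he) hw Ls' hLs'
      F' hF'
  refine hc.mono ?_ ?_
  · have h3 : (1 / 2 : ℝ) ^ (4 ^ L) ≤ 1 / (n : ℝ) ^ (a + 1) := by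
      have h4 : (n : ℝ) ^ (a + 1) ≤ 2 ^ (4 ^ L) := by
        calc (n : ℝ) ^ (a + 1) = (2 : ℝ) ^ (((a : ℝ) + 1) * x) := by
              rw [← hnx, ← Real.rpow_natCast, ← Real.rpow_mul (by norm_num)]
              congr 1
              push_cast
              ring
          _ ≤ (2 : ℝ) ^ (((4 ^ L : ℕ) : ℝ)) :=
              Real.rpow_le_rpow_of_exponent_le (by norm_num) (by push_cast; exact hx3)
          _ = 2 ^ (4 ^ L) := Real.rpow_natCast _ _
      rw [one_div_pow]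
      exact one_div_le_one_div_of_le (by positivity) h4
    have h5 : (N : ℝ) * (1 / 2) ^ (4 ^ L) ≤ ε / 4 := by
      calc (N : ℝ) * (1 / 2) ^ (4 ^ L) ≤ (n : ℝ) ^ a * (1 / (n : ℝ) ^ (a + 1)) :=
            mul_le_mul hN h3 (by positivity) (by positivity)
        _ = 1 / (n : ℝ) := by field_simp; ring
        _ ≤ ε / 4 := by
            rw [div_le_iff₀ hε] at hn1
            rw [div_le_iff₀ hn0]
            linarith
    linarith
  · have hN₁' : (N₁ : ℝ) ≤ (n : ℝ) ^ a := le_trans (by exact_mod_cast hN₁) hN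
    have h0 : (1 : ℝ) ≤ (n : ℝ) ^ a := one_le_pow₀ (by linarith)
    have h6 : (N₁ : ℝ) + 1 ≤ (n : ℝ) ^ (a + 1) := by
      rw [pow_succ]
      nlinarith
    have h7 : ((N₁ : ℝ) + 1) ^ C₀ * (C₀ * L : ℝ) ^ (C₀ * L ^ 2) ≤ ((n : ℝ) ^ (a + 1)) ^ C₀ * n :=
      mul_le_mul (pow_le_pow_left₀ (by positivity) h6 _) hx4 (by positivity) (by positivity)
    have h8 : ((n : ℝ) ^ (a + 1)) ^ C₀ * n = (n : ℝ) ^ ((a + 1) * C₀ + 1) := by
      rw [← pow_mul, pow_succ]
    have h9 : (n : ℝ) ^ ((a + 1) * C₀ + 1) ≤ (n : ℝ) ^ ((a + 1) * C₀ + a + 1) :=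
      pow_le_pow_right₀ (by linarith) (by omega)
    have h10 : (n : ℝ) ^ a ≤ (n : ℝ) ^ ((a + 1) * C₀ + a + 1) :=
      pow_le_pow_right₀ (by linarith) (by omega)
    have h11 : 2 * (n : ℝ) ^ ((a + 1) * C₀ + a + 1) ≤ (n : ℝ) ^ ((a + 1) * C₀ + a + 2) := by
      calc 2 * (n : ℝ) ^ ((a + 1) * C₀ + a + 1) ≤ n * (n : ℝ) ^ ((a + 1) * C₀ + a + 1) :=
            mul_le_mul_of_nonneg_right hn2' (by positivity)
        _ = (n : ℝ) ^ ((a + 1) * C₀ + a + 2) := by rw [← pow_succ']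
    linarith

end Pool.Agent.MP_ca1109_lc.Dnf.L
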