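import Pool.Agent.MP_ca1109_lc.Dnf.L.Defs

/-!
# Decision trees whose leaves have sandwiches
-/

namespace Pool.Agent.MP_ca1109_lc.Dnf.L

open Finset

variable {n N : ℕ}

/-- `f` is computed by a decision tree of depth at most `d` (which queries variables outside `V`,
on every path at most once); the leaf which is reached after the variables in `V'` were queried is
labelled by a function in `𝒯 (V ∪ V')`. -/
inductive DTree (𝒯 : Finset (Fin n) → ((Fin n → Bool) → Bool) → Prop) :
    Finset (Fin n) → ℕ → ((Fin n → Bool) → Bool) → Prop
  | leaf {V : Finset (Fin n)} {d : ℕ} {f : (Fin n → Bool) → Bool} (h : 𝒯 V f) : DTree 𝒯 V d f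
  | node {V : Finset (Fin n)} {d : ℕ} {f g : (Fin n → Bool) → Bool} (i : Fin n) (hi : i ∉ V)
      (hf : DTree 𝒯 (insert i V) d f) (hg : DTree 𝒯 (insert i V) d g) :
      DTree 𝒯 V (d + 1) (fun x => if x i then f x else g x)

theorem a14_leaf {ε M : ℝ} {f : (Fin n → Bool) → Bool} (V : Finset (Fin n)) (b : Cube n)
    (h : Sand ε M (fun x => one (f (mix V b x) = true))) :
    Sand (ε * (1 / 2) ^ V.card) M (fun x => (Term.mk V b).f x * one (f x = true)) := by
  classical
  have hon : On Vᶜ (fun x : Cube n => one (f (mix V b x) = true)) := by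
    intro x y hxy
    have : mix V b x = mix V b y := by
      funext i
      unfold mix
      split_ifs with hi
      · rfl
      · exact hxy i (Finset.mem_compl.2 hi)
    simp only [this]
  obtain ⟨lo, up, hlo, hup, hlu, hE, hL, hU⟩ := h.proj hon
  have heq : ∀ x, (Term.mk V b).f x * one (f x = true) =
      (Term.mk V b).f x * one (f (mix V b x) = true) := by
    intro x
    by_cases hx : (Term.mk V b).Sat x
    · have : mix V b x = x := by
        funext i
        unfold mix
        split_ifs with hi
        · exact (hx i hi).symm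
        · rfl
      rw [this]
    · unfold Term.f
      rw [one_false hx, zero_mul, zero_mul]
  have ht0 : ∀ x, 0 ≤ (Term.mk V b).f x := fun x => one_nonneg _
  have hM0 : 0 ≤ M := (L1_nonneg lo).trans hL
  refine ⟨fun x => (Term.mk V b).f x * lo x, fun x => (Term.mk V b).f x * up x, fun x => ?_, ?_, ?_, ?_⟩
  · simp only [heq]
    exact ⟨mul_le_mul_of_nonneg_left (hlu x).1 (ht0 x), mul_le_mul_of_nonneg_left (hlu x).2 (ht0 x)⟩
  · have hd : Disjoint V Vᶜ := disjoint_compl_right
    rw [E_indep hd (on_term (Term.mk V b)) hup, E_indep hd (on_term (Term.mk V b)) hlo, E_term,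
      ← mul_sub, mul_comm]
    exact mul_le_mul_of_nonneg_right hE (by positivity)
  · calc L1 (fun x => (Term.mk V b).f x * lo x) ≤ L1 (Term.mk V b).f * L1 lo := L1_mul _ _
      _ ≤ 1 * M := mul_le_mul (L1_term _) hL (L1_nonneg _) zero_le_one
      _ = M := one_mul _
  · calc L1 (fun x => (Term.mk V b).f x * up x) ≤ L1 (Term.mk V b).f * L1 up := L1_mul _ _
      _ ≤ 1 * M := mul_le_mul (L1_term _) hU (L1_nonneg _) zero_le_one
      _ = M := one_mul _

theorem a14_nonneg {ε M : ℝ} {f : Cube n → ℝ} (h : Sand ε M f) : 0 ≤ M := by
  obtain ⟨lo, -, -, -, hL, -⟩ := h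
  exact (L1_nonneg lo).trans hL

theorem a14_zero {ε M : ℝ} (hε : 0 ≤ ε) (hM : 0 ≤ M) : Sand ε M (fun _ : Cube n => (0 : ℝ)) := by
  refine ⟨fun _ => 0, fun _ => 0, fun x => ⟨le_rfl, le_rfl⟩, by simpa using hε, ?_, ?_⟩ <;>
  · rw [L1_const, abs_zero]
    exact hM

theorem a14_pos {ε M : ℝ} {f : Cube n → ℝ} (h : Sand ε M f) : 0 ≤ ε := by
  obtain ⟨lo, up, hlu, hE, -, -⟩ := h
  have : E lo ≤ E up := E_mono fun x => (hlu x).1.trans (hlu x).2
  linarith

theorem a14_tree {𝒯 : Finset (Fin n) → ((Fin n → Bool) → Bool) → Prop} {ε M : ℝ}
    (h : ∀ V f, 𝒯 V f → ∀ b : Cube n, Sand ε M (fun x => one (f (mix V b x) = true)))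
    {V : Finset (Fin n)} {d : ℕ} {f : (Fin n → Bool) → Bool} (hf : DTree 𝒯 V d f) : ∀ b : Cube n,
    Sand (ε * (1 / 2) ^ V.card) (2 ^ d * M) (fun x => (Term.mk V b).f x * one (f x = true)) := by
  classical
  induction hf with
  | @leaf V d f hf =>
    intro b
    have h1 := a14_leaf V b (h V f hf b)
    have hM := a14_nonneg h1
    refine h1.mono le_rfl ?_
    have : (1 : ℝ) ≤ 2 ^ d := one_le_pow₀ (by norm_num)
    nlinarith
  | @node V d f g i hi hf hg ihf ihg =>
    intro b
    · have h1 := (ihf (Function.update b i true)).add (ihg (Function.update b i false))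
      refine (h1.mono (ε' := ε * (1 / 2) ^ V.card) (M' := 2 ^ (d + 1) * M) ?_ ?_).congr fun x => ?_
      · rw [Finset.card_insert_of_notMem hi, pow_succ]
        apply le_of_eq
        ring
      · rw [pow_succ]
        apply le_of_eq
        ring
      · have hsat : ∀ c : Bool, (Term.mk (insert i V) (Function.update b i c)).Sat x ↔
            (Term.mk V b).Sat x ∧ x i = c := by
          intro c
          unfold Term.Sat
          constructor
          · intro hx
            refine ⟨fun j hj => ?_, ?_⟩
            · have hji : j ≠ i := fun h => hi (h ▸ hj)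
              have h5 : x j = Function.update b i c j := hx j (Finset.mem_insert_of_mem hj)
              rwa [Function.update_of_ne hji] at h5
            · have h5 : x i = Function.update b i c i := hx i (Finset.mem_insert_self _ _)
              rwa [Function.update_self] at h5
          · rintro ⟨hx, hc⟩ j hj
            show x j = Function.update b i c j
            rcases Finset.mem_insert.1 hj with rfl | hj
            · rw [Function.update_self]
              exact hc
            · have hji : j ≠ i := fun h => hi (h ▸ hj)
              rw [Function.update_of_ne hji]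
              exact hx j hj
        unfold Term.f
        by_cases hx : (Term.mk V b).Sat x
        · cases hxi : x i with
          | true =>
            have e1 : one ((Term.mk (insert i V) (Function.update b i true)).Sat x) = 1 :=
              one_true ((hsat true).2 ⟨hx, hxi⟩)
            have e2 : one ((Term.mk (insert i V) (Function.update b i false)).Sat x) = 0 :=
              one_false fun h => by
                have h6 := ((hsat false).1 h).2
                rw [hxi] at h6
                exact absurd h6 (by decide)
            rw [e1, e2, one_true hx, one_mul, zero_mul, add_zero, one_mul]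
            simp [hxi]
          | false =>
            have e1 : one ((Term.mk (insert i V) (Function.update b i true)).Sat x) = 0 :=
              one_false fun h => by
                have h6 := ((hsat true).1 h).2
                rw [hxi] at h6
                exact absurd h6 (by decide)
            have e2 : one ((Term.mk (insert i V) (Function.update b i false)).Sat x) = 1 :=
              one_true ((hsat false).2 ⟨hx, hxi⟩)
            rw [e1, e2, one_true hx, one_mul, zero_mul, zero_add, one_mul]
            simp [hxi]
        · rw [one_false fun h => hx ((hsat true).1 h).1, one_false fun h => hx ((hsat false).1 h).1,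
            one_false hx]
          simp

theorem dtree_sand {𝒯 : Finset (Fin n) → ((Fin n → Bool) → Bool) → Prop} {ε M : ℝ}
    (h : ∀ V f, 𝒯 V f → ∀ b : Cube n, Sand ε M (fun x => one (f (mix V b x) = true)))
    {d : ℕ} {f : (Fin n → Bool) → Bool} (hf : DTree 𝒯 ∅ d f) :
    Sand ε (2 ^ d * M) (fun x => one (f x = true)) := by
  have h1 := a14_tree h hf (fun _ => false)
  rw [Finset.card_empty, pow_zero, mul_one] at h1
  refine h1.congr fun x => ?_
  have h2 : (Term.mk (∅ : Finset (Fin n)) (fun _ => false)).Sat x := fun i hi =>
    absurd hi (Finset.notMem_empty i)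
  unfold Term.f
  rw [one_true h2, one_mul]

theorem restrict {k m : ℕ} (T : Fin N → Term n) (Ls : Fin k → List (Fin N)) (hL : ∀ l, (Ls l).Nodup)
    (V : Finset (Fin n)) (b : Cube n) :
    ∃ (T' : Fin N → Term n) (Ls' : Fin k → List (Fin N)), (∀ j, (T' j).S ⊆ (T j).S) ∧ (∀ l, (Ls' l).Nodup) ∧
      ∀ l x, first m T (Ls l) (mix V b x) = first m T' (Ls' l) x := by
  classical
  refine ⟨fun j => ⟨(T j).S \ V, (T j).a⟩,
    fun l => (Ls l).filter fun j => decide (∀ i ∈ (T j).S, i ∈ V → b i = (T j).a i),
    fun j => Finset.sdiff_subset, fun l => (hL l).filter _, fun l x => ?_⟩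
  unfold first
  rw [List.filter_filter]
  congr 1
  apply List.filter_congr
  intro j _
  rw [← Bool.decide_and, decide_eq_decide]
  unfold Term.Sat mix
  constructor
  · intro h
    refine ⟨fun i hi => ?_, fun i hi hV => ?_⟩
    · have := h i (Finset.mem_sdiff.1 hi).1
      rwa [if_neg (Finset.mem_sdiff.1 hi).2] at this
    · have := h i hi
      rwa [if_pos hV] at this
  · rintro ⟨h1, h2⟩ i hi
    by_cases hV : i ∈ V
    · rw [if_pos hV]
      exact h2 i hi hV
    · rw [if_neg hV]
      exact h1 i (Finset.mem_sdiff.2 ⟨hi, hV⟩)

end Pool.Agent.MP_ca1109_lc.Dnf.L
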