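import Pool.Agent.MP_ca1109_lc.Dnf.L.A13

/-!
# Lists of terms: the dependence on the read
-/

namespace Pool.Agent.MP_ca1109_lc.Dnf.L

open Finset Filter

variable {n N : ℕ}

/-- `(log r)^2 log log r` (base 2; it is `0` for `r ≤ 2`). -/
noncomputable def cost (r : ℕ) : ℝ := Real.logb 2 r ^ 2 * Real.logb 2 (Real.logb 2 r)

/- ROW A17.  PROOF.  `x = log₂ n`.  `q = max q₁ q₂`, where `q₁` is from `list_sand k m (a + 1) (1/3)` and
`q₂` from `core2` with `ε/2` (`Spread r q γ` is monotone: it implies `Spread r q' γ` for `q' ≤ q`).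
* Case 1: `r ≤ 2^(x^(1/3))`: `r + 1 ≤ n` for large `n`, so `N ≤ n^(a+1)`: `list_sand`; `2^(C cost r) ≥ 1`.
* Case 2: `r > 2^(x^(1/3))`: `y = log₂ r > x^(1/3)`, `L = ⌈y⌉₊` (so `L ≥ ⌈x^(1/3)⌉₊` and `L ≤ y + 1 ≤ 2y`,
  `L₀ ≤ L`, `4 ≤ y` for large `n`).  `r ≤ 2^L`.  Cut at `4^L` (`a13_cut`): the error is
  `2 N 2^(-4^L) ≤ 2 n^a 2r 2^(-4^L) ≤ ε/2`, since `4^L = 4^L/2 + 4^L/2 ≥ (a+2) x + (L+1)`
  (`a13_four` with `c = 2a+4`, and `4^L ≥ 2L+2`).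
  Norm: `(N+1)^C₀ ≤ (4 n^a r)^C₀`, `log₂ r ≤ cost r`, and `(C₀L)^(C₀L²) ≤ 2^(C₀ 4y² (log₂(2C₀) + log₂ y))
  ≤ 2^(C' cost r)` (`log₂ y ≥ 1`), plus `N` from `a13_cut`. -/

theorem a17_spread {r q q' : ℕ} {γ : ℝ} {T : Fin N → Term n} (hT : Spread r q γ T) (hq : q' ≤ q) :
    Spread r q' γ T where
  γ0 := hT.γ0
  γ1 := hT.γ1
  read := hT.read
  ovl j := by
    refine (card_le_card fun i hi => ?_).trans (hT.ovl j)
    rw [mem_filter] at hi ⊢
    exact ⟨hi.1, hi.2.trans_le (Nat.mul_le_mul_right _ hq)⟩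

theorem cost_nonneg (r : ℕ) : 0 ≤ cost r := by
  unfold cost
  refine mul_nonneg (sq_nonneg _) ?_
  rcases Nat.lt_or_ge r 2 with h | h
  · interval_cases r <;> simp
  · apply Real.logb_nonneg (by norm_num)
    have hr : (0 : ℝ) < r := by
      have : 0 < r := by omega
      exact_mod_cast this
    rw [Real.le_logb_iff_rpow_le (by norm_num) hr, Real.rpow_one]
    exact_mod_cast h

theorem a17_norm {C₀ L : ℕ} {y : ℝ} (hy : 4 ≤ y) (hL : (L : ℝ) ≤ 2 * y) :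
    (C₀ * L : ℝ) ^ (C₀ * L ^ 2) ≤
      2 ^ ((4 * C₀ * (2 * C₀ + 3) : ℝ) * (y ^ 2 * Real.logb 2 y)) := by
  have hC : (0 : ℝ) ≤ C₀ := Nat.cast_nonneg _
  have hLn : (0 : ℝ) ≤ L := Nat.cast_nonneg _
  have hy0 : (0 : ℝ) < y := by linarith
  obtain ⟨D, hD⟩ : ∃ D : ℝ, D = 2 * C₀ + 2 := ⟨_, rfl⟩
  have hD2 : 2 ≤ D := by linarith
  have hD0 : 0 < D := by linarith
  have h1 : (C₀ * L : ℝ) ≤ D * y := by
    have e1 : (C₀ * L : ℝ) ≤ C₀ * (2 * y) := mul_le_mul_of_nonneg_left hL hC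
    nlinarith
  have hDy : 1 ≤ D * y := by nlinarith
  have h2 : (C₀ * L : ℝ) ^ (C₀ * L ^ 2) ≤ (D * y) ^ (C₀ * L ^ 2) :=
    pow_le_pow_left₀ (by positivity) h1 _
  have h3 : (D * y) ^ (C₀ * L ^ 2) ≤ (D * y) ^ (C₀ * (4 * y ^ 2) : ℝ) := by
    rw [← Real.rpow_natCast]
    apply Real.rpow_le_rpow_of_exponent_le hDy
    push_cast
    have e1 : (L : ℝ) ^ 2 ≤ (2 * y) ^ 2 := pow_le_pow_left₀ hLn hL 2
    have e2 : (L : ℝ) ^ 2 ≤ 4 * y ^ 2 := by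
      calc (L : ℝ) ^ 2 ≤ (2 * y) ^ 2 := e1
        _ = 4 * y ^ 2 := by ring
    exact mul_le_mul_of_nonneg_left e2 hC
  have hDy0 : 0 < D * y := mul_pos hD0 hy0
  have h4 : (D * y) ^ (C₀ * (4 * y ^ 2) : ℝ) =
      2 ^ (Real.logb 2 (D * y) * (C₀ * (4 * y ^ 2))) := by
    rw [Real.rpow_mul (show (0 : ℝ) ≤ 2 by norm_num),
      Real.rpow_logb (by norm_num) (by norm_num) hDy0]
  have hly : 1 ≤ Real.logb 2 y := by
    rw [Real.le_logb_iff_rpow_le (by norm_num) hy0, Real.rpow_one]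
    linarith
  have hlD : Real.logb 2 D ≤ 2 * C₀ + 2 := by
    rw [Real.logb_le_iff_le_rpow (by norm_num) hD0]
    have e1 : ((2 * C₀ + 2 : ℕ) : ℝ) ≤ ((2 ^ (2 * C₀ + 2) : ℕ) : ℝ) := by
      exact_mod_cast (Nat.lt_two_pow_self (n := 2 * C₀ + 2)).le
    have e2 : (2 : ℝ) ^ ((2 : ℝ) * C₀ + 2) = ((2 ^ (2 * C₀ + 2) : ℕ) : ℝ) := by
      push_cast
      rw [← Real.rpow_natCast]
      congr 1
      push_cast
      ring
    rw [e2, hD]
    refine le_trans (le_of_eq ?_) e1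
    push_cast
    ring
  have h5 : Real.logb 2 (D * y) ≤ (2 * C₀ + 3) * Real.logb 2 y := by
    rw [Real.logb_mul hD0.ne' hy0.ne']
    nlinarith
  rw [h4] at h3
  refine h2.trans (h3.trans ?_)
  apply Real.rpow_le_rpow_of_exponent_le (by norm_num)
  have h6 : (0 : ℝ) ≤ C₀ * (4 * y ^ 2) := by positivity
  calc Real.logb 2 (D * y) * (C₀ * (4 * y ^ 2)) ≤
        ((2 * C₀ + 3) * Real.logb 2 y) * (C₀ * (4 * y ^ 2)) := mul_le_mul_of_nonneg_right h5 h6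
    _ = _ := by ring

/-- The two summands of the norm. -/
theorem a17_sum {n a C₀ C₁ C₂ : ℕ} {c A B : ℝ} (hn : 2 ≤ (n : ℝ)) (hc : 0 ≤ c)
    (hA : A ≤ (n : ℝ) ^ (a * C₀) * 2 ^ ((2 * C₀ + C₂ : ℝ) * c))
    (hB : B ≤ (n : ℝ) ^ a * 2 ^ (2 * c)) :
    A + B ≤ (n : ℝ) ^ (C₁ + (a * C₀ + a + 1) + (2 * C₀ + C₂ + 2)) *
      2 ^ (((C₁ + (a * C₀ + a + 1) + (2 * C₀ + C₂ + 2) : ℕ) : ℝ) * c) := by
  have hn1 : (1 : ℝ) ≤ n := by linarith
  have hn0 : (0 : ℝ) < n := by linarith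
  obtain ⟨K, hK⟩ : ∃ K : ℕ, K = C₁ + (a * C₀ + a + 1) + (2 * C₀ + C₂ + 2) := ⟨_, rfl⟩
  rw [← hK]
  have e1 : (2 : ℝ) ^ ((2 * C₀ + C₂ : ℝ) * c) ≤ 2 ^ ((K : ℝ) * c) := by
    apply Real.rpow_le_rpow_of_exponent_le (by norm_num)
    refine mul_le_mul_of_nonneg_right ?_ hc
    have : 2 * C₀ + C₂ ≤ K := by omega
    exact_mod_cast this
  have e2 : (2 : ℝ) ^ (2 * c) ≤ 2 ^ ((K : ℝ) * c) := by
    apply Real.rpow_le_rpow_of_exponent_le (by norm_num)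
    refine mul_le_mul_of_nonneg_right ?_ hc
    have : 2 ≤ K := by omega
    exact_mod_cast this
  have e3 : (n : ℝ) ^ (a * C₀) ≤ (n : ℝ) ^ (a * C₀ + a) := pow_le_pow_right₀ hn1 (by omega)
  have e4 : (n : ℝ) ^ a ≤ (n : ℝ) ^ (a * C₀ + a) := pow_le_pow_right₀ hn1 (by omega)
  have hP : (0 : ℝ) < 2 ^ ((K : ℝ) * c) := Real.rpow_pos_of_pos (by norm_num) _
  have hA' : A ≤ (n : ℝ) ^ (a * C₀ + a) * 2 ^ ((K : ℝ) * c) :=
    hA.trans (mul_le_mul e3 e1 (Real.rpow_nonneg (by norm_num) _) (by positivity))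
  have hB' : B ≤ (n : ℝ) ^ (a * C₀ + a) * 2 ^ ((K : ℝ) * c) :=
    hB.trans (mul_le_mul e4 e2 (Real.rpow_nonneg (by norm_num) _) (by positivity))
  have e5 : 2 * (n : ℝ) ^ (a * C₀ + a) ≤ (n : ℝ) ^ K := by
    calc 2 * (n : ℝ) ^ (a * C₀ + a) ≤ n * (n : ℝ) ^ (a * C₀ + a) :=
          mul_le_mul_of_nonneg_right hn (by positivity)
      _ = (n : ℝ) ^ (a * C₀ + a + 1) := by rw [← pow_succ']
      _ ≤ (n : ℝ) ^ K := pow_le_pow_right₀ hn1 (by omega)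
  have e6 := mul_le_mul_of_nonneg_right e5 hP.le
  linarith

theorem list_sand2 (k m a : ℕ) (γ : ℝ) (hγ0 : 0 ≤ γ) (hγ : γ < 1) (ε : ℝ) (hε : 0 < ε) :
    ∃ q C : ℕ, 2 ≤ q ∧ ∀ᶠ n : ℕ in atTop, ∀ (N r : ℕ) (T : Fin N → Term n), N ≤ n ^ a * (r + 1) →
      Spread r q γ T → ∀ (Ls : Fin k → List (Fin N)), (∀ l, (Ls l).Nodup) →
      ∀ F : (Fin k → List (Fin N)) → ℝ, (∀ s, 0 ≤ F s ∧ F s ≤ 1) →
        Sand ε ((n : ℝ) ^ C * 2 ^ (C * cost r)) (fun x => F fun l => first m T (Ls l) x) := by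
  obtain ⟨q₁, C₁, hq₁, h1⟩ := list_sand k m (a + 1) (1 / 3) (by norm_num) γ hγ0 hγ ε hε
  obtain ⟨q₂, C₀, L₀, hq₂, hcore⟩ := core2 k m γ hγ0 hγ (ε / 2) (by positivity)
  refine ⟨max q₁ q₂, C₁ + (a * C₀ + a + 1) + (2 * C₀ + 4 * C₀ * (2 * C₀ + 3) + 2),
    hq₁.trans (le_max_left _ _), ?_⟩
  have hlim : Tendsto (fun n : ℕ => Real.logb 2 n) atTop atTop :=
    (Real.tendsto_logb_atTop (by norm_num)).comp tendsto_natCast_atTop_atTop
  have hlarge : ∀ᶠ n : ℕ in atTop, 4 / ε ≤ (n : ℝ) :=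
    tendsto_natCast_atTop_atTop.eventually (eventually_ge_atTop _)
  have h13 : (0 : ℝ) < 1 / 3 := by norm_num
  have hpow : ∀ᶠ x : ℝ in atTop, 4 ≤ x ^ (1 / 3 : ℝ) :=
    (tendsto_rpow_atTop h13).eventually (eventually_ge_atTop 4)
  have hlin : ∀ᶠ x : ℝ in atTop, x ^ (1 / 3 : ℝ) + 1 ≤ x := by
    filter_upwards [(tendsto_rpow_atTop (show (0 : ℝ) < 2 / 3 by norm_num)).eventually
      (eventually_ge_atTop 2), hpow, eventually_gt_atTop 0] with x e1 e2 e3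
    have e4 : x ^ (1 / 3 : ℝ) * x ^ (2 / 3 : ℝ) = x := by
      rw [← Real.rpow_add e3]
      norm_num
    nlinarith
  filter_upwards [h1, hlim.eventually (asym h13 (by norm_num) C₀ L₀),
    hlim.eventually (a13_four h13 (2 * ((a : ℝ) + 1)) (by positivity)), hlim.eventually hpow,
    hlim.eventually hlin, hlarge, eventually_ge_atTop 2] with
    n h1n hx hx3 hx4 hx5 hn1 hn2 N r T hN hT Ls hLs F hF
  obtain ⟨hx1, hxL, _, _, _⟩ := hx
  have hn2' : (2 : ℝ) ≤ n := by exact_mod_cast hn2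
  have hn0 : (0 : ℝ) < n := by linarith
  have hn1' : (1 : ℝ) ≤ n := by linarith
  have hcost := cost_nonneg r
  rcases le_or_gt (r : ℝ) (2 ^ (Real.logb 2 n ^ (1 / 3 : ℝ))) with hr | hr
  · -- small read
    have hnx : (2 : ℝ) ^ Real.logb 2 n = n :=
      Real.rpow_logb (by norm_num) (by norm_num) hn0
    have hr1 : (r : ℝ) + 1 ≤ n := by
      have e1 : (1 : ℝ) ≤ 2 ^ (Real.logb 2 n ^ (1 / 3 : ℝ)) :=
        Real.one_le_rpow (by norm_num) (Real.rpow_nonneg (by linarith) _)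
      have e2 : (2 : ℝ) ^ (Real.logb 2 n ^ (1 / 3 : ℝ)) * 2 ≤ 2 ^ Real.logb 2 n := by
        rw [← Real.rpow_add_one (by norm_num)]
        exact Real.rpow_le_rpow_of_exponent_le (by norm_num) hx5
      rw [hnx] at e2
      linarith
    have hN1 : N ≤ n ^ (a + 1) := by
      have hrn : r + 1 ≤ n := by exact_mod_cast hr1
      calc N ≤ n ^ a * (r + 1) := hN
        _ ≤ n ^ a * n := Nat.mul_le_mul_left _ hrn
        _ = n ^ (a + 1) := (pow_succ n a).symm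
    have h2 := h1n N r T hN1 (a17_spread hT (le_max_left _ _)) hr Ls hLs F hF
    refine h2.mono le_rfl ?_
    have e3 : (n : ℝ) ^ C₁ ≤
        (n : ℝ) ^ (C₁ + (a * C₀ + a + 1) + (2 * C₀ + 4 * C₀ * (2 * C₀ + 3) + 2)) :=
      pow_le_pow_right₀ hn1' (by omega)
    have e4 : (1 : ℝ) ≤ 2 ^
        (((C₁ + (a * C₀ + a + 1) + (2 * C₀ + 4 * C₀ * (2 * C₀ + 3) + 2) : ℕ) : ℝ) * cost r) :=
      Real.one_le_rpow (by norm_num) (mul_nonneg (Nat.cast_nonneg _) hcost)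
    calc (n : ℝ) ^ C₁ = (n : ℝ) ^ C₁ * 1 := (mul_one _).symm
      _ ≤ _ := mul_le_mul e3 e4 zero_le_one (by positivity)
  · -- large read
    obtain ⟨x, hxd⟩ : ∃ x : ℝ, x = Real.logb 2 n := ⟨_, rfl⟩
    rw [← hxd] at hx1 hxL hx3 hx4 hx5 hr
    have hnx : (2 : ℝ) ^ x = n := by
      rw [hxd, Real.rpow_logb (by norm_num) (by norm_num) hn0]
    have hr0 : (0 : ℝ) < r := lt_of_le_of_lt (Real.rpow_nonneg (by norm_num) _) hr
    obtain ⟨y, hy⟩ : ∃ y : ℝ, y = Real.logb 2 r := ⟨_, rfl⟩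
    have hry : (2 : ℝ) ^ y = r := by
      rw [hy, Real.rpow_logb (by norm_num) (by norm_num) hr0]
    have hxy : x ^ (1 / 3 : ℝ) < y := by
      rw [hy, Real.lt_logb_iff_rpow_lt (by norm_num) hr0]
      exact hr
    have hy4 : 4 ≤ y := by linarith
    obtain ⟨L, hL⟩ : ∃ L : ℕ, L = ⌈y⌉₊ := ⟨_, rfl⟩
    have hLy : y ≤ L := by rw [hL]; exact Nat.le_ceil _
    have hL2y : (L : ℝ) ≤ 2 * y := by
      have := Nat.ceil_lt_add_one (show 0 ≤ y by linarith)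
      rw [← hL] at this
      linarith
    have hceil : ⌈x ^ (1 / 3 : ℝ)⌉₊ ≤ L := by rw [hL]; exact Nat.ceil_mono hxy.le
    have hLL : L₀ ≤ L := hxL.trans hceil
    have hrL' : (r : ℝ) ≤ 2 ^ L := by
      rw [← hry, ← Real.rpow_natCast]
      exact Real.rpow_le_rpow_of_exponent_le (by norm_num) hLy
    have hrL : r ≤ 2 ^ L := by exact_mod_cast hrL'
    have hr16 : (16 : ℝ) ≤ r := by
      rw [← hry]
      calc (16 : ℝ) = 2 ^ (4 : ℝ) := by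
            rw [show (4 : ℝ) = ((4 : ℕ) : ℝ) by norm_num, Real.rpow_natCast]
            norm_num
        _ ≤ 2 ^ y := Real.rpow_le_rpow_of_exponent_le (by norm_num) hy4
    have hna1 : (1 : ℝ) ≤ (n : ℝ) ^ a := one_le_pow₀ hn1'
    have hNR : (N : ℝ) ≤ (n : ℝ) ^ a * (r + 1) := by exact_mod_cast hN
    obtain ⟨N₁, e, hN₁, he, hw, hcut⟩ := a13_cut (k := k) (m := m) T (4 ^ L)
    have hc := hcut (ε / 2) (((N₁ : ℝ) + 1) ^ C₀ * (C₀ * L : ℝ) ^ (C₀ * L ^ 2)) Ls hLs F hF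
      fun Ls' hLs' F' hF' => hcore L hLL n N₁ (fun i => T (e i))
        (a13_spread (a17_spread hT (le_max_right _ _)) hrL e he) hw Ls' hLs' F' hF'
    refine hc.mono ?_ ?_
    · have hL1 : (1 : ℝ) ≤ L := by linarith
      have e1 : 2 * ((L : ℝ) + 1) ≤ 4 ^ L := by
        have := one_add_mul_le_pow (show (-2 : ℝ) ≤ 3 by norm_num) L
        have e : (1 : ℝ) + 3 = 4 := by norm_num
        rw [e] at this
        linarith
      have e2 : 2 * ((a : ℝ) + 1) * x ≤ 4 ^ L :=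
        hx3.trans (pow_le_pow_right₀ (by norm_num) hceil)
      have hexp : ((a : ℝ) + 1) * x + ((L : ℝ) + 1) ≤ (4 : ℝ) ^ L := by linarith
      have e3 : (2 : ℝ) ^ ((L : ℝ) + 1) = 2 ^ (L + 1) := by
        rw [Real.rpow_add_one (by norm_num), Real.rpow_natCast, pow_succ]
      have e4 : (2 : ℝ) ^ (((a : ℝ) + 1) * x) = (n : ℝ) ^ a * n := by
        rw [mul_comm, Real.rpow_mul (by norm_num), hnx, Real.rpow_add_one hn0.ne',
          Real.rpow_natCast]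
      have hbig : (n : ℝ) ^ a * n * 2 ^ (L + 1) ≤ 2 ^ (4 ^ L) := by
        calc (n : ℝ) ^ a * n * 2 ^ (L + 1) = 2 ^ (((a : ℝ) + 1) * x + ((L : ℝ) + 1)) := by
              rw [Real.rpow_add (by norm_num), e3, e4]
          _ ≤ 2 ^ (((4 ^ L : ℕ) : ℝ)) :=
              Real.rpow_le_rpow_of_exponent_le (by norm_num) (by push_cast; exact hexp)
          _ = 2 ^ (4 ^ L) := Real.rpow_natCast _ _
      have hN2 : (N : ℝ) * n ≤ 2 ^ (4 ^ L) := by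
        refine le_trans ?_ hbig
        have e5 : (r : ℝ) + 1 ≤ 2 ^ (L + 1) := by
          rw [pow_succ]
          linarith
        calc (N : ℝ) * n ≤ ((n : ℝ) ^ a * (r + 1)) * n :=
              mul_le_mul_of_nonneg_right hNR hn0.le
          _ = (n : ℝ) ^ a * n * (r + 1) := by ring
          _ ≤ (n : ℝ) ^ a * n * 2 ^ (L + 1) := mul_le_mul_of_nonneg_left e5 (by positivity)
      have h5 : (N : ℝ) * (1 / 2) ^ (4 ^ L) ≤ 1 / n := by
        rw [one_div_pow, mul_one_div, div_le_div_iff₀ (by positivity) hn0, one_mul]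
        exact hN2
      have h6 : 1 / (n : ℝ) ≤ ε / 4 := by
        rw [div_le_iff₀ hε] at hn1
        rw [div_le_iff₀ hn0]
        linarith
      linarith
    · have hcy : cost r = y ^ 2 * Real.logb 2 y := by
        unfold cost
        rw [← hy]
      have hly : 1 ≤ Real.logb 2 y := by
        rw [Real.le_logb_iff_rpow_le (by norm_num) (by linarith), Real.rpow_one]
        linarith
      have hyc : y ≤ cost r := by
        rw [hcy]
        nlinarith [sq_nonneg y]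
      have e1 : (r : ℝ) ^ 2 = 2 ^ (2 * y) := by
        rw [mul_comm, Real.rpow_mul (by norm_num), hry]
        norm_num
      have hN2 : (N : ℝ) + 1 ≤ (n : ℝ) ^ a * 2 ^ (2 * cost r) := by
        have e2 : (2 : ℝ) ^ (2 * y) ≤ 2 ^ (2 * cost r) :=
          Real.rpow_le_rpow_of_exponent_le (by norm_num) (by linarith)
        have e3 : (r : ℝ) + 2 ≤ (r : ℝ) ^ 2 := by nlinarith
        calc (N : ℝ) + 1 ≤ (n : ℝ) ^ a * (r + 1) + (n : ℝ) ^ a := add_le_add hNR hna1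
          _ = (n : ℝ) ^ a * (r + 2) := by ring
          _ ≤ (n : ℝ) ^ a * 2 ^ (2 * cost r) := by
              refine mul_le_mul_of_nonneg_left ?_ (by positivity)
              rw [e1] at e3
              exact e3.trans e2
      have hN1' : (N₁ : ℝ) ≤ N := by exact_mod_cast hN₁
      have e2 : ((N₁ : ℝ) + 1) ^ C₀ ≤ ((n : ℝ) ^ a * 2 ^ (2 * cost r)) ^ C₀ :=
        pow_le_pow_left₀ (by positivity) (by linarith) _
      have e3 : ((n : ℝ) ^ a * 2 ^ (2 * cost r)) ^ C₀ =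
          (n : ℝ) ^ (a * C₀) * 2 ^ ((2 * C₀ : ℝ) * cost r) := by
        rw [mul_pow, ← pow_mul, ← Real.rpow_natCast ((2 : ℝ) ^ (2 * cost r)) C₀,
          ← Real.rpow_mul (by norm_num)]
        congr 2
        ring
      have e4 := a17_norm (C₀ := C₀) hy4 hL2y
      rw [← hcy] at e4
      have hA : ((N₁ : ℝ) + 1) ^ C₀ * (C₀ * L : ℝ) ^ (C₀ * L ^ 2) ≤
          (n : ℝ) ^ (a * C₀) *
            2 ^ ((2 * C₀ + ((4 * C₀ * (2 * C₀ + 3) : ℕ) : ℝ) : ℝ) * cost r) := by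
        calc ((N₁ : ℝ) + 1) ^ C₀ * (C₀ * L : ℝ) ^ (C₀ * L ^ 2) ≤
              ((n : ℝ) ^ (a * C₀) * 2 ^ ((2 * C₀ : ℝ) * cost r)) *
                2 ^ ((4 * C₀ * (2 * C₀ + 3) : ℝ) * cost r) := by
              refine mul_le_mul (e2.trans (le_of_eq e3)) e4 (by positivity) ?_
              exact mul_nonneg (by positivity) (Real.rpow_nonneg (by norm_num) _)
          _ = _ := by
              rw [mul_assoc, ← Real.rpow_add (by norm_num)]
              congr 2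
              push_cast
              ring
      have hB : (N : ℝ) ≤ (n : ℝ) ^ a * 2 ^ (2 * cost r) := by linarith
      exact a17_sum (C₁ := C₁) (C₂ := 4 * C₀ * (2 * C₀ + 3)) hn2' hcost hA hB

end Pool.Agent.MP_ca1109_lc.Dnf.L
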