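import Pool.Agent.MP_ca1109_lc.Dnf.L.A16
import Pool.Agent.MP_ca1109_lc.Dnf.L.A17
import Pool.Agent.MP_ca1109_lc.Dnf.Q1

/-!
# Functions with sandwiches: distributions of small bias, generators
-/

namespace Pool.Agent.MP_ca1109_lc.Dnf.L

open Finset Filter Pool.Agent.H66 Pool.Agent.MP_ca1109_lc.Mpg

variable {n N : ℕ}

/-- `μ` is a distribution on the cube with bias at most `β`. -/
structure Biased (β : ℝ) (μ : (Fin n → Bool) → ℝ) : Prop where
  nonneg : ∀ x, 0 ≤ μ x
  sum : ∑ x, μ x = 1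
  bias : ∀ S : Finset (Fin n), S.Nonempty → |∑ x, μ x * ch S x| ≤ β

/-- All distributions of bias at most `n ^ (-C) * 2 ^ (-C * cost r)`, for some `C`, fool the tests in
`𝒯 n r` with error at most `ε`, for all large `n` and all `r`. -/
def BiasFool (𝒯 : ∀ n : ℕ, ℕ → ((Fin n → Bool) → Bool) → Prop) (ε : ℝ) : Prop :=
  ∃ C : ℕ, ∀ᶠ n : ℕ in atTop, ∀ (r : ℕ) (μ : (Fin n → Bool) → ℝ),
    Biased ((n : ℝ) ^ C * 2 ^ (C * cost r))⁻¹ μ →
      ∀ T, 𝒯 n r T → |(∑ x, if T x = true then μ x else 0) - prob T| ≤ ε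

theorem Biased.fool {β : ℝ} {μ : Cube n → ℝ} (h : Biased β μ) (hβ : 0 ≤ β) (f : Cube n → ℝ) :
    |∑ x, μ x * f x - E f| ≤ β * L1 f := by
  classical
  have h1 : ∑ x, μ x * f x = ∑ S, fc f S * ∑ x, μ x * ch S x := by
    simp_rw [Finset.mul_sum]
    rw [Finset.sum_comm]
    refine Finset.sum_congr rfl fun x _ => ?_
    rw [inversion f x, Finset.mul_sum]
    refine Finset.sum_congr rfl fun S _ => ?_
    ring
  have h2 : ∑ x, μ x * ch ∅ x = 1 := by
    simp_rw [ch_empty, mul_one]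
    exact h.sum
  have h3 : ∑ x, μ x * f x - E f = ∑ S ∈ univ.erase ∅, fc f S * ∑ x, μ x * ch S x := by
    rw [h1, ← Finset.add_sum_erase _ _ (Finset.mem_univ (∅ : Finset (Fin n))), h2, fc_empty, mul_one]
    ring
  rw [h3]
  calc |∑ S ∈ univ.erase ∅, fc f S * ∑ x, μ x * ch S x|
      ≤ ∑ S ∈ univ.erase ∅, |fc f S * ∑ x, μ x * ch S x| := Finset.abs_sum_le_sum_abs _ _
    _ ≤ ∑ S ∈ univ.erase ∅, β * |fc f S| := by
        refine Finset.sum_le_sum fun S hS => ?_
        rw [abs_mul, mul_comm β]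
        exact mul_le_mul_of_nonneg_left
          (h.bias S (Finset.nonempty_iff_ne_empty.2 (Finset.mem_erase.1 hS).1)) (abs_nonneg _)
    _ ≤ ∑ S, β * |fc f S| := by
        refine Finset.sum_le_sum_of_subset_of_nonneg (Finset.erase_subset _ _) ?_
        intro S _ _
        positivity
    _ = β * L1 f := by
        unfold L1
        rw [Finset.mul_sum]

theorem prob_eq_E (T : (Fin n → Bool) → Bool) : prob T = E (fun x => one (T x = true)) := by
  rw [prob_eq_avg, ← q1_avg]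
  congr 1
  funext x
  exact q1_ind _

theorem Biased.sand {β ε M : ℝ} {μ : Cube n → ℝ} (h : Biased β μ) (hβ : 0 ≤ β) {T : (Fin n → Bool) → Bool}
    (hT : Sand ε M (fun x => one (T x = true))) :
    |(∑ x, if T x = true then μ x else 0) - prob T| ≤ ε + β * M := by
  classical
  obtain ⟨lo, up, hs, hE, hlo, hup⟩ := hT
  have e0 : (∑ x, if T x = true then μ x else 0) = ∑ x, μ x * one (T x = true) := by
    refine Finset.sum_congr rfl fun x _ => ?_
    by_cases hx : T x = true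
    · rw [if_pos hx, one_true hx, mul_one]
    · rw [if_neg hx, one_false hx, mul_zero]
  rw [e0, prob_eq_E]
  have b1 := (h.fool hβ lo).trans (mul_le_mul_of_nonneg_left hlo hβ)
  have b2 := (h.fool hβ up).trans (mul_le_mul_of_nonneg_left hup hβ)
  have e4 : E lo ≤ E (fun x => one (T x = true)) := E_mono fun x => (hs x).1
  have e5 : E (fun x => one (T x = true)) ≤ E up := E_mono fun x => (hs x).2
  have e6 : ∑ x, μ x * lo x ≤ ∑ x, μ x * one (T x = true) :=
    Finset.sum_le_sum fun x _ => mul_le_mul_of_nonneg_left (hs x).1 (h.nonneg x)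
  have e7 : ∑ x, μ x * one (T x = true) ≤ ∑ x, μ x * up x :=
    Finset.sum_le_sum fun x _ => mul_le_mul_of_nonneg_left (hs x).2 (h.nonneg x)
  rw [abs_le] at b1 b2 ⊢
  constructor <;> linarith [b1.1, b1.2, b2.1, b2.2]

/-- More variables. -/
theorem ch_res {m : ℕ} (h : n ≤ m) (S : Finset (Fin n)) (x : Cube m) :
    ch S (fun i => x (Fin.castLE h i)) = ch (S.map (Fin.castLEEmb h)) x := by
  unfold ch
  rw [Finset.prod_map]
  rfl

theorem E_res {m : ℕ} (h : n ≤ m) (f : Cube n → ℝ) :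
    E (fun x : Cube m => f fun i => x (Fin.castLE h i)) = E f := by
  classical
  have h1 : (fun x : Cube m => f fun i => x (Fin.castLE h i)) =
      fun x => ∑ S, fc f S * ch (S.map (Fin.castLEEmb h)) x := by
    funext x
    rw [inversion f]
    exact Finset.sum_congr rfl fun S _ => by rw [ch_res h]
  rw [h1, E_sum]
  have h2 : ∀ S : Finset (Fin n), E (fun x => fc f S * ch (S.map (Fin.castLEEmb h)) x) =
      if S = ∅ then fc f ∅ else 0 := by
    intro S
    rw [E_smul, E_ch]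
    by_cases hS : S = ∅
    · subst hS
      simp
    · rw [if_neg (by simpa using hS), if_neg hS, mul_zero]
  rw [Finset.sum_congr rfl fun S _ => h2 S, Finset.sum_ite_eq' univ ∅ fun _ => fc f ∅,
    if_pos (Finset.mem_univ _), fc_empty]

theorem L1_res {m : ℕ} (h : n ≤ m) (f : Cube n → ℝ) :
    L1 (fun x : Cube m => f fun i => x (Fin.castLE h i)) ≤ L1 f := by
  classical
  have h1 : (fun x : Cube m => f fun i => x (Fin.castLE h i)) =
      fun x => ∑ S, fc f S * ch (S.map (Fin.castLEEmb h)) x := by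
    funext x
    rw [inversion f]
    exact Finset.sum_congr rfl fun S _ => by rw [ch_res h]
  rw [h1]
  refine (L1_sum _ _).trans ?_
  unfold L1
  refine Finset.sum_le_sum fun S _ => ?_
  have h2 := L1_smul (fc f S) (ch (S.map (Fin.castLEEmb h)))
  rw [L1_ch, mul_one] at h2
  exact h2.le

theorem Sand.res {m : ℕ} (h : n ≤ m) {ε M : ℝ} {f : Cube n → ℝ} (hf : Sand ε M f) :
    Sand ε M (fun x : Cube m => f fun i => x (Fin.castLE h i)) := by
  obtain ⟨lo, up, hs, hE, hlo, hup⟩ := hf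
  refine ⟨fun x => lo fun i => x (Fin.castLE h i), fun x => up fun i => x (Fin.castLE h i),
    fun x => hs _, ?_, (L1_res h lo).trans hlo, (L1_res h up).trans hup⟩
  rw [E_res, E_res]
  exact hE

theorem rpow_cost {C : ℕ} {c x n : ℝ} (hn : 0 < n) (h : x ≤ c * Real.logb 2 n) :
    (2 : ℝ) ^ (C * x) ≤ n ^ (C * c) := by
  have e1 : n ^ (C * c) = 2 ^ (C * (c * Real.logb 2 n)) := by
    calc n ^ (C * c) = ((2 : ℝ) ^ Real.logb 2 n) ^ (C * c) := by
          rw [Real.rpow_logb (by norm_num) (by norm_num) hn]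
      _ = 2 ^ (Real.logb 2 n * (C * c)) := by rw [← Real.rpow_mul (by norm_num)]
      _ = _ := by congr 1; ring
  rw [e1]
  apply Real.rpow_le_rpow_of_exponent_le (by norm_num)
  exact mul_le_mul_of_nonneg_left h (Nat.cast_nonneg _)

/-- From sandwiches to distributions of small bias and to generators. -/
theorem fool_of_sand (𝒯 : ∀ n : ℕ, ℕ → ((Fin n → Bool) → Bool) → Prop) (ε : ℝ) (hε : 0 < ε) (C : ℕ)
    (h : ∀ᶠ n : ℕ in atTop, ∀ (r : ℕ) (T : (Fin n → Bool) → Bool), 𝒯 n r T →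
      Sand (ε / 2) ((n : ℝ) ^ C * 2 ^ (C * cost r)) (fun x => one (T x = true))) :
    BiasFool 𝒯 ε ∧
    (∀ c : ℕ, LogGen (fun n T => ∃ r : ℕ, cost r ≤ c * Real.logb 2 n ∧ 𝒯 n r T) ε) ∧
    ∀ r : ℕ → ℕ, SeedGen (fun n => 𝒯 n (r n)) (fun n => Real.logb 2 n + cost (r n)) ε := by
  classical
  refine ⟨⟨C + 1, ?_⟩, fun c => ?_, fun r => ?_⟩
  · have hlarge : ∀ᶠ n : ℕ in atTop, 2 / ε ≤ (n : ℝ) :=
      tendsto_natCast_atTop_atTop.eventually (eventually_ge_atTop _)
    filter_upwards [h, hlarge, eventually_gt_atTop 0] with n hn hn1 hn0 r μ hμ T hT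
    have hn0' : (0 : ℝ) < n := by exact_mod_cast hn0
    have hc := cost_nonneg r
    have h1 := hμ.sand (by positivity) (hn r T hT)
    refine h1.trans ?_
    have h2 : (1 : ℝ) ≤ 2 ^ (cost r) := Real.one_le_rpow (by norm_num) hc
    have h3 : (2 : ℝ) ^ (((C + 1 : ℕ) : ℝ) * cost r) = 2 ^ (C * cost r) * 2 ^ (cost r) := by
      rw [← Real.rpow_add (by norm_num)]
      congr 1
      push_cast
      ring
    have h4 : ((n : ℝ) ^ (C + 1) * 2 ^ (((C + 1 : ℕ) : ℝ) * cost r))⁻¹ *
        ((n : ℝ) ^ C * 2 ^ (C * cost r)) = 1 / (n * 2 ^ (cost r)) := by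
      rw [h3, pow_succ]
      have : (0 : ℝ) < 2 ^ (C * cost r) := by positivity
      have : (0 : ℝ) < 2 ^ (cost r) := by positivity
      field_simp
    have h5 : 1 / (n * (2 : ℝ) ^ (cost r)) ≤ ε / 2 := by
      rw [div_le_iff₀ (by positivity)]
      rw [div_le_iff₀ hε] at hn1
      have h6 : (n : ℝ) * 1 ≤ n * 2 ^ (cost r) := mul_le_mul_of_nonneg_left h2 hn0'.le
      nlinarith
    rw [h4]
    linarith
  · refine gen_of_sand _ (ε / 2) (C + C * c) ?_ ε (by linarith)
    filter_upwards [h, eventually_gt_atTop 0] with n hn hn0 T hT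
    obtain ⟨r, hr, hT⟩ := hT
    have hn0' : (0 : ℝ) < n := by exact_mod_cast hn0
    refine (hn r T hT).mono le_rfl ?_
    have h1 := rpow_cost (C := C) hn0' hr
    have h2 : (n : ℝ) ^ ((C : ℝ) * c) = (n : ℝ) ^ (C * c) := by
      rw [← Real.rpow_natCast]
      push_cast
      rfl
    rw [h2] at h1
    rw [pow_add]
    exact mul_le_mul_of_nonneg_left h1 (by positivity)
  · obtain ⟨n0, hn0⟩ := eventually_atTop.1 h
    have key : LogGen (fun m g => ∃ (n r : ℕ) (hm : n ≤ m) (T : (Fin n → Bool) → Bool),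
        n0 ≤ n ∧ 0 < n ∧ cost r ≤ Real.logb 2 m ∧ 𝒯 n r T ∧ g = fun x => T fun i => x (Fin.castLE hm i)) ε := by
      refine gen_of_sand _ (ε / 2) (C + C) (Eventually.of_forall ?_) ε (by linarith)
      rintro m g ⟨n, r, hm, T, hn, hnp, hr, hT, rfl⟩
      have hn' : (0 : ℝ) < n := by exact_mod_cast hnp
      have hnm : (n : ℝ) ≤ m := by exact_mod_cast hm
      have h1 := Sand.res hm (hn0 n hn r T hT)
      refine h1.mono le_rfl ?_
      have h2 := rpow_cost (C := C) (c := 1) (x := cost r) (n := m) (hn'.trans_le hnm) (by linarith)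
      rw [mul_one, Real.rpow_natCast] at h2
      rw [pow_add]
      exact mul_le_mul (pow_le_pow_left₀ hn'.le hnm _) h2 (by positivity) (by positivity)
    obtain ⟨D, G, hD, hG, hl, K, hK⟩ := key
    set s : ℕ → ℝ := fun n => Real.logb 2 n + cost (r n) with hs
    have hlog : Tendsto (fun n : ℕ => Real.logb 2 n) atTop atTop :=
      (Real.tendsto_logb_atTop one_lt_two).comp tendsto_natCast_atTop_atTop
    have hst : Tendsto s atTop atTop :=
      tendsto_atTop_mono (fun n => by simp only [hs]; linarith [cost_nonneg (r n)]) hlog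
    have hm : Tendsto (fun n : ℕ => 2 ^ ⌈s n⌉₊) atTop atTop :=
      (tendsto_pow_atTop_atTop_of_one_lt (by norm_num : 1 < 2)).comp (tendsto_nat_ceil_atTop.comp hst)
    refine ⟨D, G, fun n => 2 ^ ⌈s n⌉₊, 2 * (|K| + 1), hD, hG, ?_⟩
    filter_upwards [hm.eventually hK, hlog.eventually_ge_atTop 1, eventually_gt_atTop 0,
      eventually_ge_atTop n0] with n hn hL hnp hnn
    have hc := cost_nonneg (r n)
    have hs1 : 1 ≤ s n := by simp only [hs]; linarith
    have hlogm : Real.logb 2 ((2 ^ ⌈s n⌉₊ : ℕ) : ℝ) = ⌈s n⌉₊ := by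
      push_cast
      rw [Real.logb_pow, Real.logb_self_eq_one (by norm_num), mul_one]
    have hceil : (⌈s n⌉₊ : ℝ) ≤ 2 * s n := by
      have := (Nat.ceil_lt_add_one (by linarith : 0 ≤ s n)).le
      linarith
    have hn' : (0 : ℝ) < n := by exact_mod_cast hnp
    have hnm : n ≤ 2 ^ ⌈s n⌉₊ := by
      have h1 : (n : ℝ) ≤ ((2 ^ ⌈s n⌉₊ : ℕ) : ℝ) := by
        calc (n : ℝ) = 2 ^ (Real.logb 2 n) := (Real.rpow_logb (by norm_num) (by norm_num) hn').symm
          _ ≤ 2 ^ ((⌈s n⌉₊ : ℕ) : ℝ) := by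
              apply Real.rpow_le_rpow_of_exponent_le (by norm_num)
              refine le_trans ?_ (Nat.le_ceil _)
              simp only [hs]
              linarith
          _ = _ := by
              rw [Real.rpow_natCast]
              push_cast
              rfl
      exact_mod_cast h1
    have hK0 := abs_nonneg K
    obtain ⟨hn1, -, hn3⟩ := hn
    refine ⟨hnm, ?_, ?_, ?_⟩
    · rw [hlogm]
      nlinarith
    · rw [hlogm] at hn1
      have h5 : K * (⌈s n⌉₊ : ℝ) ≤ |K| * (⌈s n⌉₊ : ℝ) :=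
        mul_le_mul_of_nonneg_right (le_abs_self K) (Nat.cast_nonneg _)
      have h6 : |K| * (⌈s n⌉₊ : ℝ) ≤ |K| * (2 * s n) := mul_le_mul_of_nonneg_left hceil hK0
      nlinarith
    · intro T hT
      have h4 := hn3 _ ⟨n, r n, hnm, T, hnn, hnp, by
        rw [hlogm]
        refine le_trans ?_ (Nat.le_ceil _)
        simp only [hs]
        linarith, hT, rfl⟩
      have e2 : prob T = prob (fun x : Fin (2 ^ ⌈s n⌉₊) → Bool =>
          T (fun i : Fin n => x (Fin.castLE hnm i))) :=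
        (prob_marginal (fun i : Fin n => Fin.castLE hnm i) (Fin.castLE_injective _) T).symm
      rw [e2]
      exact h4

end Pool.Agent.MP_ca1109_lc.Dnf.L
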