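import Pool.Agent.MP_ca1109_lc.Dnf.L.A14
import Pool.Agent.MP_ca1109_lc.Dnf.L.A18

/-!
# Lists of terms: the tests and the theorem
-/

namespace Pool.Agent.MP_ca1109_lc.Dnf.L

open Finset Filter Pool.Agent.MP_ca1109_lc.Mpg

variable {n N : ℕ}

/-- `f` is an arbitrary function of the first `k` true terms of each of `k` lists of terms. The
lists are arbitrarily long lists (without repetitions) of the terms `T j`, `j < N`, which are
nonempty conjunctions of literals of any width; every variable occurs in at most `r` of the `T j`. -/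
def ListTest (k r n : ℕ) (f : (Fin n → Bool) → Bool) : Prop :=
  ∃ (N : ℕ) (T : Fin N → Term n) (Ls : Fin k → List (Fin N)) (F : (Fin k → List (Fin N)) → Bool),
    (∀ j, (T j).S.Nonempty) ∧ (∀ v, (univ.filter fun j => v ∈ (T j).S).card ≤ r) ∧
    (∀ l, (Ls l).Nodup) ∧ ∀ x, f x = F fun l => first k T (Ls l) x

/-- The same for lists of at most `n ^ k` terms without variables in `V`, with the following bounds
instead of the bound for the number of occurrences: every variable occurs in at most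
`r * 2 ^ (γ * w)` of the terms of width `w`, for every `w`; and for every `j` there are at most
`r * |S_j|` indices `i` such that `T i` and `T j` have more than `1 / q` times the smaller of the two
widths variables in common. -/
def SpreadTest (k q : ℕ) (γ : ℝ) (r n : ℕ) (V : Finset (Fin n)) (f : (Fin n → Bool) → Bool) : Prop :=
  ∃ (N : ℕ) (T : Fin N → Term n) (Ls : Fin k → List (Fin N)) (F : (Fin k → List (Fin N)) → Bool),
    N ≤ n ^ k ∧ (∀ j, Disjoint (T j).S V) ∧
    (∀ (v : Fin n) (w : ℕ),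
      ((univ.filter fun j => v ∈ (T j).S ∧ (T j).S.card = w).card : ℝ) ≤ r * 2 ^ (γ * w)) ∧
    (∀ j, (univ.filter fun i =>
      min (T i).S.card (T j).S.card < q * ((T i).S ∩ (T j).S).card).card ≤ r * (T j).S.card) ∧
    (∀ l, (Ls l).Nodup) ∧ ∀ x, f x = F fun l => first k T (Ls l) x

theorem spread_sand (k : ℕ) (γ : ℝ) (hγ : γ < 1) (ε : ℝ) (hε : 0 < ε) :
    ∃ q C : ℕ, ∀ᶠ n : ℕ in atTop, ∀ (r : ℕ) V f, SpreadTest k q γ r n V f →
      ∀ b : Cube n, Sand ε ((n : ℝ) ^ C * 2 ^ (C * cost r)) (fun x => one (f (mix V b x) = true)) := by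
  classical
  obtain ⟨q, C, hq, h⟩ := list_sand2 k k k (max γ 0) (le_max_right _ _) (max_lt hγ one_pos) ε hε
  refine ⟨q, C, ?_⟩
  filter_upwards [h] with n hn r V f hf b
  obtain ⟨N, T, Ls, F, hN, hV, hread, hovl, hnd, hfx⟩ := hf
  have hS : Spread r q (max γ 0) T := by
    refine ⟨le_max_right _ _, max_lt hγ one_pos, fun v w => ?_, hovl⟩
    refine (hread v w).trans ?_
    have e1 : (2 : ℝ) ^ (γ * w) ≤ 2 ^ (max γ 0 * w) := by
      apply Real.rpow_le_rpow_of_exponent_le (by norm_num)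
      exact mul_le_mul_of_nonneg_right (le_max_left _ _) (Nat.cast_nonneg _)
    exact mul_le_mul_of_nonneg_left e1 (Nat.cast_nonneg _)
  have hN' : N ≤ n ^ k * (r + 1) := hN.trans (Nat.le_mul_of_pos_right _ (by omega))
  have h1 := hn N r T hN' hS Ls hnd (fun s => one (F s = true)) (fun s => ⟨one_nonneg _, one_le _⟩)
  refine h1.congr fun x => ?_
  have h2 : ∀ l, first k T (Ls l) (mix V b x) = first k T (Ls l) x := by
    intro l
    unfold first
    congr 1
    apply List.filter_congr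
    intro j _
    rw [decide_eq_decide]
    refine sat_congr _ fun i hi => ?_
    unfold mix
    rw [if_neg (Finset.disjoint_left.1 (hV j) hi)]
  simp only [hfx, h2]

/-- Trees over functions with sandwiches. -/
theorem tree_norm {n k C : ℕ} {y : ℝ} (hn0 : 0 < n)
    {𝒯 : Finset (Fin n) → ((Fin n → Bool) → Bool) → Prop} {ε : ℝ}
    (h : ∀ V f, 𝒯 V f → ∀ b : Cube n, Sand ε ((n : ℝ) ^ C * 2 ^ (C * y)) (fun x => one (f (mix V b x) = true)))
    (hy : 0 ≤ y) {f : (Fin n → Bool) → Bool} (hf : DTree 𝒯 ∅ (k * Nat.log 2 n) f) :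
    Sand ε ((n : ℝ) ^ (k + C) * 2 ^ (((k + C : ℕ) : ℝ) * y)) (fun x => one (f x = true)) := by
  refine (dtree_sand h hf).mono le_rfl ?_
  have h3 : (2 : ℝ) ^ (k * Nat.log 2 n) ≤ (n : ℝ) ^ k := by
    rw [mul_comm, pow_mul]
    apply pow_le_pow_left₀ (by positivity)
    exact_mod_cast Nat.pow_log_le_self 2 hn0.ne'
  have h4 : (2 : ℝ) ^ (C * y) ≤ 2 ^ (((k + C : ℕ) : ℝ) * y) := by
    apply Real.rpow_le_rpow_of_exponent_le (by norm_num)
    apply mul_le_mul_of_nonneg_right _ hy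
    push_cast
    linarith [(Nat.cast_nonneg k : (0 : ℝ) ≤ k)]
  calc (2 : ℝ) ^ (k * Nat.log 2 n) * ((n : ℝ) ^ C * 2 ^ (C * y)) ≤
        (n : ℝ) ^ k * ((n : ℝ) ^ C * 2 ^ (((k + C : ℕ) : ℝ) * y)) := by gcongr
    _ = _ := by rw [pow_add, mul_assoc]

/-- The number of nonempty terms. -/
theorem card_terms (T : Fin N → Term n) (r : ℕ) (h1 : ∀ j, (T j).S.Nonempty) (hr : Read r T) :
    N ≤ n * r := by
  classical
  have h2 : (univ : Finset (Fin N)) ⊆ (univ : Finset (Fin n)).biUnion fun v =>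
      univ.filter fun j => v ∈ (T j).S := by
    intro j _
    obtain ⟨v, hv⟩ := h1 j
    exact Finset.mem_biUnion.2 ⟨v, Finset.mem_univ _, Finset.mem_filter.2 ⟨Finset.mem_univ _, hv⟩⟩
  have h3 := Finset.card_le_card h2
  rw [Finset.card_univ, Fintype.card_fin] at h3
  refine h3.trans (Finset.card_biUnion_le.trans ?_)
  refine (Finset.sum_le_card_nsmul _ _ r fun v _ => hr v).trans ?_
  rw [Finset.card_univ, Fintype.card_fin, smul_eq_mul]

theorem read_sand (k : ℕ) (ε : ℝ) (hε : 0 < ε) :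
    ∃ C : ℕ, ∀ᶠ n : ℕ in atTop, ∀ (r : ℕ) (V : Finset (Fin n)) (f : (Fin n → Bool) → Bool),
      ListTest k r n f → ∀ b : Cube n,
        Sand ε ((n : ℝ) ^ C * 2 ^ (C * cost r)) (fun x => one (f (mix V b x) = true)) := by
  obtain ⟨q, C, hq, h⟩ := list_sand2 k k 1 0 le_rfl one_pos ε hε
  refine ⟨C, ?_⟩
  filter_upwards [h] with n hn r V f hf b
  obtain ⟨N, T, Ls, F, hne, hread, hnd, hfx⟩ := hf
  obtain ⟨T', Ls', hsub, hnd', hfirst⟩ := restrict (m := k) T Ls hnd V b
  have hR' : Read r T' := fun v =>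
    (Finset.card_le_card (Finset.monotone_filter_right _ fun j _ hj => hsub j hj)).trans (hread v)
  have hN : N ≤ n ^ 1 * (r + 1) := by
    rw [pow_one]
    exact (card_terms T r hne hread).trans (Nat.mul_le_mul_left _ (Nat.le_succ r))
  have h2 := hn N r T' hN (spread_of_read hR' q) Ls' hnd'
    (fun s => one (F s = true)) (fun s => ⟨one_nonneg _, one_le _⟩)
  refine h2.congr fun x => ?_
  simp only [hfx, hfirst]

/-- The generators, and the barrier. -/
theorem main :
    (∀ (k : ℕ) (ε : ℝ), 0 < ε →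
      BiasFool (fun n r => DTree (fun _ => ListTest k r n) ∅ (k * Nat.log 2 n)) ε ∧
      (∀ c : ℕ, LogGen (fun n T => ∃ r : ℕ, cost r ≤ c * Real.logb 2 n ∧
        DTree (fun _ => ListTest k r n) ∅ (k * Nat.log 2 n) T) ε) ∧
      ∀ r : ℕ → ℕ, SeedGen (fun n => DTree (fun _ => ListTest k (r n) n) ∅ (k * Nat.log 2 n))
        (fun n => Real.logb 2 n + cost (r n)) ε) ∧
    (∀ (k : ℕ) (γ ε : ℝ), γ < 1 → 0 < ε → ∃ q : ℕ,
      BiasFool (fun n r => DTree (SpreadTest k q γ r n) ∅ (k * Nat.log 2 n)) ε ∧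
      (∀ c : ℕ, LogGen (fun n T => ∃ r : ℕ, cost r ≤ c * Real.logb 2 n ∧
        DTree (SpreadTest k q γ r n) ∅ (k * Nat.log 2 n) T) ε) ∧
      ∀ r : ℕ → ℕ, SeedGen (fun n => DTree (SpreadTest k q γ (r n) n) ∅ (k * Nat.log 2 n))
        (fun n => Real.logb 2 n + cost (r n)) ε) ∧
    ∀ (θ ε : ℝ), 0 < θ → θ ≤ 1 → LogGen (fun n => IsDNF (2 ^ (Real.logb 2 n ^ θ)) n) ε →
      ∀ c : ℕ, SeedGen (fun n => IsDNF ((n : ℝ) ^ c) n) (fun n => Real.logb 2 n ^ (1 / θ)) ε := by
  refine ⟨fun k ε hε => ?_, fun k γ ε hγ hε => ?_, fun θ ε h0 h1 h c => barrier θ h0 h1 ε h c⟩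
  · obtain ⟨C, hC⟩ := read_sand k (ε / 2) (by positivity)
    refine fool_of_sand (fun n r => DTree (fun _ => ListTest k r n) ∅ (k * Nat.log 2 n)) ε hε (k + C) ?_
    filter_upwards [hC, eventually_gt_atTop 0] with n hn hn0 r f hf
    exact tree_norm hn0 (fun V f h b => hn r V f h b) (cost_nonneg r) hf
  · obtain ⟨q, C, hC⟩ := spread_sand k γ hγ (ε / 2) (by positivity)
    refine ⟨q, fool_of_sand (fun n r => DTree (SpreadTest k q γ r n) ∅ (k * Nat.log 2 n)) ε hε (k + C) ?_⟩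
    filter_upwards [hC, eventually_gt_atTop 0] with n hn hn0 r f hf
    exact tree_norm hn0 (fun V f h b => hn r V f h b) (cost_nonneg r) hf

end Pool.Agent.MP_ca1109_lc.Dnf.L
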