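import Pool.Agent.MP_ca1109_lc.Dnf.Q3

/-!
# Read-bounded DNFs: the exponent `1/2`
-/

namespace Pool.Agent.MP_ca1109_lc.Dnf.L

open Finset Filter Pool.Agent.H66 Pool.Agent.MP_ca1109_lc.Mpg

/-- There is a generator with seeds of length `O(s n)`, computable in time `2 ^ O(s n)` (polynomial
in `m n`, where `log (m n) = O(s n)`), which fools all tests in `𝒯 n` with error at most `ε` for all
large `n`. -/
def SeedGen (𝒯 : ∀ n : ℕ, ((Fin n → Bool) → Bool) → Prop) (s : ℕ → ℝ) (ε : ℝ) : Prop :=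
  ∃ (D : ℕ → ℕ) (G : ℕ → List Bool → List Bool) (m : ℕ → ℕ) (K : ℝ),
    PolyTime D ∧ PolyTime (fun p : ℕ × List Bool => G p.1 p.2) ∧
    ∀ᶠ n : ℕ in atTop, n ≤ m n ∧ Real.logb 2 (m n) ≤ K * s n ∧ (D (m n) : ℝ) ≤ K * s n ∧
      ∀ T, 𝒯 n T → |prob (fun x : Fin (D (m n)) → Bool => T (bits n (G (m n) (List.ofFn x)))) -
        prob T| ≤ ε

theorem barrier (θ : ℝ) (hθ : 0 < θ) (hθ1 : θ ≤ 1) (ε : ℝ)
    (h : LogGen (fun n => IsDNF (2 ^ (Real.logb 2 n ^ θ)) n) ε) (c : ℕ) :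
    SeedGen (fun n => IsDNF ((n : ℝ) ^ c) n) (fun n => Real.logb 2 n ^ (1 / θ)) ε := by
  obtain ⟨D, G, hD, hG, hl, C, hC⟩ := h
  set u : ℕ → ℝ := fun n => ((c + 1) * Real.logb 2 n) ^ (1 / θ) with hu
  have hlog : Tendsto (fun n : ℕ => Real.logb 2 n) atTop atTop :=
    (Real.tendsto_logb_atTop one_lt_two).comp tendsto_natCast_atTop_atTop
  have hθ' : 0 < 1 / θ := by positivity
  have hθ1' : 1 ≤ 1 / θ := by rw [le_div_iff₀ hθ]; linarith
  have hm : Tendsto (fun n : ℕ => 2 ^ ⌈u n⌉₊) atTop atTop := by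
    have h1 : Tendsto u atTop atTop :=
      (tendsto_rpow_atTop hθ').comp (hlog.const_mul_atTop (by positivity))
    have h2 : Tendsto (fun n : ℕ => ⌈u n⌉₊) atTop atTop := tendsto_nat_ceil_atTop.comp h1
    exact (tendsto_pow_atTop_atTop_of_one_lt (by norm_num : 1 < 2)).comp h2
  refine ⟨D, G, fun n => 2 ^ ⌈u n⌉₊, (|C| + 1) * ((c + 1) ^ (1 / θ) + 1), hD, hG, ?_⟩
  filter_upwards [hm.eventually hC, hlog.eventually_ge_atTop 1, eventually_gt_atTop 0] with n hn hL hn0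
  have hn0' : (0 : ℝ) < n := by exact_mod_cast hn0
  have hc1 : (1 : ℝ) ≤ c + 1 := by linarith [(Nat.cast_nonneg c : (0 : ℝ) ≤ c)]
  have hu0 : 0 ≤ u n := Real.rpow_nonneg (by positivity) _
  have hs1 : (1 : ℝ) ≤ Real.logb 2 n ^ (1 / θ) := Real.one_le_rpow hL hθ'.le
  have hus : u n = (c + 1) ^ (1 / θ) * Real.logb 2 n ^ (1 / θ) :=
    Real.mul_rpow (by positivity) (by positivity)
  have hK0 : (0 : ℝ) ≤ (c + 1) ^ (1 / θ) := by positivity
  have hceil : (⌈u n⌉₊ : ℝ) ≤ ((c + 1) ^ (1 / θ) + 1) * Real.logb 2 n ^ (1 / θ) := by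
    have h1 : (⌈u n⌉₊ : ℝ) ≤ u n + 1 := (Nat.ceil_lt_add_one hu0).le
    have h2 : u n + 1 ≤ ((c + 1) ^ (1 / θ) + 1) * Real.logb 2 n ^ (1 / θ) := by
      rw [hus]
      linarith
    exact h1.trans h2
  have hlogm : Real.logb 2 ((2 ^ ⌈u n⌉₊ : ℕ) : ℝ) = ⌈u n⌉₊ := by
    push_cast
    rw [Real.logb_pow, Real.logb_self_eq_one (by norm_num), mul_one]
  -- the number of bits is at least `n`
  have hul : (c + 1) * Real.logb 2 n ≤ u n := by
    have h1 : (1 : ℝ) ≤ (c + 1) * Real.logb 2 n := by nlinarith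
    calc (c + 1) * Real.logb 2 n = ((c + 1) * Real.logb 2 n) ^ (1 : ℝ) := (Real.rpow_one _).symm
      _ ≤ _ := Real.rpow_le_rpow_of_exponent_le h1 hθ1'
  have hpow : (n : ℝ) ^ (c + 1 : ℕ) ≤ ((2 ^ ⌈u n⌉₊ : ℕ) : ℝ) := by
    have e1 : (n : ℝ) ^ (c + 1 : ℕ) = 2 ^ ((c + 1) * Real.logb 2 n) := by
      rw [mul_comm, Real.rpow_mul (by norm_num), Real.rpow_logb (by norm_num) (by norm_num) hn0']
      rw [← Real.rpow_natCast]
      push_cast
      rfl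
    rw [e1]
    push_cast
    rw [← Real.rpow_natCast]
    exact Real.rpow_le_rpow_of_exponent_le (by norm_num) (hul.trans (Nat.le_ceil _))
  have hn1 : (1 : ℝ) ≤ n := by exact_mod_cast hn0
  have hnm : n ≤ 2 ^ ⌈u n⌉₊ := by
    have h1 : (n : ℝ) ≤ (n : ℝ) ^ (c + 1 : ℕ) := by
      calc (n : ℝ) = (n : ℝ) ^ 1 := (pow_one _).symm
        _ ≤ _ := pow_le_pow_right₀ hn1 (by omega)
    exact_mod_cast h1.trans hpow
  have hM : (1 : ℝ) ≤ |C| + 1 := by linarith [abs_nonneg C]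
  obtain ⟨hn1', -, hn3⟩ := hn
  refine ⟨hnm, ?_, ?_, ?_⟩
  · rw [hlogm]
    calc (⌈u n⌉₊ : ℝ) ≤ ((c + 1) ^ (1 / θ) + 1) * Real.logb 2 n ^ (1 / θ) := hceil
      _ = 1 * (((c + 1) ^ (1 / θ) + 1) * Real.logb 2 n ^ (1 / θ)) := (one_mul _).symm
      _ ≤ (|C| + 1) * (((c + 1) ^ (1 / θ) + 1) * Real.logb 2 n ^ (1 / θ)) := by gcongr
      _ = _ := by ring
  · rw [hlogm] at hn1'
    calc (D (2 ^ ⌈u n⌉₊) : ℝ) ≤ C * ⌈u n⌉₊ := hn1'
      _ ≤ (|C| + 1) * ⌈u n⌉₊ := by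
        apply mul_le_mul_of_nonneg_right _ (Nat.cast_nonneg _)
        linarith [le_abs_self C]
      _ ≤ (|C| + 1) * (((c + 1) ^ (1 / θ) + 1) * Real.logb 2 n ^ (1 / θ)) := by gcongr
      _ = _ := by ring
  · intro T hT
    have h3 : (n : ℝ) ^ c ≤ 2 ^ (Real.logb 2 ((2 ^ ⌈u n⌉₊ : ℕ) : ℝ) ^ θ) := by
      rw [hlogm]
      have e1 : (n : ℝ) ^ c = 2 ^ (c * Real.logb 2 n) := by
        rw [mul_comm, Real.rpow_mul (by norm_num), Real.rpow_logb (by norm_num) (by norm_num) hn0',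
          Real.rpow_natCast]
      rw [e1]
      apply Real.rpow_le_rpow_of_exponent_le (by norm_num)
      calc c * Real.logb 2 n ≤ (c + 1) * Real.logb 2 n := by nlinarith
        _ = (u n) ^ θ := by
          rw [hu]
          simp only
          rw [← Real.rpow_mul (by positivity), one_div, inv_mul_cancel₀ hθ.ne', Real.rpow_one]
        _ ≤ _ := Real.rpow_le_rpow hu0 (Nat.le_ceil _) hθ.le
    have h4 := hn3 _ (hT.res hnm h3 (by positivity))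
    have e2 : prob T = prob (fun x : Fin (2 ^ ⌈u n⌉₊) → Bool =>
        T (fun i : Fin n => x (Fin.castLE hnm i))) :=
      (prob_marginal (fun i : Fin n => Fin.castLE hnm i) (Fin.castLE_injective _) T).symm
    rw [e2]
    exact h4

end Pool.Agent.MP_ca1109_lc.Dnf.L
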