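import Pool.Agent.MP_ca1109_lc.Dnf.L.Defs
import Pool.Agent.MP_ca1109_lc.Dnf.M5a

/-!
# Lists of terms: sums over sets of terms, binomial moments
-/

namespace Pool.Agent.MP_ca1109_lc.Dnf.L

open Finset

variable {n N : ℕ} {T : Fin N → Term n} {q w₀ h W M : ℕ} {δ : ℝ}

theorem on_ball (P : Finset (Fin N)) (j : Fin N) : On (ball q w₀ T j) (Z q w₀ T P j) := by
  classical
  intro x y h
  unfold Z
  congr 1
  unfold ZP
  have h1 : (T j).Sat x ↔ (T j).Sat y :=
    sat_congr _ fun i hi => h i (Finset.mem_union_left _ hi)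
  have h2 : ∀ i, Hv q w₀ T i j → ((T i).Sat x ↔ (T i).Sat y) := fun i hi =>
    sat_congr _ fun v hv => h v (Finset.mem_union_right _
      (Finset.mem_biUnion.2 ⟨i, Finset.mem_filter.2 ⟨Finset.mem_univ _, hi⟩, hv⟩))
  apply propext
  rw [h1]
  refine and_congr_right fun _ => forall_congr' fun i => imp_congr_right fun _ => ?_
  exact imp_congr_right fun hi => not_congr (h2 i hi)

theorem a2_Z_nonneg (P : Finset (Fin N)) (j : Fin N) (x : Cube n) : 0 ≤ Z q w₀ T P j x :=
  one_nonneg _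

theorem a2_Z_le_term (P : Finset (Fin N)) (j : Fin N) (x : Cube n) :
    Z q w₀ T P j x ≤ (T j).f x := one_mono fun h => h.1

theorem prod_Z_zero {P J : Finset (Fin N)} (hJ : J ⊆ P) (hN : ¬ NoHv q w₀ T J) (x : Cube n) :
    ∏ j ∈ J, Z q w₀ T P j x = 0 := by
  unfold NoHv at hN
  push Not at hN
  obtain ⟨i, hi, j, hj, hij⟩ := hN
  by_cases h1 : (T i).Sat x
  · exact Finset.prod_eq_zero hj (one_false fun h2 => h2.2 i (hJ hi) hij h1)
  · exact Finset.prod_eq_zero hi (one_false fun h2 => h1 h2.1)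

theorem lam_nonneg (P : Finset (Fin N)) : 0 ≤ lam w₀ T P := sum_nonneg fun _ _ => by positivity

theorem mu_nonneg (P : Finset (Fin N)) : 0 ≤ mu q w₀ T P :=
  sum_nonneg fun j _ => E_nonneg fun x => a2_Z_nonneg P j x

theorem a2_subset_ball (j : Fin N) : (T j).S ⊆ ball q w₀ T j := by
  classical
  unfold ball
  exact subset_union_left

theorem a2_wd {P : Finset (Fin N)} {j : Fin N} (hj : j ∈ wid w₀ T P) : Wd w₀ T j := by
  classical
  exact (mem_filter.1 hj).2

open Classical in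
theorem add_one (hT : Good q w₀ h W M δ T) (P J : Finset (Fin N)) (hJ : J ⊆ wid w₀ T P) (hM : J.card ≤ M) :
    ∑ c ∈ (wid w₀ T P \ J).filter (fun c => NoHv q w₀ T (insert c J)), pJ T (insert c J) ≤
      pJ T J * (lam w₀ T P + δ) := by
  have hp := pJ_nonneg T J
  rw [← sum_filter_add_sum_filter_not _ (fun c => ∃ j ∈ J, Near q w₀ T j c), add_comm, mul_add]
  refine add_le_add ?_ ?_
  · -- not near
    calc ∑ c ∈ ((wid w₀ T P \ J).filter (fun c => NoHv q w₀ T (insert c J))).filter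
          (fun c => ¬ ∃ j ∈ J, Near q w₀ T j c), pJ T (insert c J)
        ≤ ∑ c ∈ ((wid w₀ T P \ J).filter (fun c => NoHv q w₀ T (insert c J))).filter
          (fun c => ¬ ∃ j ∈ J, Near q w₀ T j c), pJ T J * (1 / 2 : ℝ) ^ (T c).S.card := by
          refine sum_le_sum fun c hc => le_of_eq ?_
          obtain ⟨hc1, hc2⟩ := mem_filter.1 hc
          obtain ⟨hc3, -⟩ := mem_filter.1 hc1
          push Not at hc2
          refine Pool.Agent.MP_ca1109_lc.Dnf.pJ_insert (mem_sdiff.1 hc3).2 fun j hj => ?_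
          exact (not_not.1 (hc2 j hj)).mono (a2_subset_ball j) (a2_subset_ball c)
      _ ≤ ∑ c ∈ wid w₀ T P, pJ T J * (1 / 2 : ℝ) ^ (T c).S.card := by
          refine sum_le_sum_of_subset_of_nonneg ?_ fun c _ _ => by positivity
          intro c hc
          exact (mem_sdiff.1 (mem_filter.1 (mem_filter.1 hc).1).1).1
      _ = pJ T J * lam w₀ T P := by
          unfold lam
          rw [mul_sum]
  · -- near
    rw [mul_comm (pJ T J)]
    refine le_trans ?_ (hT.near J hM fun j hj => a2_wd (hJ hj))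
    refine sum_le_sum_of_subset_of_nonneg ?_ fun c _ _ => pJ_nonneg T _
    intro c hc
    obtain ⟨hc1, hc2⟩ := mem_filter.1 hc
    obtain ⟨hc3, hc4⟩ := mem_filter.1 hc1
    obtain ⟨hc5, hc6⟩ := mem_sdiff.1 hc3
    exact mem_filter.2 ⟨mem_univ _, hc6, a2_wd hc5, hc2, hc4⟩

theorem a2_noHv_mono {J J' : Finset (Fin N)} (hJ : J ⊆ J') (hN : NoHv q w₀ T J') :
    NoHv q w₀ T J := fun i hi j hj => hN i (hJ hi) j (hJ hj)

open Classical in
theorem sum_sets (hT : Good q w₀ h W M δ T) (P : Finset (Fin N)) (m : ℕ) (hm : m ≤ M + 1) :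
    ∑ J ∈ (powersetCard m (wid w₀ T P)).filter (fun J => NoHv q w₀ T J), pJ T J ≤
      (lam w₀ T P + δ) ^ m := by
  have hl := lam_nonneg (T := T) (w₀ := w₀) P
  have h0 : 0 ≤ lam w₀ T P + δ := add_nonneg hl hT.δ0
  induction m with
  | zero =>
    rw [powersetCard_zero, pow_zero]
    have h1 : pJ T ∅ = 1 := by
      unfold pJ
      simp only [prod_empty]
      exact E_const 1
    refine (sum_le_sum_of_subset_of_nonneg (filter_subset _ _) fun c _ _ => pJ_nonneg T _).trans ?_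
    rw [sum_singleton, h1]
  | succ m ih =>
    have hmM : m ≤ M := by omega
    have h1 : ∑ J' ∈ (powersetCard (m + 1) (wid w₀ T P)).filter (fun J => NoHv q w₀ T J), pJ T J' ≤
        ∑ J ∈ (powersetCard m (wid w₀ T P)).filter (fun J => NoHv q w₀ T J),
          ∑ c ∈ (wid w₀ T P \ J).filter (fun c => NoHv q w₀ T (insert c J)),
            pJ T (insert c J) := by
      rw [sum_sigma']
      refine sum_le_of_cover _ _ (fun p : (_ : Finset (Fin N)) × Fin N => insert p.2 p.1)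
        (pJ T) (pJ_nonneg T) fun J' hJ' => ?_
      obtain ⟨hJ1, hN⟩ := mem_filter.1 hJ'
      obtain ⟨hJ2, hJ3⟩ := mem_powersetCard.1 hJ1
      have hne : J'.Nonempty := by
        rw [← card_pos, hJ3]
        exact Nat.succ_pos m
      obtain ⟨c, hc⟩ := hne
      have hie : insert c (J'.erase c) = J' := insert_erase hc
      refine ⟨⟨J'.erase c, c⟩, ?_, hie⟩
      rw [mem_sigma, mem_filter, mem_powersetCard, mem_filter, mem_sdiff]
      refine ⟨⟨⟨(erase_subset c J').trans hJ2, ?_⟩, a2_noHv_mono (erase_subset c J') hN⟩,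
        ⟨hJ2 hc, notMem_erase c J'⟩, ?_⟩
      · rw [card_erase_of_mem hc, hJ3, Nat.add_sub_cancel]
      · show NoHv q w₀ T (insert c (J'.erase c))
        rw [hie]
        exact hN
    refine h1.trans ?_
    calc ∑ J ∈ (powersetCard m (wid w₀ T P)).filter (fun J => NoHv q w₀ T J),
          ∑ c ∈ (wid w₀ T P \ J).filter (fun c => NoHv q w₀ T (insert c J)), pJ T (insert c J)
        ≤ ∑ J ∈ (powersetCard m (wid w₀ T P)).filter (fun J => NoHv q w₀ T J),
          pJ T J * (lam w₀ T P + δ) := by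
          refine sum_le_sum fun J hJ => ?_
          obtain ⟨hJ1, -⟩ := mem_filter.1 hJ
          obtain ⟨hJ2, hJ3⟩ := mem_powersetCard.1 hJ1
          exact add_one hT P J hJ2 (hJ3.le.trans hmM)
      _ = (∑ J ∈ (powersetCard m (wid w₀ T P)).filter (fun J => NoHv q w₀ T J), pJ T J) *
          (lam w₀ T P + δ) := (sum_mul _ _ _).symm
      _ ≤ (lam w₀ T P + δ) ^ m * (lam w₀ T P + δ) :=
          mul_le_mul_of_nonneg_right (ih (by omega)) h0
      _ = (lam w₀ T P + δ) ^ (m + 1) := (pow_succ _ _).symm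

open Classical in
theorem key_bound (hT : Good q w₀ h W M δ T) (P : Finset (Fin N)) (m : ℕ) (hm : m ≤ M) :
    ∑ J ∈ (powersetCard (m + 1) (wid w₀ T P)).filter (fun J => NoHv q w₀ T J ∧ ¬ Far q w₀ T J), pJ T J ≤
      δ * (lam w₀ T P + δ) ^ m := by
  have h1 : ∑ J' ∈ (powersetCard (m + 1) (wid w₀ T P)).filter
      (fun J => NoHv q w₀ T J ∧ ¬ Far q w₀ T J), pJ T J' ≤
      ∑ J ∈ (powersetCard m (wid w₀ T P)).filter (fun J => NoHv q w₀ T J),
        ∑ c ∈ univ.filter (fun c => c ∉ J ∧ Wd w₀ T c ∧ (∃ j ∈ J, Near q w₀ T j c) ∧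
          NoHv q w₀ T (insert c J)), pJ T (insert c J) := by
    rw [sum_sigma']
    refine sum_le_of_cover _ _ (fun p : (_ : Finset (Fin N)) × Fin N => insert p.2 p.1)
      (pJ T) (pJ_nonneg T) fun J' hJ' => ?_
    obtain ⟨hJ1, hN, hF⟩ := mem_filter.1 hJ'
    obtain ⟨hJ2, hJ3⟩ := mem_powersetCard.1 hJ1
    unfold Far at hF
    push Not at hF
    obtain ⟨a, ha, b, hb, hab, hn⟩ := hF
    have hie : insert b (J'.erase b) = J' := insert_erase hb
    refine ⟨⟨J'.erase b, b⟩, ?_, hie⟩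
    rw [mem_sigma, mem_filter, mem_powersetCard, mem_filter]
    refine ⟨⟨⟨(erase_subset b J').trans hJ2, ?_⟩, a2_noHv_mono (erase_subset b J') hN⟩,
      mem_univ _, notMem_erase b J', a2_wd (hJ2 hb), ⟨a, mem_erase.2 ⟨hab, ha⟩, hn⟩, ?_⟩
    · rw [card_erase_of_mem hb, hJ3, Nat.add_sub_cancel]
    · show NoHv q w₀ T (insert b (J'.erase b))
      rw [hie]
      exact hN
  refine h1.trans ?_
  calc ∑ J ∈ (powersetCard m (wid w₀ T P)).filter (fun J => NoHv q w₀ T J),
        ∑ c ∈ univ.filter (fun c => c ∉ J ∧ Wd w₀ T c ∧ (∃ j ∈ J, Near q w₀ T j c) ∧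
          NoHv q w₀ T (insert c J)), pJ T (insert c J)
      ≤ ∑ J ∈ (powersetCard m (wid w₀ T P)).filter (fun J => NoHv q w₀ T J), δ * pJ T J := by
        refine sum_le_sum fun J hJ => ?_
        obtain ⟨hJ1, -⟩ := mem_filter.1 hJ
        obtain ⟨hJ2, hJ3⟩ := mem_powersetCard.1 hJ1
        exact hT.near J (hJ3.le.trans hm) fun j hj => a2_wd (hJ2 hj)
    _ = δ * ∑ J ∈ (powersetCard m (wid w₀ T P)).filter (fun J => NoHv q w₀ T J), pJ T J :=
        (mul_sum _ _ _).symm
    _ ≤ δ * (lam w₀ T P + δ) ^ m :=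
        mul_le_mul_of_nonneg_left (sum_sets hT P m (by omega)) hT.δ0

theorem moment_bound (hT : Good q w₀ h W M δ T) (P : Finset (Fin N)) (m : ℕ) (hm : m ≤ M) :
    ∑ J ∈ powersetCard (m + 1) (wid w₀ T P), E (fun x => ∏ j ∈ J, Z q w₀ T P j x) ≤
      mu q w₀ T P ^ (m + 1) / (m + 1).factorial + δ * (lam w₀ T P + δ) ^ m := by
  classical
  have h1 : ∀ J ∈ powersetCard (m + 1) (wid w₀ T P), E (fun x => ∏ j ∈ J, Z q w₀ T P j x) ≤
      ∏ j ∈ J, E (Z q w₀ T P j) + if NoHv q w₀ T J ∧ ¬ Far q w₀ T J then pJ T J else 0 := by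
    intro J hJ
    have hJP : J ⊆ P := (mem_powersetCard.1 hJ).1.trans (filter_subset _ _)
    have h0 : 0 ≤ ∏ j ∈ J, E (Z q w₀ T P j) :=
      Finset.prod_nonneg fun j _ => E_nonneg fun x => a2_Z_nonneg P j x
    by_cases hN : NoHv q w₀ T J
    · by_cases hF : Far q w₀ T J
      · rw [if_neg fun h => h.2 hF, add_zero]
        refine le_of_eq (E_prod J (ball q w₀ T) (Z q w₀ T P) (fun i hi j hj hij => ?_)
          fun i _ => on_ball P i)
        exact not_not.1 (hF i hi j hj hij)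
      · rw [if_pos ⟨hN, hF⟩]
        have h2 : E (fun x => ∏ j ∈ J, Z q w₀ T P j x) ≤ pJ T J := by
          unfold pJ
          exact E_mono fun x => Finset.prod_le_prod (fun j _ => a2_Z_nonneg P j x)
            fun j _ => a2_Z_le_term P j x
        linarith
    · rw [if_neg fun h => hN h.1, add_zero]
      have h2 : (fun x : Cube n => ∏ j ∈ J, Z q w₀ T P j x) = fun _ => 0 := by
        funext x
        exact prod_Z_zero hJP hN x
      rw [h2, E_const]
      exact h0
  refine (Finset.sum_le_sum h1).trans ?_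
  rw [Finset.sum_add_distrib, ← Finset.sum_filter]
  exact add_le_add (esymm_le (wid w₀ T P) _ (fun j _ => E_nonneg fun x => a2_Z_nonneg P j x) (m + 1))
    (key_bound hT P m hm)

end Pool.Agent.MP_ca1109_lc.Dnf.L
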