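import Pool.Agent.MP_ca1109_lc.Dnf.L.Defs

/-!
# Lists of terms: the true wide terms form clusters
-/

namespace Pool.Agent.MP_ca1109_lc.Dnf.L

open Finset

variable {n N : ℕ} {T : Fin N → Term n} {q w₀ h W M : ℕ} {δ : ℝ}

open Classical in
/-- The pairs of light terms with a common heavy neighbour between them. -/
noncomputable def badPairs (q w₀ : ℕ) (T : Fin N → Term n) (P : Finset (Fin N)) : Finset (Fin N × Fin N) :=
  (P ×ˢ P).filter fun p => (∃ i ∈ P, Hv q w₀ T p.1 i ∧ Hv q w₀ T i p.2) ∧ ¬ Hv q w₀ T p.1 p.2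

/-- The number of the bad pairs which are true. -/
noncomputable def bad (q w₀ : ℕ) (T : Fin N → Term n) (P : Finset (Fin N)) (x : Cube n) : ℝ :=
  ∑ p ∈ badPairs q w₀ T P, (T p.1).f x * (T p.2).f x

theorem a3_mem {P : Finset (Fin N)} {p : Fin N × Fin N} (hp : p ∈ badPairs q w₀ T P) :
    (p.1 ∈ P ∧ p.2 ∈ P) ∧ (∃ i ∈ P, Hv q w₀ T p.1 i ∧ Hv q w₀ T i p.2) ∧ ¬ Hv q w₀ T p.1 p.2 := by
  classical
  unfold badPairs at hp
  rw [mem_filter, mem_product] at hp
  exact hp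

theorem a3_key {i j : Fin N} (hij : Pr T i j) :
    (T i).S.card * N + (i : ℕ) < (T j).S.card * N + (j : ℕ) := by
  have hi := i.isLt
  rcases hij with h | ⟨h, h'⟩
  · have : ((T i).S.card + 1) * N ≤ (T j).S.card * N := Nat.mul_le_mul_right N h
    rw [add_mul, one_mul] at this
    omega
  · rw [h]
    have : (i : ℕ) < (j : ℕ) := h'
    omega

theorem a3_pr_le {i j : Fin N} (hij : Pr T i j) : (T i).S.card ≤ (T j).S.card := by
  rcases hij with h | ⟨h, -⟩
  · exact h.le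
  · exact h.le

theorem a3_pr_trans {i j k : Fin N} (h1 : Pr T i j) (h2 : Pr T j k) : Pr T i k := by
  rcases h1 with h1 | ⟨h1, h1'⟩ <;> rcases h2 with h2 | ⟨h2, h2'⟩
  · exact Or.inl (h1.trans h2)
  · exact Or.inl (h2 ▸ h1)
  · exact Or.inl (h1 ▸ h2)
  · exact Or.inr ⟨h1.trans h2, h1'.trans h2'⟩

/-- A bad pair is almost disjoint. -/
theorem a3_card (hq : 2 ≤ q) {P : Finset (Fin N)} {p : Fin N × Fin N} (hp : p ∈ badPairs q w₀ T P) :
    w₀ / 2 ≤ ((T p.2).S \ (T p.1).S).card := by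
  classical
  obtain ⟨-, ⟨i, -, hi1, hi2⟩, hn⟩ := a3_mem hp
  have hw : w₀ ≤ (T p.2).S.card := hi2.2.1
  have hpr : Pr T p.1 p.2 := a3_pr_trans hi1.2.2.1 hi2.2.2.1
  have h1 : ¬ (T p.1).S.card < q * ((T p.1).S ∩ (T p.2).S).card := fun h =>
    hn ⟨hi1.1, hi2.2.1, hpr, h⟩
  have h2 : 2 * ((T p.1).S ∩ (T p.2).S).card ≤ q * ((T p.1).S ∩ (T p.2).S).card :=
    Nat.mul_le_mul_right _ hq
  have h3 := a3_pr_le hpr
  have h4 : ((T p.2).S \ (T p.1).S).card + ((T p.1).S ∩ (T p.2).S).card = (T p.2).S.card := by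
    rw [inter_comm]
    exact card_sdiff_add_card_inter _ _
  omega

theorem E_bad (hT : Good q w₀ h W M δ T) (P : Finset (Fin N)) :
    E (bad q w₀ T P) ≤ lam w₀ T P * (h * h) * (1 / 2) ^ (w₀ / 2) := by
  classical
  have e0 : E (bad q w₀ T P) = ∑ p ∈ badPairs q w₀ T P, E fun x => (T p.1).f x * (T p.2).f x :=
    E_sum _ _
  have e1 : ∀ p ∈ badPairs q w₀ T P, E (fun x => (T p.1).f x * (T p.2).f x) ≤
      (1 / 2 : ℝ) ^ (T p.1).S.card * (1 / 2) ^ (w₀ / 2) := by
    intro p hp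
    refine (E_two _ _).trans ?_
    rw [← pow_add]
    exact pow_le_pow_of_le_one (by norm_num) (by norm_num)
      (Nat.add_le_add_left (a3_card hT.q2 hp) _)
  -- regroup by the first term
  have hmap : ∀ p ∈ badPairs q w₀ T P, p.1 ∈ wid w₀ T P := by
    intro p hp
    obtain ⟨⟨h1, -⟩, ⟨i, -, hi1, -⟩, -⟩ := a3_mem hp
    unfold wid
    exact mem_filter.2 ⟨h1, hi1.1⟩
  have hcount : ∀ i, ((badPairs q w₀ T P).filter fun p => p.1 = i).card ≤ h * h := by
    intro i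
    have hsub : ((badPairs q w₀ T P).filter fun p => p.1 = i) ⊆
        (univ.filter fun j => Hv q w₀ T i j).biUnion fun j =>
          (univ.filter fun c => Hv q w₀ T j c).image fun c => (i, c) := by
      intro p hp
      obtain ⟨hp1, rfl⟩ := mem_filter.1 hp
      obtain ⟨-, ⟨j, -, hj1, hj2⟩, -⟩ := a3_mem hp1
      exact mem_biUnion.2 ⟨j, mem_filter.2 ⟨mem_univ _, hj1⟩,
        mem_image.2 ⟨p.2, mem_filter.2 ⟨mem_univ _, hj2⟩, rfl⟩⟩
    refine (card_le_card hsub).trans (card_biUnion_le.trans ?_)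
    calc ∑ j ∈ univ.filter (fun j => Hv q w₀ T i j),
          ((univ.filter fun c => Hv q w₀ T j c).image fun c => (i, c)).card
        ≤ ∑ j ∈ univ.filter (fun j => Hv q w₀ T i j), h := by
          refine sum_le_sum fun j _ => card_image_le.trans ?_
          exact hT.after j
      _ = (univ.filter fun j => Hv q w₀ T i j).card * h := by rw [sum_const, smul_eq_mul]
      _ ≤ h * h := Nat.mul_le_mul_right _ (hT.after i)
  rw [e0]
  calc ∑ p ∈ badPairs q w₀ T P, E (fun x => (T p.1).f x * (T p.2).f x)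
      ≤ ∑ p ∈ badPairs q w₀ T P, (1 / 2 : ℝ) ^ (T p.1).S.card * (1 / 2) ^ (w₀ / 2) :=
        sum_le_sum e1
    _ = ∑ i ∈ wid w₀ T P, ∑ p ∈ (badPairs q w₀ T P).filter (fun p => p.1 = i),
          (1 / 2 : ℝ) ^ (T p.1).S.card * (1 / 2) ^ (w₀ / 2) :=
        (sum_fiberwise_of_maps_to hmap _).symm
    _ = ∑ i ∈ wid w₀ T P, (((badPairs q w₀ T P).filter fun p => p.1 = i).card : ℝ) *
          ((1 / 2 : ℝ) ^ (T i).S.card * (1 / 2) ^ (w₀ / 2)) := by
        refine sum_congr rfl fun i _ => ?_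
        rw [← nsmul_eq_mul, ← sum_const]
        refine sum_congr rfl fun p hp => ?_
        rw [(mem_filter.1 hp).2]
    _ ≤ ∑ i ∈ wid w₀ T P, ((h : ℝ) * h) * ((1 / 2 : ℝ) ^ (T i).S.card * (1 / 2) ^ (w₀ / 2)) := by
        refine sum_le_sum fun i _ => mul_le_mul_of_nonneg_right ?_ (by positivity)
        exact_mod_cast hcount i
    _ = lam w₀ T P * (h * h) * (1 / 2) ^ (w₀ / 2) := by
        unfold lam
        rw [sum_mul, sum_mul]
        exact sum_congr rfl fun i _ => by ring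

theorem L1_bad (P : Finset (Fin N)) : L1 (bad q w₀ T P) ≤ (N : ℝ) ^ 2 := by
  classical
  have h1 : L1 (bad q w₀ T P) ≤
      ∑ p ∈ badPairs q w₀ T P, L1 fun x => (T p.1).f x * (T p.2).f x := L1_sum _ _
  refine h1.trans ?_
  calc ∑ p ∈ badPairs q w₀ T P, L1 (fun x => (T p.1).f x * (T p.2).f x)
      ≤ ∑ _p ∈ badPairs q w₀ T P, (1 : ℝ) := by
        refine sum_le_sum fun p _ => (L1_mul _ _).trans ?_
        calc L1 (T p.1).f * L1 (T p.2).f ≤ 1 * 1 :=
              mul_le_mul (L1_term _) (L1_term _) (L1_nonneg _) zero_le_one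
          _ = 1 := one_mul 1
    _ = ((badPairs q w₀ T P).card : ℝ) := by rw [sum_const, nsmul_eq_mul, mul_one]
    _ ≤ (N : ℝ) ^ 2 := by
        have h2 : (badPairs q w₀ T P).card ≤ N ^ 2 := by
          calc (badPairs q w₀ T P).card ≤ (univ : Finset (Fin N × Fin N)).card :=
                card_le_card (subset_univ _)
            _ = N ^ 2 := by
                rw [card_univ, Fintype.card_prod, Fintype.card_fin]
                ring
        exact_mod_cast h2

theorem a3_f (t : Term n) (x : Cube n) : t.f x = 0 ∨ (t.f x = 1 ∧ t.Sat x) := by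
  by_cases h : t.Sat x
  · exact Or.inr ⟨one_true h, h⟩
  · exact Or.inl (one_false h)

theorem bad_int (P : Finset (Fin N)) (x : Cube n) : bad q w₀ T P x = 0 ∨ 1 ≤ bad q w₀ T P x := by
  classical
  unfold bad
  by_cases h : ∀ p ∈ badPairs q w₀ T P, (T p.1).f x * (T p.2).f x = 0
  · exact Or.inl (sum_eq_zero h)
  · push Not at h
    obtain ⟨p, hp, hne⟩ := h
    right
    have h1 : (T p.1).f x * (T p.2).f x = 1 := by
      rcases a3_f (T p.1) x with h1 | ⟨h1, -⟩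
      · rw [h1, zero_mul] at hne
        exact absurd rfl hne
      · rcases a3_f (T p.2) x with h2 | ⟨h2, -⟩
        · rw [h2, mul_zero] at hne
          exact absurd rfl hne
        · rw [h1, h2, one_mul]
    rw [← h1]
    exact single_le_sum (f := fun p : Fin N × Fin N => (T p.1).f x * (T p.2).f x)
      (fun p _ => mul_nonneg (one_nonneg _) (one_nonneg _)) hp

theorem cluster {P : Finset (Fin N)} {x : Cube n} (hb : bad q w₀ T P x = 0) {j : Fin N}
    (hj : j ∈ wid w₀ T P) (hs : (T j).Sat x) :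
    Z q w₀ T P j x = 1 ∨ ∃ i ∈ wid w₀ T P, Z q w₀ T P i x = 1 ∧ Hv q w₀ T i j := by
  classical
  have hjP : j ∈ P := (mem_filter.1 hj).1
  by_cases hZ : ZP q w₀ T P j x
  · exact Or.inl (one_true hZ)
  right
  set A : Finset (Fin N) := P.filter fun i => Hv q w₀ T i j ∧ (T i).Sat x with hA
  have hAne : A.Nonempty := by
    have h1 : ∃ i ∈ P, Hv q w₀ T i j ∧ (T i).Sat x := by
      by_contra hc
      push Not at hc
      exact hZ ⟨hs, hc⟩
    obtain ⟨i, hi, hi'⟩ := h1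
    exact ⟨i, mem_filter.2 ⟨hi, hi'⟩⟩
  obtain ⟨i₁, hi₁, hmin⟩ := A.exists_min_image (fun i => (T i).S.card * N + (i : ℕ)) hAne
  obtain ⟨hP1, hv1, hs1⟩ := mem_filter.1 hi₁
  refine ⟨i₁, mem_filter.2 ⟨hP1, hv1.1⟩, ?_, hv1⟩
  refine one_true ⟨hs1, fun i₂ hP2 hv2 hs2 => ?_⟩
  by_cases h3 : Hv q w₀ T i₂ j
  · have h4 := hmin i₂ (mem_filter.2 ⟨hP2, h3, hs2⟩)
    have h5 := a3_key hv2.2.2.1
    omega
  · have hp : (i₂, j) ∈ badPairs q w₀ T P := by
      unfold badPairs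
      exact mem_filter.2 ⟨mem_product.2 ⟨hP2, hjP⟩, ⟨i₁, hP1, hv2, hv1⟩, h3⟩
    have h6 : (T i₂).f x * (T j).f x ≤ bad q w₀ T P x :=
      single_le_sum (f := fun p : Fin N × Fin N => (T p.1).f x * (T p.2).f x)
        (fun p _ => mul_nonneg (one_nonneg _) (one_nonneg _)) hp
    have h7 : (T i₂).f x = 1 := one_true hs2
    have h8 : (T j).f x = 1 := one_true hs
    rw [h7, h8, hb] at h6
    norm_num at h6

end Pool.Agent.MP_ca1109_lc.Dnf.L
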