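import Mathlib

/-!
# Truncated inclusion and exclusion
-/

namespace Pool.Agent.MP_ca1109_lc.Dnf.L

open Finset

/-- Inclusion and exclusion. -/
theorem a4_full {ι : Type*} [DecidableEq ι] (A : Finset ι) (c : Finset ι → ℝ) :
    ∑ J' ∈ A.powerset, ∑ J ∈ J'.powerset, (-1 : ℝ) ^ (J'.card - J.card) * c J = c A := by
  induction A using Finset.induction_on generalizing c with
  | empty => simp
  | insert a A ha ih =>
    rw [sum_powerset_insert ha]
    have h1 : ∀ K ∈ A.powerset, ∑ J ∈ (insert a K).powerset,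
        (-1 : ℝ) ^ ((insert a K).card - J.card) * c J =
        -(∑ J ∈ K.powerset, (-1 : ℝ) ^ (K.card - J.card) * c J) +
          ∑ J ∈ K.powerset, (-1 : ℝ) ^ (K.card - J.card) * c (insert a J) := by
      intro K hK
      have haK : a ∉ K := fun h => ha (mem_powerset.1 hK h)
      rw [sum_powerset_insert haK, card_insert_of_notMem haK, ← sum_neg_distrib]
      congr 1
      · refine sum_congr rfl fun J hJ => ?_
        have h2 := card_le_card (mem_powerset.1 hJ)
        rw [Nat.sub_add_comm h2, pow_succ]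
        ring
      · refine sum_congr rfl fun J hJ => ?_
        have haJ : a ∉ J := fun h => haK (mem_powerset.1 hJ h)
        rw [card_insert_of_notMem haJ, Nat.add_sub_add_right]
    rw [sum_congr rfl h1, sum_add_distrib, sum_neg_distrib, ih, ih fun J => c (insert a J)]
    ring

theorem a4_choose {a i M : ℕ} (hi : i ≤ M + 1) (ha : M + 1 ≤ a) :
    a.choose i ≤ a.choose (M + 1) * (M + 1).choose i := by
  rw [Nat.choose_mul hi]
  exact Nat.le_mul_of_pos_right _ (Nat.choose_pos (Nat.sub_le_sub_right ha i))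

theorem a4_count {a M : ℕ} (ha : M + 1 ≤ a) :
    1 + ∑ i ∈ range (M + 1), a.choose i * 2 ^ i ≤ 3 ^ (M + 1) * a.choose (M + 1) := by
  have h3 : (3 : ℕ) ^ (M + 1) = ∑ i ∈ range (M + 1 + 1), 2 ^ i * (M + 1).choose i := by
    have h := add_pow 2 1 (M + 1)
    simpa using h
  rw [h3, sum_mul, sum_range_succ _ (M + 1), add_comm]
  refine Nat.add_le_add (sum_le_sum fun i hi => ?_) ?_
  · have h := Nat.mul_le_mul_right (2 ^ i) (a4_choose (mem_range.1 hi).le ha)
    calc a.choose i * 2 ^ i ≤ _ := h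
      _ = _ := by ring
  · have h1 : 1 ≤ a.choose (M + 1) := Nat.choose_pos ha
    have h2 : 1 ≤ 2 ^ (M + 1) := Nat.one_le_two_pow
    rw [Nat.choose_self, mul_one]
    exact Nat.mul_le_mul h2 h1

theorem a4_sum {ι : Type*} [DecidableEq ι] (A : Finset ι) (M : ℕ) (ha : M + 1 ≤ A.card) :
    ∑ J' ∈ A.powerset.filter (fun J' => J'.card ≤ M), 2 ^ J'.card =
      ∑ i ∈ range (M + 1), A.card.choose i * 2 ^ i := by
  rw [sum_filter, sum_powerset_apply_card (fun i => if i ≤ M then 2 ^ i else 0)]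
  have h : range (M + 1) ⊆ range (A.card + 1) := range_subset_range.2 (by omega)
  rw [← sum_subset h]
  · refine sum_congr rfl fun i hi => ?_
    rw [if_pos (Nat.lt_succ_iff.1 (mem_range.1 hi)), smul_eq_mul]
  · intro i _ hi
    rw [mem_range, not_lt] at hi
    rw [if_neg (by omega), smul_zero]

/-- Truncated inclusion and exclusion. -/
theorem trunc_incl {ι : Type*} [DecidableEq ι] (A : Finset ι) (c : Finset ι → ℝ)
    (hc : ∀ J, 0 ≤ c J ∧ c J ≤ 1) (M : ℕ) :
    |c A - ∑ J' ∈ A.powerset.filter (fun J' => J'.card ≤ M),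
      ∑ J ∈ J'.powerset, (-1 : ℝ) ^ (J'.card - J.card) * c J| ≤ 3 ^ (M + 1) * (A.card.choose (M + 1) : ℝ) := by
  rcases Nat.lt_or_ge M A.card with hM | hM
  · have h1 : |∑ J' ∈ A.powerset.filter (fun J' => J'.card ≤ M),
        ∑ J ∈ J'.powerset, (-1 : ℝ) ^ (J'.card - J.card) * c J| ≤
        ((∑ J' ∈ A.powerset.filter (fun J' => J'.card ≤ M), 2 ^ J'.card : ℕ) : ℝ) := by
      refine (abs_sum_le_sum_abs _ _).trans ?_
      rw [Nat.cast_sum]
      refine sum_le_sum fun J' _ => (abs_sum_le_sum_abs _ _).trans ?_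
      have h2 : ∀ J ∈ J'.powerset, |(-1 : ℝ) ^ (J'.card - J.card) * c J| ≤ 1 := by
        intro J _
        rw [abs_mul, abs_pow, abs_neg, abs_one, one_pow, one_mul, abs_of_nonneg (hc J).1]
        exact (hc J).2
      refine (sum_le_sum h2).trans ?_
      rw [sum_const, card_powerset, nsmul_eq_mul, mul_one]
    rw [a4_sum A M hM] at h1
    have h2 : ((1 + ∑ i ∈ range (M + 1), A.card.choose i * 2 ^ i : ℕ) : ℝ) ≤
        ((3 ^ (M + 1) * A.card.choose (M + 1) : ℕ) : ℝ) := Nat.cast_le.2 (a4_count hM)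
    rw [Nat.cast_add, Nat.cast_mul, Nat.cast_pow, Nat.cast_one, Nat.cast_ofNat] at h2
    refine (abs_sub _ _).trans ?_
    have h3 : |c A| ≤ 1 := by
      rw [abs_of_nonneg (hc A).1]
      exact (hc A).2
    linarith
  · have h1 : A.powerset.filter (fun J' => J'.card ≤ M) = A.powerset := by
      rw [filter_eq_self]
      intro J' hJ'
      exact (card_le_card (mem_powerset.1 hJ')).trans hM
    rw [h1, a4_full, sub_self, abs_zero]
    positivity

end Pool.Agent.MP_ca1109_lc.Dnf.L
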