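import Pool.Agent.MP_ca1109_lc.Dnf.L.A2
import Pool.Agent.MP_ca1109_lc.Dnf.L.A3
import Pool.Agent.MP_ca1109_lc.Dnf.L.A4

/-!
# Lists of terms: the pointwise expansion
-/

namespace Pool.Agent.MP_ca1109_lc.Dnf.L

open Finset

variable {n N : ℕ} {T : Fin N → Term n} {q w₀ h W M : ℕ} {δ : ℝ}

open Classical in
/-- The terms which matter if `J` are the leaders: the narrow terms, `J` and the later heavy neighbours of `J`. -/
noncomputable def area (q w₀ : ℕ) (T : Fin N → Term n) (P J : Finset (Fin N)) : Finset (Fin N) :=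
  nar w₀ T P ∪ J ∪ P.filter fun j => ∃ i ∈ J, Hv q w₀ T i j

theorem area_card (hT : Good q w₀ h W M δ T) (P J : Finset (Fin N)) :
    (area q w₀ T P J).card ≤ (nar w₀ T P).card + J.card * (1 + h) := by
  classical
  have h1 : (P.filter fun j => ∃ i ∈ J, Hv q w₀ T i j) ⊆
      J.biUnion fun i => univ.filter fun j => Hv q w₀ T i j := by
    intro j hj
    obtain ⟨i, hi, hij⟩ := (mem_filter.1 hj).2
    exact mem_biUnion.2 ⟨i, hi, mem_filter.2 ⟨mem_univ _, hij⟩⟩
  have h2 : (P.filter fun j => ∃ i ∈ J, Hv q w₀ T i j).card ≤ J.card * h := by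
    refine (card_le_card h1).trans (card_biUnion_le_card_mul _ _ _ fun i _ => ?_)
    convert hT.after i
  have h3 : (area q w₀ T P J).card ≤ (nar w₀ T P).card + J.card +
      (P.filter fun j => ∃ i ∈ J, Hv q w₀ T i j).card := by
    unfold area
    refine (card_union_le _ _).trans (Nat.add_le_add (card_union_le _ _) ?_)
    apply le_of_eq
    congr
  rw [Nat.mul_add, Nat.mul_one]
  omega

theorem a7_Z (P : Finset (Fin N)) (j : Fin N) (x : Cube n) :
    Z q w₀ T P j x = 0 ∨ Z q w₀ T P j x = 1 := by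
  unfold Z one
  split_ifs
  · exact Or.inr rfl
  · exact Or.inl rfl

open Classical in
theorem a7_prod (P : Finset (Fin N)) (x : Cube n) {J : Finset (Fin N)} (hJ : J ⊆ wid w₀ T P) :
    ∏ j ∈ J, Z q w₀ T P j x =
      if J ⊆ (wid w₀ T P).filter (fun j => Z q w₀ T P j x = 1) then 1 else 0 := by
  split_ifs with hA
  · exact prod_eq_one fun j hj => (mem_filter.1 (hA hj)).2
  · obtain ⟨j, hj, hjA⟩ := not_subset.1 hA
    refine prod_eq_zero hj ?_
    rcases a7_Z (q := q) (w₀ := w₀) (T := T) P j x with h1 | h1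
    · exact h1
    · exact absurd (mem_filter.2 ⟨hJ hj, h1⟩) hjA

open Classical in
theorem a7_first {P : Finset (Fin N)} {x : Cube n} (hb : bad q w₀ T P x = 0) (m : ℕ)
    {l : List (Fin N)} (hl : ∀ j ∈ l, j ∈ P) :
    first m T l x = firstIn m T
      (area q w₀ T P ((wid w₀ T P).filter fun j => Z q w₀ T P j x = 1)) l x := by
  unfold first firstIn
  congr 1
  refine List.filter_congr fun j hj => ?_
  refine decide_eq_decide.2 ⟨fun hs => ⟨?_, hs⟩, fun hs => hs.2⟩
  unfold area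
  by_cases hw : Wd w₀ T j
  · have hjw : j ∈ wid w₀ T P := mem_filter.2 ⟨hl j hj, hw⟩
    rcases cluster hb hjw hs with h1 | ⟨i, hi, hi1, hij⟩
    · exact mem_union_left _ (mem_union_right _ (mem_filter.2 ⟨hjw, h1⟩))
    · exact mem_union_right _ (mem_filter.2 ⟨hl j hj, i, mem_filter.2 ⟨hi, hi1⟩, hij⟩)
  · exact mem_union_left _ (mem_union_left _ (mem_filter.2 ⟨hl j hj, hw⟩))

theorem expand (hT : Good q w₀ h W M δ T) (P : Finset (Fin N)) {k : ℕ} (m : ℕ)
    (L : Fin k → List (Fin N)) (hL : ∀ l, ∀ j ∈ L l, j ∈ P)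
    (F : (Fin k → List (Fin N)) → ℝ) (hF : ∀ s, 0 ≤ F s ∧ F s ≤ 1) (x : Cube n) :
    |F (fun l => first m T (L l) x) - ∑ J' ∈ (wid w₀ T P).powerset.filter (fun J' => J'.card ≤ M),
        ∑ J ∈ J'.powerset, (-1 : ℝ) ^ (J'.card - J.card) *
          ((∏ j ∈ J', Z q w₀ T P j x) * F fun l => firstIn m T (area q w₀ T P J) (L l) x)| ≤
      bad q w₀ T P x + 3 ^ (M + 1) * ∑ J' ∈ powersetCard (M + 1) (wid w₀ T P), ∏ j ∈ J', Z q w₀ T P j x := by
  classical
  obtain ⟨A, hA⟩ : ∃ A, A = (wid w₀ T P).filter fun j => Z q w₀ T P j x = 1 := ⟨_, rfl⟩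
  have hAw : A ⊆ wid w₀ T P := by
    rw [hA]
    exact filter_subset _ _
  obtain ⟨c, hc⟩ : ∃ c : Finset (Fin N) → ℝ, c = fun J =>
    F fun l => firstIn m T (area q w₀ T P J) (L l) x := ⟨_, rfl⟩
  have hcJ : ∀ J, F (fun l => firstIn m T (area q w₀ T P J) (L l) x) = c J := fun J => by rw [hc]
  have hc01 : ∀ J, 0 ≤ c J ∧ c J ≤ 1 := fun J => by
    rw [hc]
    exact hF _
  have hp : ∀ J, J ⊆ wid w₀ T P → ∏ j ∈ J, Z q w₀ T P j x = if J ⊆ A then 1 else 0 := by
    intro J hJ
    rw [hA]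
    exact a7_prod P x hJ
  simp only [hcJ]
  have h1 : ∑ J' ∈ (wid w₀ T P).powerset.filter (fun J' => J'.card ≤ M),
      ∑ J ∈ J'.powerset, (-1 : ℝ) ^ (J'.card - J.card) * ((∏ j ∈ J', Z q w₀ T P j x) * c J) =
      ∑ J' ∈ A.powerset.filter (fun J' => J'.card ≤ M),
        ∑ J ∈ J'.powerset, (-1 : ℝ) ^ (J'.card - J.card) * c J := by
    have h2 : A.powerset.filter (fun J' => J'.card ≤ M) ⊆
        (wid w₀ T P).powerset.filter (fun J' => J'.card ≤ M) :=
      filter_subset_filter _ (powerset_mono.2 hAw)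
    rw [← sum_subset h2]
    · refine sum_congr rfl fun J' hJ' => sum_congr rfl fun J _ => ?_
      have h3 := mem_powerset.1 (mem_filter.1 hJ').1
      rw [hp J' (h3.trans hAw), if_pos h3, one_mul]
    · intro J' hJ' hn
      have h3 := mem_filter.1 hJ'
      have h4 : ¬ J' ⊆ A := fun h => hn (mem_filter.2 ⟨mem_powerset.2 h, h3.2⟩)
      rw [hp J' (mem_powerset.1 h3.1), if_neg h4]
      exact sum_eq_zero fun J _ => by rw [zero_mul, mul_zero]
  have h2 : ∑ J' ∈ powersetCard (M + 1) (wid w₀ T P), ∏ j ∈ J', Z q w₀ T P j x =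
      (A.card.choose (M + 1) : ℝ) := by
    have h3 : powersetCard (M + 1) A ⊆ powersetCard (M + 1) (wid w₀ T P) :=
      powersetCard_mono hAw
    rw [← sum_subset h3]
    · have h4 : ∀ J' ∈ powersetCard (M + 1) A, ∏ j ∈ J', Z q w₀ T P j x = 1 := by
        intro J' hJ'
        have h5 := (mem_powersetCard.1 hJ').1
        rw [hp J' (h5.trans hAw), if_pos h5]
      rw [sum_congr rfl h4, sum_const, card_powersetCard, nsmul_eq_mul, mul_one]
    · intro J' hJ' hn
      have h4 := mem_powersetCard.1 hJ'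
      rw [hp J' h4.1, if_neg fun h => hn (mem_powersetCard.2 ⟨h, h4.2⟩)]
  have h3 : |F (fun l => first m T (L l) x) - c A| ≤ bad q w₀ T P x := by
    rcases bad_int (q := q) (w₀ := w₀) (T := T) P x with hb | hb
    · have h4 : (fun l => first m T (L l) x) = fun l => firstIn m T (area q w₀ T P A) (L l) x := by
        funext l
        rw [hA]
        exact a7_first hb m (hL l)
      rw [h4, hcJ, sub_self, abs_zero, hb]
    · refine le_trans ?_ hb
      have h4 := hF fun l => first m T (L l) x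
      have h5 := hc01 A
      rw [abs_le]
      constructor <;> linarith
  rw [h1, h2]
  have h4 := trunc_incl A c hc01 M
  exact (abs_sub_le _ (c A) _).trans (add_le_add h3 h4)

end Pool.Agent.MP_ca1109_lc.Dnf.L
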