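import Pool.Agent.MP_ca1109_lc.Dnf.L.A9a

/-!
# Lists of terms: many terms are true if the sum of the probabilities of the wide terms is large
-/

namespace Pool.Agent.MP_ca1109_lc.Dnf.L

open Finset

variable {n N : ℕ} {T : Fin N → Term n} {q w₀ h W M r : ℕ} {δ γ : ℝ}

theorem a9_key {i j : Fin N} (hij : Pr T i j) :
    (T i).S.card * N + (i : ℕ) < (T j).S.card * N + (j : ℕ) := by
  have hi := i.isLt
  rcases hij with h | ⟨h, h'⟩
  · have : ((T i).S.card + 1) * N ≤ (T j).S.card * N := Nat.mul_le_mul_right N h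
    rw [add_mul, one_mul] at this
    omega
  · rw [h]
    have : (i : ℕ) < (j : ℕ) := h'
    omega

theorem a9_biUnion {ι κ : Type*} [DecidableEq κ] (s : Finset ι) (t : ι → Finset κ) (f : κ → ℝ)
    (hf : ∀ j, 0 ≤ f j) : ∑ j ∈ s.biUnion t, f j ≤ ∑ i ∈ s, ∑ j ∈ t i, f j := by
  classical
  induction s using Finset.induction_on with
  | empty => simp
  | insert a s ha ih =>
    rw [biUnion_insert, sum_insert ha]
    have h1 := sum_union_inter (s₁ := t a) (s₂ := s.biUnion t) (f := f)
    have h2 : 0 ≤ ∑ j ∈ t a ∩ s.biUnion t, f j := sum_nonneg fun j _ => hf j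
    linarith

/-- The greedy set: no heavy pair, and every other term has an earlier heavy neighbour in it. -/
theorem a9_greedy (q w₀ : ℕ) (T : Fin N → Term n) (k : ℕ) : ∀ S : Finset (Fin N), S.card = k →
    ∃ I ⊆ S, NoHv q w₀ T I ∧ ∀ j ∈ S, j ∉ I → ∃ i ∈ I, Hv q w₀ T i j := by
  classical
  induction k with
  | zero =>
    intro S hS
    rw [card_eq_zero] at hS
    subst hS
    exact ⟨∅, subset_rfl, fun i hi => absurd hi (notMem_empty i),
      fun j hj => absurd hj (notMem_empty j)⟩
  | succ k ih =>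
    intro S hS
    have hne : S.Nonempty := by
      rw [← card_pos, hS]
      exact Nat.succ_pos k
    obtain ⟨c, hc, hmax⟩ := S.exists_max_image (fun i => (T i).S.card * N + (i : ℕ)) hne
    obtain ⟨I, hI, hN, hcov⟩ := ih (S.erase c) (by rw [card_erase_of_mem hc, hS]; rfl)
    have hIS : I ⊆ S := hI.trans (erase_subset c S)
    by_cases h1 : ∃ i ∈ I, Hv q w₀ T i c
    · refine ⟨I, hIS, hN, fun j hj hjI => ?_⟩
      by_cases hjc : j = c
      · rw [hjc]
        exact h1
      · exact hcov j (mem_erase.2 ⟨hjc, hj⟩) hjI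
    · push Not at h1
      refine ⟨insert c I, ?_, ?_, fun j hj hjI => ?_⟩
      · intro i hi
        rcases mem_insert.1 hi with rfl | hi
        · exact hc
        · exact hIS hi
      · intro i hi j hj hv
        have hjS : j ∈ S := by
          rcases mem_insert.1 hj with rfl | hj
          · exact hc
          · exact hIS hj
        rcases mem_insert.1 hi with hic | hi'
        · rw [hic] at hv
          have h2 := a9_key hv.2.2.1
          have h3 := hmax j hjS
          omega
        · rcases mem_insert.1 hj with hjc | hj'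
          · rw [hjc] at hv
            exact h1 i hi' hv
          · exact hN i hi' j hj' hv
      · have hjc : j ≠ c := fun h => hjI (h ▸ mem_insert_self _ _)
        obtain ⟨i, hi, hv⟩ := hcov j (mem_erase.2 ⟨hjc, hj⟩) fun h => hjI (mem_insert_of_mem h)
        exact ⟨i, mem_insert_of_mem hi, hv⟩

theorem few_lam (hT : Good q w₀ h W M δ T) (hM : 1 ≤ M) (P : Finset (Fin N)) (m : ℕ) {Λ : ℝ} (hΛ : 0 < Λ)
    (hm : 2 * (m : ℝ) ≤ Λ) (hδ : δ ≤ 1) (hl : (1 + h) * Λ ≤ lam w₀ T P) : E (few m T P) ≤ 8 / Λ := by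
  classical
  obtain ⟨I, hI, hN, hcov⟩ := a9_greedy q w₀ T _ (wid w₀ T P) rfl
  have hIP : I ⊆ P := hI.trans (filter_subset _ _)
  have hwI : wid w₀ T I = I := by
    unfold wid
    exact filter_true_of_mem fun j hj => a2_wd (hI hj)
  set p : Fin N → ℝ := fun j => (1 / 2 : ℝ) ^ (T j).S.card with hp
  have hp0 : ∀ j, 0 ≤ p j := fun j => by positivity
  set μ : ℝ := ∑ j ∈ I, p j with hμ
  have hμ0 : 0 ≤ μ := sum_nonneg fun j _ => hp0 j
  have hlI : lam w₀ T I = μ := by
    unfold lam
    rw [hwI]
  -- the sum over the greedy set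
  have hsum : lam w₀ T P ≤ (1 + h) * μ := by
    have e1 : lam w₀ T P ≤ ∑ j ∈ I, p j + ∑ j ∈ wid w₀ T P \ I, p j := by
      unfold lam
      rw [add_comm, sum_sdiff hI]
    have e2 : ∑ j ∈ wid w₀ T P \ I, p j ≤
        ∑ i ∈ I, ∑ j ∈ univ.filter (fun j => Hv q w₀ T i j), p j := by
      have hsub : wid w₀ T P \ I ⊆ I.biUnion fun i => univ.filter fun j => Hv q w₀ T i j := by
        intro j hj
        obtain ⟨hj1, hj2⟩ := mem_sdiff.1 hj
        obtain ⟨i, hi, hv⟩ := hcov j hj1 hj2
        exact mem_biUnion.2 ⟨i, hi, mem_filter.2 ⟨mem_univ _, hv⟩⟩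
      refine (sum_le_sum_of_subset_of_nonneg hsub fun j _ _ => hp0 j).trans ?_
      exact a9_biUnion I _ p hp0
    have e3 : ∀ i ∈ I, ∑ j ∈ univ.filter (fun j => Hv q w₀ T i j), p j ≤ h * p i := by
      intro i _
      calc ∑ j ∈ univ.filter (fun j => Hv q w₀ T i j), p j
          ≤ ∑ _j ∈ univ.filter (fun j => Hv q w₀ T i j), p i := by
            refine sum_le_sum fun j hj => ?_
            have hv := (mem_filter.1 hj).2
            have hle : (T i).S.card ≤ (T j).S.card := by
              rcases hv.2.2.1 with h | ⟨h, -⟩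
              · exact h.le
              · exact h.le
            exact pow_le_pow_of_le_one (by norm_num) (by norm_num) hle
        _ = ((univ.filter fun j => Hv q w₀ T i j).card : ℝ) * p i := by
            rw [sum_const, nsmul_eq_mul]
        _ ≤ h * p i := by
            refine mul_le_mul_of_nonneg_right ?_ (hp0 i)
            exact_mod_cast hT.after i
    calc lam w₀ T P ≤ ∑ j ∈ I, p j + ∑ j ∈ wid w₀ T P \ I, p j := e1
      _ ≤ μ + ∑ i ∈ I, (h : ℝ) * p i := add_le_add le_rfl (e2.trans (sum_le_sum e3))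
      _ = (1 + h) * μ := by
          rw [← mul_sum]
          ring
  have hΛμ : Λ ≤ μ := by
    have h1 : (0 : ℝ) < 1 + h := by positivity
    exact le_of_mul_le_mul_left (hl.trans hsum) h1
  have hμpos : 0 < μ := hΛ.trans_le hΛμ
  -- the two moments
  have h1 : E (fun x => ∑ j ∈ I, (T j).f x) = μ := by
    rw [E_sum]
    exact sum_congr rfl fun j _ => E_term (T j)
  have hpJ1 : ∀ i, pJ T {i} = p i := by
    intro i
    unfold pJ
    simp only [prod_singleton]
    exact E_term (T i)
  have h2 : E (fun x => (∑ j ∈ I, (T j).f x) ^ 2) ≤ μ ^ 2 + 2 * μ := by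
    have e1 : (fun x : Cube n => (∑ j ∈ I, (T j).f x) ^ 2) = fun x =>
        ∑ i ∈ I, ∑ c ∈ I, (T i).f x * (T c).f x := by
      funext x
      rw [sq, sum_mul_sum]
    rw [e1, E_sum]
    have e2 : ∀ i ∈ I, E (fun x => ∑ c ∈ I, (T i).f x * (T c).f x) ≤ p i + p i * (μ + δ) := by
      intro i hi
      rw [E_sum, ← add_sum_erase I _ hi]
      refine add_le_add ?_ ?_
      · refine le_of_eq ?_
        have e3 : (fun x : Cube n => (T i).f x * (T i).f x) = (T i).f := by
          funext x
          unfold Term.f one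
          split_ifs <;> norm_num
        rw [e3]
        exact E_term (T i)
      · have e4 := add_one hT I {i} (by rw [hwI]; exact singleton_subset_iff.2 hi)
          (by rw [card_singleton]; exact hM)
        rw [hwI, hlI, hpJ1] at e4
        refine le_trans (le_of_eq ?_) e4
        have e5 : (I \ {i}).filter (fun c => NoHv q w₀ T (insert c {i})) = I.erase i := by
          rw [sdiff_singleton_eq_erase]
          refine filter_true_of_mem fun c hc => a2_noHv_mono ?_ hN
          intro j hj
          rcases mem_insert.1 hj with rfl | hj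
          · exact mem_of_mem_erase hc
          · rw [mem_singleton.1 hj]
            exact hi
        rw [e5]
        refine sum_congr rfl fun c hc => ?_
        unfold pJ
        congr 1
        funext x
        rw [prod_insert (by simpa using (mem_erase.1 hc).1), prod_singleton, mul_comm]
    calc ∑ i ∈ I, E (fun x => ∑ c ∈ I, (T i).f x * (T c).f x)
        ≤ ∑ i ∈ I, (p i + p i * (μ + δ)) := sum_le_sum e2
      _ = μ + μ * (μ + δ) := by rw [sum_add_distrib, ← sum_mul]
      _ ≤ μ ^ 2 + 2 * μ := by nlinarith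
  refine (cheb (T := T) m P _ μ hμpos (hm.trans hΛμ) (fun x => ?_) h1 h2).trans ?_
  · exact a9_card P I hIP (fun j x => (T j).f x) (fun j x => le_rfl) x
  · exact div_le_div_of_nonneg_left (by norm_num) hΛ hΛμ

end Pool.Agent.MP_ca1109_lc.Dnf.L
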