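import Pool.Agent.MP_ca1109_lc.Dnf.L.Defs

/-!
# Lists of terms: many narrow terms
-/

namespace Pool.Agent.MP_ca1109_lc.Dnf.L

open Finset

variable {n N : ℕ} {T : Fin N → Term n} {q w₀ h W M r : ℕ} {δ γ : ℝ}

open Classical in
theorem a9c_cheb (m : ℕ) (P : Finset (Fin N)) (X : Cube n → ℝ) (μ : ℝ) (hμ : 0 < μ)
    (hm : 2 * (m : ℝ) ≤ μ)
    (hX : ∀ x : Cube n, X x ≤ ((P.filter fun j => (T j).Sat x).card : ℝ))
    (h1 : E X = μ) (h2 : E (fun x => X x ^ 2) ≤ μ ^ 2 + 2 * μ) : E (few m T P) ≤ 8 / μ := by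
  have e1 : ∀ x, few m T P x ≤ 4 / μ ^ 2 * (X x ^ 2 - 2 * μ * X x + μ ^ 2) := by
    intro x
    have hsq : X x ^ 2 - 2 * μ * X x + μ ^ 2 = (X x - μ) ^ 2 := by ring
    rw [hsq]
    by_cases hx : (P.filter fun j => (T j).Sat x).card < m
    · have h0 : few m T P x = 1 := one_true hx
      rw [h0]
      have h3 : X x ≤ μ / 2 := by
        have h4 : ((P.filter fun j => (T j).Sat x).card : ℝ) < m := by exact_mod_cast hx
        have h5 := hX x
        linarith
      rw [div_mul_eq_mul_div, le_div_iff₀ (by positivity)]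
      nlinarith
    · have h0 : few m T P x = 0 := one_false hx
      rw [h0]
      positivity
  have e3 : (E fun x => 4 / μ ^ 2 * (X x ^ 2 - 2 * μ * X x + μ ^ 2)) =
      4 / μ ^ 2 * (E (fun x => X x ^ 2) - 2 * μ * μ + μ ^ 2) := by
    rw [E_smul, E_add (fun x => X x ^ 2 - 2 * μ * X x) (fun _ => μ ^ 2),
      E_sub (fun x => X x ^ 2) (fun x => 2 * μ * X x), E_smul, E_const]
    rw [show (E fun x => X x) = μ from h1]
  refine (E_mono e1).trans ?_
  rw [e3]
  have e4 : E (fun x => X x ^ 2) - 2 * μ * μ + μ ^ 2 ≤ 2 * μ := by nlinarith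
  calc 4 / μ ^ 2 * (E (fun x => X x ^ 2) - 2 * μ * μ + μ ^ 2) ≤ 4 / μ ^ 2 * (2 * μ) :=
        mul_le_mul_of_nonneg_left e4 (by positivity)
    _ = 8 / μ := by
        field_simp
        ring

theorem few_nar (hT : Spread r q γ T) (hw : 1 ≤ w₀) (P : Finset (Fin N)) (m : ℕ) {Λ : ℝ} (hΛ : 0 < Λ)
    (hm : 2 * (m : ℝ) ≤ Λ) (hc : Λ * 2 ^ w₀ * (1 + w₀ * (w₀ * r * 2 ^ w₀)) < (nar w₀ T P).card) :
    E (few m T P) ≤ 8 / Λ := by
  classical
  -- a maximal family of disjoint narrow terms
  obtain ⟨I, hI, hmax⟩ := exists_max_image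
    (((nar w₀ T P).powerset).filter fun I => ∀ i ∈ I, ∀ j ∈ I, i ≠ j → Disjoint (T i).S (T j).S)
    card ⟨∅, mem_filter.2 ⟨mem_powerset.2 (empty_subset _), fun i hi => absurd hi (notMem_empty i)⟩⟩
  rw [mem_filter, mem_powerset] at hI
  obtain ⟨hIP, hId⟩ := hI
  have hnar : ∀ i ∈ I, i ∈ P ∧ (T i).S.card < w₀ := by
    intro i hi
    have h1 := hIP hi
    unfold nar at h1
    rw [mem_filter] at h1
    refine ⟨h1.1, ?_⟩
    have h2 := h1.2
    unfold Wd at h2
    omega
  have hmeet : ∀ j ∈ nar w₀ T P, j ∉ I → ∃ i ∈ I, ¬ Disjoint (T i).S (T j).S := by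
    intro j hj hjI
    by_contra hcon
    push Not at hcon
    have h1 : insert j I ∈ ((nar w₀ T P).powerset).filter fun I =>
        ∀ i ∈ I, ∀ j ∈ I, i ≠ j → Disjoint (T i).S (T j).S := by
      rw [mem_filter, mem_powerset]
      refine ⟨insert_subset hj hIP, ?_⟩
      intro a ha b hb hab
      rcases mem_insert.1 ha with ha' | ha'
      · rcases mem_insert.1 hb with hb' | hb'
        · exact absurd (ha'.trans hb'.symm) hab
        · rw [ha']
          exact (hcon b hb').symm
      · rcases mem_insert.1 hb with hb' | hb'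
        · rw [hb']
          exact hcon a ha'
        · exact hId a ha' b hb' hab
    have h2 := hmax _ h1
    rw [card_insert_of_notMem hjI] at h2
    omega
  -- the sum
  set μ : ℝ := ∑ i ∈ I, (1 / 2 : ℝ) ^ (T i).S.card with hμdef
  have hE1 : ∀ i, E (T i).f = (1 / 2 : ℝ) ^ (T i).S.card := fun i => E_term (T i)
  by_cases hμ : Λ ≤ μ
  · have hμ0 : 0 < μ := lt_of_lt_of_le hΛ hμ
    have hX1 : E (fun x => ∑ i ∈ I, (T i).f x) = μ := by
      rw [E_sum]
      exact sum_congr rfl fun i _ => hE1 i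
    have hX2 : E (fun x => (∑ i ∈ I, (T i).f x) ^ 2) ≤ μ ^ 2 + 2 * μ := by
      have e1 : (fun x => (∑ i ∈ I, (T i).f x) ^ 2) =
          fun x => ∑ i ∈ I, ∑ j ∈ I, (T i).f x * (T j).f x := by
        funext x
        rw [sq, sum_mul_sum]
      rw [e1, E_sum]
      have e2 : ∀ i ∈ I, E (fun x => ∑ j ∈ I, (T i).f x * (T j).f x) ≤
          (1 / 2 : ℝ) ^ (T i).S.card * μ + (1 / 2 : ℝ) ^ (T i).S.card := by
        intro i hi
        rw [E_sum]
        have e3 : ∀ j ∈ I, E (fun x => (T i).f x * (T j).f x) ≤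
            (1 / 2 : ℝ) ^ (T i).S.card * (1 / 2 : ℝ) ^ (T j).S.card +
              (if j = i then (1 / 2 : ℝ) ^ (T i).S.card else 0) := by
          intro j hj
          by_cases hij : j = i
          · rw [if_pos hij, hij]
            have e4 : (fun x => (T i).f x * (T i).f x) = (T i).f := by
              funext x
              unfold Term.f
              by_cases hs : (T i).Sat x
              · rw [one_true hs, mul_one]
              · rw [one_false hs, mul_zero]
            rw [e4, hE1]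
            have : (0 : ℝ) ≤ (1 / 2 : ℝ) ^ (T i).S.card * (1 / 2 : ℝ) ^ (T i).S.card := by
              positivity
            linarith
          · rw [if_neg hij, add_zero, E_indep (hId i hi j hj fun h => hij h.symm) (on_term (T i))
              (on_term (T j)), hE1, hE1]
        refine (sum_le_sum e3).trans (le_of_eq ?_)
        rw [sum_add_distrib, ← mul_sum, sum_ite_eq' I i, if_pos hi]
      refine (sum_le_sum e2).trans ?_
      rw [sum_add_distrib, ← sum_mul]
      have : μ * μ + μ ≤ μ ^ 2 + 2 * μ := by nlinarith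
      exact this
    have hXle : ∀ x : Cube n, ∑ i ∈ I, (T i).f x ≤ ((P.filter fun j => (T j).Sat x).card : ℝ) := by
      intro x
      have e1 : ∑ i ∈ I, (T i).f x = ((I.filter fun j => (T j).Sat x).card : ℝ) := by
        rw [← sum_boole]
        refine sum_congr rfl fun i _ => ?_
        unfold Term.f one
        rfl
      rw [e1]
      have e2 : (I.filter fun j => (T j).Sat x) ⊆ P.filter fun j => (T j).Sat x := by
        intro i hi
        rw [mem_filter] at hi ⊢
        exact ⟨(hnar i hi.1).1, hi.2⟩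
      exact_mod_cast card_le_card e2
    refine (a9c_cheb m P (fun x => ∑ i ∈ I, (T i).f x) μ hμ0 (hm.trans hμ) hXle hX1 hX2).trans ?_
    exact div_le_div_of_nonneg_left (by norm_num) hΛ hμ
  · exfalso
    have hμ' : μ < Λ := not_le.1 hμ
    have h2w : (0 : ℝ) < 2 ^ w₀ := by positivity
    have hIc : (I.card : ℝ) ≤ Λ * 2 ^ w₀ := by
      have e1 : (I.card : ℝ) * (1 / 2) ^ w₀ ≤ μ := by
        rw [← nsmul_eq_mul, ← sum_const]
        refine sum_le_sum fun i hi => ?_
        exact pow_le_pow_of_le_one (by norm_num) (by norm_num) (hnar i hi).2.le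
      have e2 : (I.card : ℝ) * (1 / 2) ^ w₀ * 2 ^ w₀ = I.card := by
        rw [mul_assoc, ← mul_pow]
        norm_num
      rw [← e2]
      exact mul_le_mul_of_nonneg_right (e1.trans hμ'.le) h2w.le
    have hread : ∀ v : Fin n, ((univ.filter fun j => v ∈ (T j).S ∧ (T j).S.card < w₀).card : ℝ) ≤
        w₀ * r * 2 ^ w₀ := by
      intro v
      have e1 : (univ.filter fun j => v ∈ (T j).S ∧ (T j).S.card < w₀) =
          (range w₀).biUnion fun w => univ.filter fun j => v ∈ (T j).S ∧ (T j).S.card = w := by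
        ext j
        simp only [mem_filter, mem_univ, true_and, mem_biUnion, mem_range]
        constructor
        · rintro ⟨a, b⟩
          exact ⟨_, b, a, rfl⟩
        · rintro ⟨w, a, b, c⟩
          exact ⟨b, by omega⟩
      have e2 : ((univ.filter fun j => v ∈ (T j).S ∧ (T j).S.card < w₀).card : ℝ) ≤
          ∑ w ∈ range w₀, ((univ.filter fun j => v ∈ (T j).S ∧ (T j).S.card = w).card : ℝ) := by
        rw [e1]
        exact_mod_cast card_biUnion_le
      refine e2.trans ?_
      have e3 : ∀ w ∈ range w₀, ((univ.filter fun j => v ∈ (T j).S ∧ (T j).S.card = w).card : ℝ) ≤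
          r * 2 ^ w₀ := by
        intro w hw'
        rw [mem_range] at hw'
        refine (hT.read v w).trans (mul_le_mul_of_nonneg_left ?_ (Nat.cast_nonneg r))
        rw [← Real.rpow_natCast]
        apply Real.rpow_le_rpow_of_exponent_le (by norm_num)
        have h3 : (w : ℝ) ≤ w₀ := by exact_mod_cast hw'.le
        have h4 : γ * (w : ℝ) ≤ 1 * w :=
          mul_le_mul_of_nonneg_right hT.γ1.le (Nat.cast_nonneg w)
        linarith
      refine (sum_le_sum e3).trans (le_of_eq ?_)
      rw [sum_const, card_range, nsmul_eq_mul]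
      ring
    have hcov : nar w₀ T P ⊆ I ∪ I.biUnion fun i => (T i).S.biUnion fun v =>
        univ.filter fun j => v ∈ (T j).S ∧ (T j).S.card < w₀ := by
      intro j hj
      rw [mem_union]
      by_cases hjI : j ∈ I
      · exact Or.inl hjI
      · right
        obtain ⟨i, hi, hd⟩ := hmeet j hj hjI
        rw [not_disjoint_iff] at hd
        obtain ⟨v, hv1, hv2⟩ := hd
        refine mem_biUnion.2 ⟨i, hi, mem_biUnion.2 ⟨v, hv1, mem_filter.2 ⟨mem_univ _, hv2, ?_⟩⟩⟩
        unfold nar at hj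
        have h2 := (mem_filter.1 hj).2
        unfold Wd at h2
        omega
    have hR0 : (0 : ℝ) ≤ w₀ * r * 2 ^ w₀ := by positivity
    have hcard : ((nar w₀ T P).card : ℝ) ≤ I.card * (1 + w₀ * (w₀ * r * 2 ^ w₀)) := by
      have e1 : ((nar w₀ T P).card : ℝ) ≤ I.card + ∑ i ∈ I, ∑ v ∈ (T i).S,
          ((univ.filter fun j => v ∈ (T j).S ∧ (T j).S.card < w₀).card : ℝ) := by
        have e2 : (nar w₀ T P).card ≤ I.card + ∑ i ∈ I, ∑ v ∈ (T i).S,
            (univ.filter fun j => v ∈ (T j).S ∧ (T j).S.card < w₀).card := by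
          refine (card_le_card hcov).trans ((card_union_le _ _).trans ?_)
          refine Nat.add_le_add_left (card_biUnion_le.trans ?_) _
          exact sum_le_sum fun i _ => card_biUnion_le
        exact_mod_cast e2
      have e3 : ∑ i ∈ I, ∑ v ∈ (T i).S,
          ((univ.filter fun j => v ∈ (T j).S ∧ (T j).S.card < w₀).card : ℝ) ≤
          ∑ i ∈ I, (w₀ : ℝ) * (w₀ * r * 2 ^ w₀) := by
        refine sum_le_sum fun i hi => ?_
        refine (sum_le_sum fun v _ => hread v).trans ?_
        rw [sum_const, nsmul_eq_mul]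
        refine mul_le_mul_of_nonneg_right ?_ hR0
        exact_mod_cast (hnar i hi).2.le
      rw [sum_const, nsmul_eq_mul] at e3
      linarith
    have h5 : (I.card : ℝ) * (1 + w₀ * (w₀ * r * 2 ^ w₀)) ≤
        Λ * 2 ^ w₀ * (1 + w₀ * (w₀ * r * 2 ^ w₀)) :=
      mul_le_mul_of_nonneg_right hIc (by positivity)
    linarith

end Pool.Agent.MP_ca1109_lc.Dnf.L
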