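import Pool.Agent.MP_ca1109_lc.Dnf.L.A9a
import Pool.Agent.MP_ca1109_lc.Dnf.L.A9b
import Pool.Agent.MP_ca1109_lc.Dnf.L.A9c

/-!
# Lists of terms: many terms are true if the sums of the probabilities are large
-/
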