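import Pool.Agent.MP_ca1109_lc.Dnf.L.A2
import Pool.Agent.MP_ca1109_lc.Dnf.M7a

/-!
# Lists of terms: many terms are true if the sums of the probabilities are large
-/

namespace Pool.Agent.MP_ca1109_lc.Dnf.L

open Finset

variable {n N : ℕ} {T : Fin N → Term n} {q w₀ h W M r : ℕ} {δ γ : ℝ}

open Classical in
theorem cheb (m : ℕ) (P : Finset (Fin N)) (X : Cube n → ℝ) (μ : ℝ) (hμ : 0 < μ) (hm : 2 * (m : ℝ) ≤ μ)
    (hX : ∀ x : Cube n, X x ≤ ((P.filter fun j => (T j).Sat x).card : ℝ))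
    (h1 : E X = μ) (h2 : E (fun x => X x ^ 2) ≤ μ ^ 2 + 2 * μ) : E (few m T P) ≤ 8 / μ := by
  have e1 : ∀ x, few m T P x ≤ 4 / μ ^ 2 * (X x ^ 2 - 2 * μ * X x + μ ^ 2) := by
    intro x
    have e0 : X x ^ 2 - 2 * μ * X x + μ ^ 2 = (X x - μ) ^ 2 := by ring
    rw [e0]
    unfold few
    by_cases hc : (P.filter fun j => (T j).Sat x).card < m
    · rw [one_true hc]
      have h3 : X x ≤ μ / 2 := by
        have h4 : ((P.filter fun j => (T j).Sat x).card : ℝ) ≤ m := by exact_mod_cast hc.le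
        linarith [hX x]
      have h5 : μ ^ 2 / 4 ≤ (X x - μ) ^ 2 := by nlinarith
      calc (1 : ℝ) = 4 / μ ^ 2 * (μ ^ 2 / 4) := by field_simp
        _ ≤ 4 / μ ^ 2 * (X x - μ) ^ 2 := mul_le_mul_of_nonneg_left h5 (by positivity)
    · rw [one_false hc]
      positivity
  refine (E_mono e1).trans ?_
  have e2 : E (fun x => 4 / μ ^ 2 * (X x ^ 2 - 2 * μ * X x + μ ^ 2)) =
      4 / μ ^ 2 * (E (fun x => X x ^ 2) - 2 * μ * E X + μ ^ 2) := by
    rw [E_smul, E_add (fun x => X x ^ 2 - 2 * μ * X x) fun _ => μ ^ 2,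
      E_sub (fun x => X x ^ 2) fun x => 2 * μ * X x, E_smul, E_const]
  rw [e2, h1]
  calc 4 / μ ^ 2 * (E (fun x => X x ^ 2) - 2 * μ * μ + μ ^ 2)
      ≤ 4 / μ ^ 2 * (2 * μ) := by
        refine mul_le_mul_of_nonneg_left ?_ (by positivity)
        nlinarith
    _ = 8 / μ := by
        field_simp
        norm_num

theorem a9_Z_cases (P : Finset (Fin N)) (j : Fin N) (x : Cube n) :
    Z q w₀ T P j x = 0 ∨ Z q w₀ T P j x = 1 := by
  unfold Z
  by_cases h : ZP q w₀ T P j x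
  · exact Or.inr (one_true h)
  · exact Or.inl (one_false h)

/-- The square of a sum of numbers `0` or `1`. -/
theorem a9_sq {ι : Type*} [DecidableEq ι] (s : Finset ι) (u : ι → ℝ)
    (hu : ∀ i ∈ s, u i = 0 ∨ u i = 1) :
    (∑ i ∈ s, u i) ^ 2 = ∑ i ∈ s, u i + 2 * ∑ J ∈ powersetCard 2 s, ∏ j ∈ J, u j := by
  induction s using Finset.induction_on with
  | empty =>
    rw [powersetCard_eq_empty.2 (by simp)]
    simp
  | insert a s ha ih =>
    have hu' : ∀ i ∈ s, u i = 0 ∨ u i = 1 := fun i hi => hu i (mem_insert_of_mem hi)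
    have hd : Disjoint (powersetCard 2 s) ((powersetCard 1 s).image (insert a)) := by
      rw [disjoint_left]
      intro J hJ hJ'
      obtain ⟨J', -, rfl⟩ := mem_image.1 hJ'
      exact ha ((mem_powersetCard.1 hJ).1 (mem_insert_self _ _))
    have hinj : Set.InjOn (insert a) (powersetCard 1 s : Set (Finset ι)) := by
      intro J hJ J' hJ' h
      have e1 := erase_insert fun h => ha ((mem_powersetCard.1 (mem_coe.1 hJ)).1 h)
      have e2 := erase_insert fun h => ha ((mem_powersetCard.1 (mem_coe.1 hJ')).1 h)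
      rw [← e1, ← e2, h]
    rw [sum_insert ha, powersetCard_succ_insert ha, sum_union hd, sum_image hinj,
      powersetCard_one, sum_map]
    have e3 : ∑ i ∈ s, ∏ j ∈ insert a ((⟨singleton, singleton_injective⟩ : ι ↪ Finset ι) i), u j =
        u a * ∑ i ∈ s, u i := by
      rw [mul_sum]
      refine sum_congr rfl fun i hi => ?_
      have hai : a ≠ i := fun h => ha (h ▸ hi)
      show ∏ j ∈ insert a ({i} : Finset ι), u j = u a * u i
      rw [prod_insert (by simpa using hai), prod_singleton]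
    rw [e3]
    have e4 : u a ^ 2 = u a := by
      rcases hu a (mem_insert_self _ _) with h | h <;> rw [h] <;> norm_num
    have e5 := ih hu'
    calc (u a + ∑ i ∈ s, u i) ^ 2 = u a ^ 2 + 2 * (u a * ∑ i ∈ s, u i) + (∑ i ∈ s, u i) ^ 2 := by
          ring
      _ = _ := by
          rw [e4, e5]
          ring

open Classical in
theorem a9_card (P I : Finset (Fin N)) (hI : I ⊆ P) (u : Fin N → Cube n → ℝ)
    (hu : ∀ j x, u j x ≤ (T j).f x) (x : Cube n) :
    ∑ j ∈ I, u j x ≤ ((P.filter fun j => (T j).Sat x).card : ℝ) := by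
  have h1 : ((P.filter fun j => (T j).Sat x).card : ℝ) = ∑ j ∈ P, (T j).f x := by
    unfold Term.f one
    rw [card_eq_sum_ones, sum_filter]
    push_cast
    rfl
  rw [h1]
  exact (sum_le_sum fun j _ => hu j x).trans
    (sum_le_sum_of_subset_of_nonneg hI fun j _ _ => one_nonneg _)

theorem few_mu (hT : Good q w₀ h W M δ T) (hM : 1 ≤ M) (P : Finset (Fin N)) (m : ℕ) {Λ : ℝ} (hΛ : 0 < Λ)
    (hm : 2 * (m : ℝ) ≤ Λ) (hδ : 2 * (δ * (lam w₀ T P + δ)) ≤ Λ) (hμ : Λ ≤ mu q w₀ T P) :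
    E (few m T P) ≤ 8 / Λ := by
  classical
  set μ := mu q w₀ T P with hμdef
  have hμ0 : 0 < μ := hΛ.trans_le hμ
  have h1 : E (fun x => ∑ j ∈ wid w₀ T P, Z q w₀ T P j x) = μ := E_sum _ _
  have h2 : E (fun x => (∑ j ∈ wid w₀ T P, Z q w₀ T P j x) ^ 2) ≤ μ ^ 2 + 2 * μ := by
    have e1 : (fun x : Cube n => (∑ j ∈ wid w₀ T P, Z q w₀ T P j x) ^ 2) = fun x =>
        ∑ j ∈ wid w₀ T P, Z q w₀ T P j x +
          2 * ∑ J ∈ powersetCard 2 (wid w₀ T P), ∏ j ∈ J, Z q w₀ T P j x := by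
      funext x
      exact a9_sq _ _ fun j _ => a9_Z_cases P j x
    rw [e1, E_add, h1, E_smul, E_sum]
    have e2 := moment_bound hT P 1 hM
    have e3 : ((1 + 1).factorial : ℝ) = 2 := by norm_num [Nat.factorial]
    rw [e3, pow_one] at e2
    have e4 : (1 : ℕ) + 1 = 2 := rfl
    rw [e4] at e2
    rw [← hμdef] at e2
    linarith
  refine (cheb (T := T) m P _ μ hμ0 (hm.trans hμ) (fun x => ?_) h1 h2).trans ?_
  · exact a9_card P _ (filter_subset _ _) (fun j x => Z q w₀ T P j x)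
      (fun j x => a2_Z_le_term P j x) x
  · exact div_le_div_of_nonneg_left (by norm_num) hΛ hμ

end Pool.Agent.MP_ca1109_lc.Dnf.L
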