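import Pool.Agent.MP_ca1109_lc.Dnf.B3

/-!
# Lists of terms: definitions
-/

namespace Pool.Agent.MP_ca1109_lc.Dnf.L

open Finset

variable {n N : ℕ}

/-! ## Wide terms, heavy neighbours (`q`: the overlap parameter, `w₀`: the least width of a wide term) -/

/-- The `j`-th term is wide. -/
def Wd (w₀ : ℕ) (T : Fin N → Term n) (j : Fin N) : Prop := w₀ ≤ (T j).S.card

/-- The order of the terms by width (and index). -/
def Pr (T : Fin N → Term n) (i j : Fin N) : Prop :=
  (T i).S.card < (T j).S.card ∨ ((T i).S.card = (T j).S.card ∧ i < j)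

/-- `i` precedes `j`, both are wide and `j` contains more than the `q`-th part of the variables of
`i`. -/
def Hv (q w₀ : ℕ) (T : Fin N → Term n) (i j : Fin N) : Prop :=
  Wd w₀ T i ∧ Wd w₀ T j ∧ Pr T i j ∧ (T i).S.card < q * ((T i).S ∩ (T j).S).card

/-- The `j`-th term is true, and no preceding heavy neighbour in `P`. -/
def ZP (q w₀ : ℕ) (T : Fin N → Term n) (P : Finset (Fin N)) (j : Fin N) (x : Cube n) : Prop :=
  (T j).Sat x ∧ ∀ i ∈ P, Hv q w₀ T i j → ¬ (T i).Sat x

/-- The indicator of `ZP`. -/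
noncomputable def Z (q w₀ : ℕ) (T : Fin N → Term n) (P : Finset (Fin N)) (j : Fin N) (x : Cube n) : ℝ :=
  one (ZP q w₀ T P j x)

open Classical in
/-- The variables of the `j`-th term and of its preceding heavy neighbours. -/
noncomputable def ball (q w₀ : ℕ) (T : Fin N → Term n) (j : Fin N) : Finset (Fin n) :=
  (T j).S ∪ (univ.filter fun i => Hv q w₀ T i j).biUnion fun i => (T i).S

/-- The balls meet. -/
def Near (q w₀ : ℕ) (T : Fin N → Term n) (i j : Fin N) : Prop :=
  ¬ Disjoint (ball q w₀ T i) (ball q w₀ T j)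

/-- No heavy pair in `J`. -/
def NoHv (q w₀ : ℕ) (T : Fin N → Term n) (J : Finset (Fin N)) : Prop :=
  ∀ i ∈ J, ∀ j ∈ J, ¬ Hv q w₀ T i j

/-- The balls of `J` are pairwise disjoint. -/
def Far (q w₀ : ℕ) (T : Fin N → Term n) (J : Finset (Fin N)) : Prop :=
  ∀ i ∈ J, ∀ j ∈ J, i ≠ j → ¬ Near q w₀ T i j

open Classical in
/-- The wide terms in `P`. -/
noncomputable def wid (w₀ : ℕ) (T : Fin N → Term n) (P : Finset (Fin N)) : Finset (Fin N) :=
  P.filter fun j => Wd w₀ T j

open Classical in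
/-- The narrow terms in `P`. -/
noncomputable def nar (w₀ : ℕ) (T : Fin N → Term n) (P : Finset (Fin N)) : Finset (Fin N) :=
  P.filter fun j => ¬ Wd w₀ T j

/-- The sum of the probabilities of the wide terms in `P`. -/
noncomputable def lam (w₀ : ℕ) (T : Fin N → Term n) (P : Finset (Fin N)) : ℝ :=
  ∑ j ∈ wid w₀ T P, (1 / 2 : ℝ) ^ (T j).S.card

/-- The sum of the probabilities of `ZP`. -/
noncomputable def mu (q w₀ : ℕ) (T : Fin N → Term n) (P : Finset (Fin N)) : ℝ :=
  ∑ j ∈ wid w₀ T P, E (Z q w₀ T P j)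

open Classical in
/-- What the analysis needs: at most `h` heavy neighbours, and small sums over the near light ones. -/
structure Good (q w₀ h W M : ℕ) (δ : ℝ) (T : Fin N → Term n) : Prop where
  q2 : 2 ≤ q
  w1 : 1 ≤ w₀
  δ0 : 0 ≤ δ
  le : ∀ j, (T j).S.card ≤ W
  before : ∀ j, (univ.filter fun i => Hv q w₀ T i j).card ≤ h
  after : ∀ i, (univ.filter fun j => Hv q w₀ T i j).card ≤ h
  near : ∀ J : Finset (Fin N), J.card ≤ M → (∀ j ∈ J, Wd w₀ T j) →
    ∑ c ∈ univ.filter (fun c => c ∉ J ∧ Wd w₀ T c ∧ (∃ j ∈ J, Near q w₀ T j c) ∧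
      NoHv q w₀ T (insert c J)), pJ T (insert c J) ≤ δ * pJ T J

/-- The terms of bounded width with few heavy overlaps. -/
structure Spread (r q : ℕ) (γ : ℝ) (T : Fin N → Term n) : Prop where
  γ0 : 0 ≤ γ
  γ1 : γ < 1
  read : ∀ (v : Fin n) (w : ℕ),
    ((univ.filter fun j => v ∈ (T j).S ∧ (T j).S.card = w).card : ℝ) ≤ r * 2 ^ (γ * w)
  ovl : ∀ j, (univ.filter fun i =>
    min (T i).S.card (T j).S.card < q * ((T i).S ∩ (T j).S).card).card ≤ r * (T j).S.card

/-! ## Lists of terms -/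

open Classical in
/-- The first `m` true terms of the list `L` (indices of terms). -/
noncomputable def first (m : ℕ) (T : Fin N → Term n) (L : List (Fin N)) (x : Cube n) : List (Fin N) :=
  (L.filter fun j => decide ((T j).Sat x)).take m

open Classical in
/-- The first `m` terms of the list `L` which are true and in `A`. -/
noncomputable def firstIn (m : ℕ) (T : Fin N → Term n) (A : Finset (Fin N)) (L : List (Fin N))
    (x : Cube n) : List (Fin N) :=
  (L.filter fun j => decide (j ∈ A ∧ (T j).Sat x)).take m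

open Classical in
/-- Less than `m` terms in `P` are true. -/
noncomputable def few (m : ℕ) (T : Fin N → Term n) (P : Finset (Fin N)) (x : Cube n) : ℝ :=
  one ((P.filter fun j => (T j).Sat x).card < m)

/-- The atom: all terms in `A` are true, no term in `D` is true. -/
noncomputable def atm (T : Fin N → Term n) (A D : Finset (Fin N)) (x : Cube n) : ℝ :=
  (∏ j ∈ A, (T j).f x) * one (∀ i ∈ D, ¬ (T i).Sat x)

/-- `f` is a combination of at most `B` atoms of terms in `A`. -/
def Atomic (T : Fin N → Term n) (A : Finset (Fin N)) (B : ℕ) (f : Cube n → ℝ) : Prop :=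
  ∃ (m : ℕ) (c : Fin m → ℝ) (P D : Fin m → Finset (Fin N)), m ≤ B ∧
    (∀ a, |c a| ≤ 1 ∧ P a ⊆ A ∧ D a ⊆ A) ∧ ∀ x, f x = ∑ a, c a * atm T (P a) (D a) x

/-- The error in the bounded case. -/
noncomputable def err (km M s h w₀ : ℕ) (η δ l Λ : ℝ) : ℝ :=
  (M + 1) * 2 ^ M * (s + 1) ^ km * η * (l + δ + 1) ^ M +
    2 * (l * (h * h) * (1 / 2) ^ (w₀ / 2) +
      3 ^ (M + 1) * (Λ ^ (M + 1) / (M + 1).factorial + δ * (l + δ) ^ M + η * (l + δ) ^ (M + 1)))

/-- The spectral norm in the bounded case. -/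
noncomputable def nrm (km M s N : ℕ) (M' : ℝ) : ℝ :=
  ((N : ℝ) + 1) ^ (M + 1) * (2 ^ M * (s + 1) ^ km * (1 + M')) + N ^ 2 +
    3 ^ (M + 1) * ((N : ℝ) + 1) ^ (M + 1) * (1 + M')

/-- All DNFs with at most `s` terms have sandwiches. -/
def SmallAny (s : ℕ) (η M : ℝ) : Prop :=
  ∀ (n : ℕ) (F : List (Term n)), F.length ≤ s → Sand η M fun x => one (Or F x)

end Pool.Agent.MP_ca1109_lc.Dnf.L
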